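import Mathlib

/-!
A Sylvester–Gallai type lemma proved with Kelly's minimal distance argument:
in a finite, not collinear configuration of points of a real projective plane it is impossible that
every point lies on at most one connecting line which contains fewer than four points.
-/

namespace Pool.Agent.MP_de770b_mp

open Submodule

/-- Four distinct reals `g`: two different ones are *outer*. -/
lemma outer_aux {g : Fin 4 → ℝ} (hg : StrictMono g) :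
    ∃ l l' k k' : Fin 4, l ≠ l' ∧ k ≠ l ∧ k' ≠ l' ∧ g k * g k ≤ g l * g k ∧
      g k' * g k' ≤ g l' * g k' := by
  have h01 : g 0 < g 1 := hg (by decide)
  have h12 : g 1 < g 2 := hg (by decide)
  have h23 : g 2 < g 3 := hg (by decide)
  by_cases h1 : 0 ≤ g 1
  · refine ⟨2, 3, 1, 1, by decide, by decide, by decide, ?_, ?_⟩ <;> nlinarith
  · by_cases h2 : g 2 ≤ 0
    · refine ⟨0, 1, 2, 2, by decide, by decide, by decide, ?_, ?_⟩ <;> nlinarith
    · push Not at h1 h2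
      refine ⟨0, 3, 1, 2, by decide, by decide, by decide, ?_, ?_⟩ <;> nlinarith

lemma outer {ι : Type*} (T : Finset ι) (hT : 4 ≤ T.card) (g : ι → ℝ)
    (hg : Set.InjOn g T) :
    ∃ l ∈ T, ∃ l' ∈ T, ∃ k ∈ T, ∃ k' ∈ T, l ≠ l' ∧ k ≠ l ∧ k' ≠ l' ∧
      g k * g k ≤ g l * g k ∧ g k' * g k' ≤ g l' * g k' := by
  classical
  obtain ⟨T', hT', hc⟩ := Finset.exists_subset_card_eq hT
  have hg' : Set.InjOn g T' := hg.mono (by exact_mod_cast hT')
  have hcard : (T'.image g).card = 4 := by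
    rw [Finset.card_image_of_injOn hg', hc]
  obtain ⟨l, l', k, k', h1, h2, h3, h4, h5⟩ :=
    outer_aux (g := (T'.image g).orderEmbOfFin hcard) (OrderEmbedding.strictMono _)
  have key : ∀ m : Fin 4, ∃ t ∈ T', g t = (T'.image g).orderEmbOfFin hcard m := by
    intro m
    exact Finset.mem_image.mp (Finset.orderEmbOfFin_mem (T'.image g) hcard m)
  have inj : ∀ {m n : Fin 4}, m ≠ n →
      (T'.image g).orderEmbOfFin hcard m ≠ (T'.image g).orderEmbOfFin hcard n := by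
    intro m n hmn h
    exact hmn (((T'.image g).orderEmbOfFin hcard).injective h)
  obtain ⟨tl, htl, el⟩ := key l
  obtain ⟨tl', htl', el'⟩ := key l'
  obtain ⟨tk, htk, ek⟩ := key k
  obtain ⟨tk', htk', ek'⟩ := key k'
  refine ⟨tl, hT' htl, tl', hT' htl', tk, hT' htk, tk', hT' htk', ?_, ?_, ?_, ?_, ?_⟩
  · rintro rfl; exact inj h1 (el.symm.trans el')
  · rintro rfl; exact inj h2 (ek.symm.trans el)
  · rintro rfl; exact inj h3 (ek'.symm.trans el')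
  · rw [ek, el]; exact h4
  · rw [ek', el']; exact h5

section
variable {ι W : Type*} [NormedAddCommGroup W] [InnerProductSpace ℝ W]

open scoped InnerProductSpace

/-- four times the squared area of a triangle -/
noncomputable def area2 (p q r : W) : ℝ :=
  ‖q - p‖ ^ 2 * ‖r - p‖ ^ 2 - ⟪q - p, r - p⟫_ℝ ^ 2

/-- The computation behind Kelly's argument. -/
lemma area_line (u w : W) (s t : ℝ) :
    ‖s • u - w‖ ^ 2 * ‖t • u - w‖ ^ 2 - ⟪s • u - w, t • u - w⟫_ℝ ^ 2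
      = (s - t) ^ 2 * (‖u‖ ^ 2 * ‖w‖ ^ 2 - ⟪u, w⟫_ℝ ^ 2) := by
  have e1 : ‖s • u - w‖ ^ 2 = s ^ 2 * ‖u‖ ^ 2 - 2 * s * ⟪u, w⟫_ℝ + ‖w‖ ^ 2 := by
    rw [norm_sub_sq_real, norm_smul, mul_pow, inner_smul_left]
    simp; ring
  have e2 : ‖t • u - w‖ ^ 2 = t ^ 2 * ‖u‖ ^ 2 - 2 * t * ⟪u, w⟫_ℝ + ‖w‖ ^ 2 := by
    rw [norm_sub_sq_real, norm_smul, mul_pow, inner_smul_left]
    simp; ring
  have e3 : ⟪s • u - w, t • u - w⟫_ℝ
      = s * t * ‖u‖ ^ 2 - (s + t) * ⟪u, w⟫_ℝ + ‖w‖ ^ 2 := by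
    rw [inner_sub_left, inner_sub_right, inner_sub_right, inner_smul_left, inner_smul_right,
      inner_smul_left, inner_smul_right, real_inner_self_eq_norm_sq, real_inner_self_eq_norm_sq,
      real_inner_comm w u]
    simp; ring
  rw [e1, e2, e3]; ring

/-- In Kelly's situation the distance gets smaller. -/
lemma kelly_ineq (u w : W) (hD : 0 < ‖u‖ ^ 2 * ‖w‖ ^ 2 - ⟪u, w⟫_ℝ ^ 2) (sk sl : ℝ)
    (hkl : sk ≠ sl)
    (ho : (sk * ‖u‖ ^ 2 - ⟪u, w⟫_ℝ) * (sk * ‖u‖ ^ 2 - ⟪u, w⟫_ℝ)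
      ≤ (sl * ‖u‖ ^ 2 - ⟪u, w⟫_ℝ) * (sk * ‖u‖ ^ 2 - ⟪u, w⟫_ℝ)) :
    (‖sl • u - w‖ ^ 2 * ‖sk • u - w‖ ^ 2 - ⟪sl • u - w, sk • u - w⟫_ℝ ^ 2) / ‖sl • u - w‖ ^ 2
      < (‖u‖ ^ 2 * ‖w‖ ^ 2 - ⟪u, w⟫_ℝ ^ 2) / ‖u‖ ^ 2 := by
  have hu0 : 0 < ‖u‖ ^ 2 := by
    rcases (sq_nonneg ‖u‖).lt_or_eq with h | h
    · exact h
    · exfalso
      rw [← h] at hD
      nlinarith [sq_nonneg (⟪u, w⟫_ℝ)]
  set U := ‖u‖ ^ 2 with hU
  set X := ⟪u, w⟫_ℝ with hX
  set Y := ‖w‖ ^ 2 with hY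
  rw [area_line]
  have e1 : ‖sl • u - w‖ ^ 2 = sl ^ 2 * U - 2 * sl * X + Y := by
    rw [norm_sub_sq_real, norm_smul, mul_pow, inner_smul_left]
    simp [hU, hX, hY]; ring
  rw [e1]
  -- key: (sl - sk)^2 U < sl^2 U - 2 sl X + Y
  have hkey : (sl - sk) ^ 2 * U < sl ^ 2 * U - 2 * sl * X + Y := by
    have h1 : 0 ≤ (sl - sk) * (sk * U - X) * U := by nlinarith
    have h2 : 0 ≤ (sl - sk) * (sk * U - X) := by
      by_contra hneg
      push Not at hneg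
      nlinarith
    -- |z_p - z_k|^2 = sk^2 U - 2 sk X + Y > 0
    have h3 : 0 < sk ^ 2 * U - 2 * sk * X + Y := by
      have : U * (sk ^ 2 * U - 2 * sk * X + Y) = (sk * U - X) ^ 2 + (U * Y - X ^ 2) := by ring
      have h4 : 0 < U * (sk ^ 2 * U - 2 * sk * X + Y) := by
        rw [this]; nlinarith [sq_nonneg (sk * U - X)]
      exact (mul_pos_iff_of_pos_left hu0).mp h4
    nlinarith
  have hpos : 0 < sl ^ 2 * U - 2 * sl * X + Y := lt_of_le_of_lt (by positivity) hkey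
  rw [div_lt_div_iff₀ hpos hu0]
  have hne : 0 < (sl - sk) ^ 2 := by
    have : sl - sk ≠ 0 := sub_ne_zero.mpr (Ne.symm hkl)
    positivity
  nlinarith

/-- **Kelly's argument.** -/
theorem kelly (a : ι → W) (S : Finset ι) (R : ι → ι → Prop)
    (hind : ∀ i ∈ S, ∀ j ∈ S, i ≠ j → LinearIndependent ℝ ![a i, a j])
    (hR4 : ∀ i ∈ S, ∀ j ∈ S, i ≠ j → R i j →
      ∃ T : Finset ι, T ⊆ S ∧ 4 ≤ T.card ∧ ∀ k ∈ T, a k ∈ span ℝ {a i, a j})
    (hbad : ∀ p ∈ S, ∀ q ∈ S, ∀ q' ∈ S, p ≠ q → p ≠ q' → ¬ R p q → ¬ R p q' →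
      a q' ∈ span ℝ {a p, a q})
    (hex : ∃ i ∈ S, ∃ j ∈ S, i ≠ j ∧ R i j ∧ ∃ p ∈ S, a p ∉ span ℝ {a i, a j}) : False := by
  classical
  obtain ⟨i0, hi0, j0, hj0, hij0, hR0, p0, hp0, hp0'⟩ := hex
  have hne : ∀ m ∈ S, a m ≠ 0 := by
    intro m hm
    by_cases h : m = i0
    · have := hind m hm j0 hj0 (by rw [h]; exact hij0)
      exact this.ne_zero 0
    · have := hind m hm i0 hi0 h
      exact this.ne_zero 0
  obtain ⟨h, hh⟩ := Module.exists_dual_forall_apply_ne_zero (K := ℝ) (fun m : S => a m)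
    (fun m => hne m m.2)
  have hh' : ∀ m ∈ S, h (a m) ≠ 0 := fun m hm => hh ⟨m, hm⟩
  set z : ι → W := fun m => (h (a m))⁻¹ • a m with hz
  have hza : ∀ m ∈ S, a m = h (a m) • z m := by
    intro m hm
    simp only [hz]
    rw [smul_smul, mul_inv_cancel₀ (hh' m hm), one_smul]
  -- points on a line
  have hline : ∀ i ∈ S, ∀ j ∈ S, ∀ k ∈ S, a k ∈ span ℝ {a i, a j} →
      ∃ s : ℝ, z k = z i + s • (z j - z i) := by
    intro i hi j hj k hk hmem
    obtain ⟨α, β, hαβ⟩ := mem_span_pair.mp hmem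
    have h1 : h (a k) = α * h (a i) + β * h (a j) := by
      rw [← hαβ]; simp
    refine ⟨(h (a k))⁻¹ * (β * h (a j)), ?_⟩
    have h2 : a k = (α * h (a i)) • z i + (β * h (a j)) • z j := by
      rw [← hαβ, mul_smul, mul_smul, ← hza i hi, ← hza j hj]
    have h3 : z k = (h (a k))⁻¹ • ((α * h (a i)) • z i + (β * h (a j)) • z j) := by
      rw [← h2]
    have h4 : (h (a k))⁻¹ * (α * h (a i)) = 1 - (h (a k))⁻¹ * (β * h (a j)) := by
      have := hh' k hk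
      field_simp
      rw [h1]; ring
    rw [h3, smul_add, smul_smul, smul_smul, h4]
    module
  have hline' : ∀ i ∈ S, ∀ j ∈ S, ∀ k ∈ S, ∀ s : ℝ, z k = z i + s • (z j - z i) →
      a k ∈ span ℝ {a i, a j} := by
    intro i hi j hj k hk s hs
    rw [hza k hk, hs]
    refine mem_span_pair.mpr ⟨h (a k) * (1 - s) * (h (a i))⁻¹, h (a k) * s * (h (a j))⁻¹, ?_⟩
    simp only [hz]
    module
  have hzinj : ∀ i ∈ S, ∀ j ∈ S, i ≠ j → z i ≠ z j := by
    intro i hi j hj hij hzz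
    have hl := hind i hi j hj hij
    rw [LinearIndependent.pair_iff] at hl
    have := hl ((h (a i))⁻¹) (-(h (a j))⁻¹) (by
      have : (h (a i))⁻¹ • a i = (h (a j))⁻¹ • a j := hzz
      rw [this]; module)
    exact inv_ne_zero (hh' i hi) this.1
  -- the function to minimise
  set f : ι × ι × ι → ℝ := fun x =>
    (‖z x.2.2 - z x.2.1‖ ^ 2 * ‖z x.1 - z x.2.1‖ ^ 2 - ⟪z x.2.2 - z x.2.1, z x.1 - z x.2.1⟫_ℝ ^ 2)
      / ‖z x.2.2 - z x.2.1‖ ^ 2 with hf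
  set T3 : Finset (ι × ι × ι) := (S ×ˢ S ×ˢ S).filter
    (fun x => x.2.1 ≠ x.2.2 ∧ R x.2.1 x.2.2 ∧ a x.1 ∉ span ℝ {a x.2.1, a x.2.2}) with hT3
  have hT3ne : T3.Nonempty := by
    refine ⟨(p0, i0, j0), ?_⟩
    rw [hT3, Finset.mem_filter]
    exact ⟨by simp [hp0, hi0, hj0], hij0, hR0, hp0'⟩
  obtain ⟨⟨p, i, j⟩, hmem, hmin⟩ := Finset.exists_min_image T3 f hT3ne
  rw [hT3, Finset.mem_filter] at hmem
  obtain ⟨hS3, hij, hRij, hpnot⟩ := hmem
  simp only [Finset.mem_product] at hS3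
  obtain ⟨hp, hi, hj⟩ := hS3
  simp only at hij hRij hpnot hp hi hj
  obtain ⟨T, hTS, hT4, hTl⟩ := hR4 i hi j hj hij hRij
  have hs : ∀ k ∈ T, ∃ s : ℝ, z k = z i + s • (z j - z i) :=
    fun k hk => hline i hi j hj k (hTS hk) (hTl k hk)
  choose! s hs using hs
  set u := z j - z i with hu
  set w := z p - z i with hw
  have hu0 : u ≠ 0 := by
    rw [hu]; exact sub_ne_zero.mpr (Ne.symm (hzinj i hi j hj hij))
  have hupos : 0 < ‖u‖ ^ 2 := by
    have := norm_pos_iff.mpr hu0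
    positivity
  have hD : 0 < ‖u‖ ^ 2 * ‖w‖ ^ 2 - ⟪u, w⟫_ℝ ^ 2 := by
    by_contra hcon
    push Not at hcon
    have h1 : ‖(‖u‖ ^ 2) • w - ⟪u, w⟫_ℝ • u‖ ^ 2
        = ‖u‖ ^ 2 * (‖u‖ ^ 2 * ‖w‖ ^ 2 - ⟪u, w⟫_ℝ ^ 2) := by
      rw [norm_sub_sq_real, norm_smul, norm_smul, inner_smul_left, inner_smul_right,
        real_inner_comm u w]
      simp only [Real.norm_eq_abs, mul_pow, sq_abs, conj_trivial, norm_pow, abs_norm]
      ring
    have h2 : ‖(‖u‖ ^ 2) • w - ⟪u, w⟫_ℝ • u‖ ^ 2 = 0 := by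
      apply le_antisymm _ (sq_nonneg _)
      rw [h1]
      exact mul_nonpos_of_nonneg_of_nonpos hupos.le hcon
    have h3 : (‖u‖ ^ 2) • w = ⟪u, w⟫_ℝ • u := by
      rw [← sub_eq_zero, ← norm_eq_zero]
      exact pow_eq_zero_iff (two_ne_zero) |>.mp h2
    apply hpnot
    apply hline' i hi j hj p hp ((‖u‖ ^ 2)⁻¹ * ⟪u, w⟫_ℝ)
    have h4 : w = ((‖u‖ ^ 2)⁻¹ * ⟪u, w⟫_ℝ) • u := by
      rw [mul_smul, ← h3, smul_smul, inv_mul_cancel₀ hupos.ne', one_smul]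
    rw [← h4, hw]; abel
  have hTinj : Set.InjOn (fun k => s k * ‖u‖ ^ 2 - ⟪u, w⟫_ℝ) (T : Set ι) := by
    intro k hk l hl hkl
    simp only at hkl
    have h1 : s k = s l := by
      have : s k * ‖u‖ ^ 2 = s l * ‖u‖ ^ 2 := by linarith
      exact mul_right_cancel₀ hupos.ne' this
    by_contra hne'
    exact hzinj k (hTS hk) l (hTS hl) hne' (by rw [hs k hk, hs l hl, h1])
  obtain ⟨l, hl, l', hl', k, hk, k', hk', hll', hkl, hk'l', ho, ho'⟩ :=
    outer T hT4 (fun k => s k * ‖u‖ ^ 2 - ⟪u, w⟫_ℝ) hTinj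
  -- no two points of the line together with `p` are on a line
  have hnotline : ∀ k ∈ T, ∀ l ∈ T, k ≠ l → a k ∉ span ℝ {a p, a l} := by
    intro k hk l hl hkl hmem
    obtain ⟨α, β, hαβ⟩ := mem_span_pair.mp hmem
    by_cases hα : α = 0
    · rw [hα, zero_smul, zero_add] at hαβ
      have hlin := hind k (hTS hk) l (hTS hl) hkl
      rw [LinearIndependent.pair_iff] at hlin
      have := hlin 1 (-β) (by rw [← hαβ]; module)
      exact one_ne_zero this.1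
    · apply hpnot
      have h1 : a p = α⁻¹ • a k - (α⁻¹ * β) • a l := by
        rw [← hαβ, smul_add, smul_smul, smul_smul, inv_mul_cancel₀ hα, one_smul]; module
      rw [h1]
      exact sub_mem (smul_mem _ _ (hTl k hk)) (smul_mem _ _ (hTl l hl))
  have hpT : ∀ l ∈ T, p ≠ l := by
    intro l hl hpl
    apply hpnot
    rw [hpl]; exact hTl l hl
  -- contradiction from a rich line `p l`
  have hfinal : ∀ l ∈ T, ∀ k ∈ T, k ≠ l → R p l →
      (s k * ‖u‖ ^ 2 - ⟪u, w⟫_ℝ) * (s k * ‖u‖ ^ 2 - ⟪u, w⟫_ℝ)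
        ≤ (s l * ‖u‖ ^ 2 - ⟪u, w⟫_ℝ) * (s k * ‖u‖ ^ 2 - ⟪u, w⟫_ℝ) → False := by
    intro l hl k hk hkl hRpl ho
    have hmem' : (k, p, l) ∈ T3 := by
      rw [hT3, Finset.mem_filter]
      exact ⟨by simp [hp, hTS hk, hTS hl], hpT l hl, hRpl, hnotline k hk l hl hkl⟩
    have hmin' := hmin _ hmem'
    have hskl : s k ≠ s l := by
      intro heq
      apply hkl
      exact hTinj hk hl (by simp [heq])
    have h1 := kelly_ineq u w hD (s k) (s l) hskl ho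
    have e1 : z l - z p = s l • u - w := by rw [hs l hl, hw]; abel
    have e2 : z k - z p = s k • u - w := by rw [hs k hk, hw]; abel
    simp only [hf, e1, e2, ← hu, ← hw] at hmin'
    linarith
  by_cases hR1 : R p l
  · exact hfinal l hl k hk hkl hR1 ho
  · by_cases hR2 : R p l'
    · exact hfinal l' hl' k' hk' hk'l' hR2 ho'
    · have := hbad p hp l (hTS hl) l' (hTS hl') (hpT l hl) (hpT l' hl') hR1 hR2
      exact hnotline l' hl' l hl (Ne.symm hll') this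

end

/-- Kelly's argument in an arbitrary finite-dimensional real vector space. -/
theorem kelly' {ι W : Type*} [AddCommGroup W] [Module ℝ W] [FiniteDimensional ℝ W]
    (a : ι → W) (S : Finset ι) (R : ι → ι → Prop)
    (hind : ∀ i ∈ S, ∀ j ∈ S, i ≠ j → LinearIndependent ℝ ![a i, a j])
    (hR4 : ∀ i ∈ S, ∀ j ∈ S, i ≠ j → R i j →
      ∃ T : Finset ι, T ⊆ S ∧ 4 ≤ T.card ∧ ∀ k ∈ T, a k ∈ span ℝ {a i, a j})
    (hbad : ∀ p ∈ S, ∀ q ∈ S, ∀ q' ∈ S, p ≠ q → p ≠ q' → ¬ R p q → ¬ R p q' →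
      a q' ∈ span ℝ {a p, a q})
    (hex : ∃ i ∈ S, ∃ j ∈ S, i ≠ j ∧ R i j ∧ ∃ p ∈ S, a p ∉ span ℝ {a i, a j}) : False := by
  have e : W ≃ₗ[ℝ] EuclideanSpace ℝ (Fin (Module.finrank ℝ W)) :=
    LinearEquiv.ofFinrankEq _ _ (by simp)
  have hmem : ∀ x y z : W, e x ∈ span ℝ {e y, e z} ↔ x ∈ span ℝ {y, z} := by
    intro x y z
    rw [mem_span_pair, mem_span_pair]
    constructor
    · rintro ⟨c, d, h⟩
      refine ⟨c, d, e.injective ?_⟩
      rw [map_add, map_smul, map_smul, h]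
    · rintro ⟨c, d, h⟩
      refine ⟨c, d, ?_⟩
      rw [← h, map_add, map_smul, map_smul]
  refine kelly (fun i => e (a i)) S R ?_ ?_ ?_ ?_
  · intro i hi j hj hij
    have := hind i hi j hj hij
    rw [LinearIndependent.pair_iff] at this ⊢
    intro s t hst
    apply this s t
    apply e.injective
    rw [map_add, map_smul, map_smul, hst, map_zero]
  · intro i hi j hj hij hR
    obtain ⟨T, h1, h2, h3⟩ := hR4 i hi j hj hij hR
    exact ⟨T, h1, h2, fun k hk => (hmem _ _ _).mpr (h3 k hk)⟩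
  · intro p hp q hq q' hq' h1 h2 h3 h4
    exact (hmem _ _ _).mpr (hbad p hp q hq q' hq' h1 h2 h3 h4)
  · obtain ⟨i, hi, j, hj, hij, hR, p, hp, hp'⟩ := hex
    exact ⟨i, hi, j, hj, hij, hR, p, hp, fun h => hp' ((hmem _ _ _).mp h)⟩

end Pool.Agent.MP_de770b_mp
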