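import Mathlib
import Pool.Agent.MP_de770b_mp.Kelly

set_option linter.unusedSectionVars false

/-!
The algebraic core: the linearised equations of a vee-system have only the trivial solution.
-/

namespace Pool.Agent.MP_de770b_mp

open Submodule Matrix

section Flats

variable {ι : Type*} [Fintype ι] {W : Type*} [AddCommGroup W] [Module ℝ W]

open Classical in
/-- the rank two flat spanned by `x i` and `x j` -/
noncomputable def fl (x : ι → W) (i j : ι) : Finset ι :=
  Finset.univ.filter (fun k => x k ∈ span ℝ {x i, x j})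

lemma mem_fl {x : ι → W} {i j k : ι} : k ∈ fl x i j ↔ x k ∈ span ℝ {x i, x j} := by
  simp [fl]

attribute [irreducible] fl

lemma left_mem_fl (x : ι → W) (i j : ι) : i ∈ fl x i j :=
  mem_fl.mpr (subset_span (by simp))

lemma right_mem_fl (x : ι → W) (i j : ι) : j ∈ fl x i j :=
  mem_fl.mpr (subset_span (by simp))

lemma fl_comm (x : ι → W) (i j : ι) : fl x i j = fl x j i := by
  ext k; rw [mem_fl, mem_fl, Set.pair_comm]

lemma span_pair_eq {a b c d : W} (hab : LinearIndependent ℝ ![a, b])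
    (ha : a ∈ span ℝ {c, d}) (hb : b ∈ span ℝ {c, d}) : span ℝ {a, b} = span ℝ {c, d} := by
  have hle : span ℝ {a, b} ≤ span ℝ {c, d} := by
    rw [span_le]
    rintro y (rfl | rfl)
    · exact ha
    · exact hb
  have hfin : FiniteDimensional ℝ (span ℝ ({c, d} : Set W)) :=
    FiniteDimensional.span_of_finite ℝ (Set.toFinite _)
  apply Submodule.eq_of_le_of_finrank_le hle
  have h1 : Module.finrank ℝ (span ℝ ({a, b} : Set W)) = 2 := by
    have := finrank_span_eq_card hab
    rw [Matrix.range_cons, Matrix.range_cons, Matrix.range_empty, Set.union_empty,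
      Set.singleton_union] at this
    simpa using this
  have h2 : Module.finrank ℝ (span ℝ ({c, d} : Set W)) ≤ 2 := by
    classical
    have h3 := finrank_span_le_card (R := ℝ) ({c, d} : Set W)
    refine h3.trans ?_
    rw [Set.toFinset_card]
    exact (Fintype.card_le_of_embedding ⟨fun y : ({c, d} : Set W) => if (y : W) = c then (0 : Fin 2) else 1, by
      rintro ⟨y, hy⟩ ⟨y', hy'⟩ h
      simp only [Set.mem_insert_iff, Set.mem_singleton_iff] at hy hy'
      simp only at h
      apply Subtype.ext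
      by_cases e1 : y = c <;> by_cases e2 : y' = c
      · simp [e1, e2]
      · simp [e1, e2] at h
      · simp [e1, e2] at h
      · rcases hy with hy | hy
        · exact absurd hy e1
        · rcases hy' with hy' | hy'
          · exact absurd hy' e2
          · simp [hy, hy']⟩).trans (by simp)
  omega

variable {x : ι → W}

lemma fl_eq (hli : ∀ i j, i ≠ j → LinearIndependent ℝ ![x i, x j]) {i j k l : ι}
    (hk : k ∈ fl x i j) (hl : l ∈ fl x i j) (hkl : k ≠ l) : fl x k l = fl x i j := by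
  have := span_pair_eq (hli k l hkl) (mem_fl.mp hk) (mem_fl.mp hl)
  ext m
  rw [mem_fl, mem_fl, this]

end Flats

section Block

variable {n : Type*} [Fintype n] [DecidableEq n]

omit [DecidableEq n] in
lemma trace_mul_transpose_nonneg (S : Matrix n n ℝ) :
    0 ≤ trace (S * Sᵀ) ∧ (trace (S * Sᵀ) = 0 → S = 0) := by
  have h : trace (S * Sᵀ) = ∑ i, ∑ j, S i j ^ 2 := by
    simp only [trace, diag, mul_apply, transpose_apply]
    exact Finset.sum_congr rfl fun i _ => Finset.sum_congr rfl fun j _ => by ring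
  refine ⟨?_, ?_⟩
  · rw [h]; positivity
  · intro h0
    rw [h] at h0
    ext i j
    have h1 := (Finset.sum_eq_zero_iff_of_nonneg (fun i _ => by positivity)).mp h0 i
      (Finset.mem_univ _)
    have h2 := (Finset.sum_eq_zero_iff_of_nonneg (fun j _ => by positivity)).mp h1 j
      (Finset.mem_univ _)
    simpa using h2

omit [DecidableEq n] in
/-- the computation in one plane -/
lemma block (Kv Cv : Matrix n n ℝ) (ν : ℝ) (hν : ν ≠ 0) (hKs : Kvᵀ = Kv)
    (hK2 : Kv * Kv = ν • Kv) (hKC : Kv * Cv = ν • Cv)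
    (hH : (Cv + Cvᵀ) * Kv + Kv * (Cv + Cvᵀ) = ν • (Cv + Cvᵀ)) :
    trace (Cv * Cv) ≤ 0 ∧ (trace (Cv * Cv) = 0 → Cv * Kv = 0) := by
  set S := Cv * Kv with hS
  have hST : Sᵀ = Kv * Cvᵀ := by rw [hS, transpose_mul, hKs]
  have h0 : Kv * (Cv + Cvᵀ) * Kv = 0 := by
    have h1 : Kv * ((Cv + Cvᵀ) * Kv + Kv * (Cv + Cvᵀ)) = Kv * (ν • (Cv + Cvᵀ)) := by rw [hH]
    rw [mul_add, ← mul_assoc Kv Kv, hK2, smul_mul_assoc, mul_smul_comm] at h1
    have h2 := add_eq_right.mp h1
    rw [← mul_assoc] at h2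
    exact h2
  have h3 : Kv * Cv * Kv = ν • S := by rw [hKC, smul_mul_assoc]
  have h4 : Kv * Cvᵀ * Kv = ν • Sᵀ := by
    have : Kv * Cvᵀ * Kv = (Kv * Cv * Kv)ᵀ := by
      rw [transpose_mul, transpose_mul, hKs, mul_assoc]
    rw [this, h3, transpose_smul]
  have h5 : S + Sᵀ = 0 := by
    have : ν • (S + Sᵀ) = 0 := by
      rw [smul_add, ← h3, ← h4, ← h0, mul_add, add_mul]
    exact (smul_eq_zero.mp this).resolve_left hν
  have h6 : Sᵀ = -S := by
    rw [add_comm] at h5
    exact eq_neg_of_add_eq_zero_left h5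
  have h7 : trace (S * S) = ν ^ 2 * trace (Cv * Cv) := by
    have e1 : S * S = ν • (Cv * Cv * Kv) := by
      rw [hS, mul_assoc Cv Kv, ← mul_assoc Kv Cv, hKC, smul_mul_assoc, mul_smul_comm, mul_assoc]
    rw [e1, trace_smul, trace_mul_comm, ← mul_assoc, hKC, smul_mul_assoc, trace_smul]
    simp only [smul_eq_mul]
    ring
  have h8 : trace (S * Sᵀ) = - (ν ^ 2 * trace (Cv * Cv)) := by
    rw [h6, mul_neg, trace_neg, h7]
  have hν2 : 0 < ν ^ 2 := by positivity
  obtain ⟨hn, hz⟩ := trace_mul_transpose_nonneg S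
  refine ⟨?_, ?_⟩
  · rw [h8] at hn
    by_contra hcon
    push Not at hcon
    have := mul_pos hν2 hcon
    linarith
  · intro ht
    apply hz
    rw [h8, ht]; simp

end Block

section Core

variable {ι : Type*} [Fintype ι] [DecidableEq ι] {W : Type*} [AddCommGroup W] [Module ℝ W]

/-- The data extracted from a vee-system: `K` is the Gram matrix of the covectors `x i`. -/
structure Sys (x : ι → W) (K : Matrix ι ι ℝ) (nu : Finset ι → ℝ) : Prop where
  li : ∀ i j, i ≠ j → LinearIndependent ℝ ![x i, x j]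
  sym : Kᵀ = K
  idem : K * K = K
  lin : ∃ T : W →ₗ[ℝ] (ι → ℝ), ∀ i, T (x i) = K i
  pos : ∀ i, 0 < K i i
  det : ∀ i j, i ≠ j → K i j ^ 2 < K i i * K j j
  nuF : ∀ i j, i ≠ j → 3 ≤ (fl x i j).card → ∀ k ∈ fl x i j, ∀ m,
    ∑ l ∈ fl x i j, K k l * K l m = nu (fl x i j) * K k m
  two : ∀ i j, i ≠ j → (fl x i j).card < 3 → K i j = 0
  many : ∀ i, ∃ j k, i ≠ j ∧ i ≠ k ∧ 3 ≤ (fl x i j).card ∧ 3 ≤ (fl x i k).card ∧ k ∉ fl x i j

namespace Sys

variable {x : ι → W} {K : Matrix ι ι ℝ} {nu : Finset ι → ℝ}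

lemma sym' (h : Sys x K nu) (i j : ι) : K i j = K j i := by
  have := congrFun (congrFun h.sym i) j
  rw [transpose_apply] at this
  exact this.symm

lemma nu_pos (h : Sys x K nu) {i j : ι} (hij : i ≠ j) (h3 : 3 ≤ (fl x i j).card) :
    0 < nu (fl x i j) := by
  have h1 := h.nuF i j hij h3 i (left_mem_fl x i j) i
  have h2 : K i i * K i i ≤ ∑ l ∈ fl x i j, K i l * K l i := by
    apply Finset.single_le_sum (f := fun l => K i l * K l i) _ (left_mem_fl x i j)
    intro l _
    calc (0 : ℝ) ≤ K i l * K i l := mul_self_nonneg _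
      _ = K i l * K l i := by rw [h.sym' l i]
  have h3 := h.pos i
  have h4 : 0 < nu (fl x i j) * K i i := by
    rw [← h1]
    exact lt_of_lt_of_le (mul_pos h3 h3) h2
  exact (pos_iff_pos_of_mul_pos h4).mpr h3

/-- a tangent vector to the set of solutions -/
structure Tangent (x : ι → W) (K : Matrix ι ι ℝ) (nu : Finset ι → ℝ) (H : Matrix ι ι ℝ) :
    Prop where
  sym : Hᵀ = H
  idem : K * H + H * K = H
  diag : ∀ i, H i i = 0
  two : ∀ i j, i ≠ j → (fl x i j).card < 3 → H i j = 0
  nuF : ∀ i j, i ≠ j → 3 ≤ (fl x i j).card → ∀ k ∈ fl x i j, ∀ m ∈ fl x i j,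
    ∑ l ∈ fl x i j, (H k l * K l m + K k l * H l m) = nu (fl x i j) * H k m

variable {H : Matrix ι ι ℝ}

lemma KHK (h : Sys x K nu) (hT : Tangent x K nu H) : K * H * K = 0 := by
  have h1 : K * (K * H + H * K) * K = K * H * K := by rw [hT.idem]
  rw [mul_add, add_mul, ← mul_assoc K K, h.idem, ← mul_assoc, mul_assoc (K * H) K K, h.idem] at h1
  exact add_eq_right.mp h1

lemma H_eq (h : Sys x K nu) (hT : Tangent x K nu H) : H = K * H + (K * H)ᵀ := by
  rw [transpose_mul, h.sym, hT.sym, hT.idem]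

lemma H_apply (h : Sys x K nu) (hT : Tangent x K nu H) (i j : ι) :
    H i j = (K * H) i j + (K * H) j i := by
  have := congrFun (congrFun (h.H_eq hT) i) j
  rw [Matrix.add_apply, transpose_apply] at this
  exact this

lemma C_diag (h : Sys x K nu) (hT : Tangent x K nu H) (i : ι) : (K * H) i i = 0 := by
  have h1 := h.H_apply hT i i
  rw [hT.diag i] at h1
  linarith

lemma sum_C_zero (h : Sys x K nu) (hT : Tangent x K nu H) :
    ∑ i, ∑ j, (K * H) i j * (K * H) j i = 0 := by
  have h1 : (K * H) * (K * H) = 0 := by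
    rw [← mul_assoc, h.KHK hT, zero_mul]
  have h2 := congrArg trace h1
  rw [Matrix.trace_zero] at h2
  simpa only [trace, diag, mul_apply] using h2

lemma KC (h : Sys x K nu) {i j : ι} (hij : i ≠ j) (h3 : 3 ≤ (fl x i j).card)
    {k : ι} (hk : k ∈ fl x i j) (m : ι) :
    ∑ l ∈ fl x i j, K k l * (K * H) l m = nu (fl x i j) * (K * H) k m := by
  simp only [mul_apply, Finset.mul_sum]
  rw [Finset.sum_comm]
  apply Finset.sum_congr rfl
  intro p _
  have := h.nuF i j hij h3 k hk p
  calc ∑ l ∈ fl x i j, K k l * (K l p * H p m)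
      = (∑ l ∈ fl x i j, K k l * K l p) * H p m := by
        rw [Finset.sum_mul]; exact Finset.sum_congr rfl fun l _ => by ring
    _ = nu (fl x i j) * (K k p * H p m) := by rw [this]; ring

/-- one plane with at least three covectors -/
lemma plane3 (h : Sys x K nu) (hT : Tangent x K nu H) {i j : ι} (hij : i ≠ j)
    (h3 : 3 ≤ (fl x i j).card) :
    ∑ k ∈ fl x i j, ∑ l ∈ fl x i j, (K * H) k l * (K * H) l k ≤ 0 ∧
    (∑ k ∈ fl x i j, ∑ l ∈ fl x i j, (K * H) k l * (K * H) l k = 0 →
      ∀ k ∈ fl x i j, ∀ m ∈ fl x i j, ∑ l ∈ fl x i j, (K * H) k l * K l m = 0) := by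
  set v := fl x i j with hv
  set C := K * H with hC
  set Kv : Matrix v v ℝ := K.submatrix (fun a => (a : ι)) (fun a => (a : ι)) with hKv
  set Cv : Matrix v v ℝ := C.submatrix (fun a => (a : ι)) (fun a => (a : ι)) with hCv
  have hsum : ∀ f : ι → ℝ, ∑ l : v, f l = ∑ l ∈ v, f l := fun f => Finset.sum_coe_sort v f
  have hKs : Kvᵀ = Kv := by
    ext a b
    simp only [hKv, transpose_apply, submatrix_apply]
    exact h.sym' _ _
  have hK2 : Kv * Kv = nu v • Kv := by
    ext a b
    rw [mul_apply, Matrix.smul_apply, smul_eq_mul]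
    simp only [hKv, submatrix_apply]
    rw [hsum (fun l => K a l * K l b)]
    exact h.nuF i j hij h3 a a.2 b
  have hKC : Kv * Cv = nu v • Cv := by
    ext a b
    rw [mul_apply, Matrix.smul_apply, smul_eq_mul]
    simp only [hKv, hCv, submatrix_apply]
    rw [hsum (fun l => K a l * C l b)]
    exact h.KC hij h3 a.2 b
  have hHv : Cv + Cvᵀ = H.submatrix (fun a : v => (a : ι)) (fun a : v => (a : ι)) := by
    ext a b
    rw [Matrix.add_apply, transpose_apply]
    simp only [hCv, submatrix_apply]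
    exact (h.H_apply hT a b).symm
  have hH : (Cv + Cvᵀ) * Kv + Kv * (Cv + Cvᵀ) = nu v • (Cv + Cvᵀ) := by
    rw [hHv]
    ext a b
    rw [Matrix.add_apply, mul_apply, mul_apply, Matrix.smul_apply, smul_eq_mul]
    simp only [hKv, submatrix_apply]
    rw [hsum (fun l => H a l * K l b), hsum (fun l => K a l * H l b), ← Finset.sum_add_distrib]
    exact hT.nuF i j hij h3 a a.2 b b.2
  obtain ⟨h1, h2⟩ := block Kv Cv (nu v) (h.nu_pos hij h3).ne' hKs hK2 hKC hH
  have htr : trace (Cv * Cv) = ∑ k ∈ v, ∑ l ∈ v, C k l * C l k := by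
    simp only [trace, diag, mul_apply]
    rw [← hsum (fun k => ∑ l ∈ v, C k l * C l k)]
    apply Finset.sum_congr rfl
    intro k _
    rw [← hsum (fun l => C k l * C l k)]
    rfl
  rw [htr] at h1 h2
  refine ⟨h1, fun h0 k hk m hm => ?_⟩
  have h4 := congrFun (congrFun (h2 h0) ⟨k, hk⟩) ⟨m, hm⟩
  rw [mul_apply] at h4
  rw [← hsum (fun l => C k l * K l m)]
  exact h4

/-- the offdiagonal product -/
def g (K H : Matrix ι ι ℝ) (p : ι × ι) : ℝ := (K * H) p.1 p.2 * (K * H) p.2 p.1

lemma sum_offDiag (h : Sys x K nu) (hT : Tangent x K nu H) (v : Finset ι) :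
    ∑ p ∈ v.offDiag, g K H p = ∑ k ∈ v, ∑ l ∈ v, (K * H) k l * (K * H) l k := by
  rw [← Finset.sum_product' v v (fun k l => (K * H) k l * (K * H) l k)]
  apply Finset.sum_subset
  · intro p hp
    rw [Finset.mem_offDiag] at hp
    exact Finset.mem_product.mpr ⟨hp.1, hp.2.1⟩
  · intro p hp hp'
    rw [Finset.mem_offDiag] at hp'
    rw [Finset.mem_product] at hp
    have : p.1 = p.2 := by
      by_contra hne
      exact hp' ⟨hp.1, hp.2, hne⟩
    simp only [g]
    rw [← this, h.C_diag hT, mul_zero]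

lemma sum_flats (h : Sys x K nu) (hT : Tangent x K nu H) :
    ∑ v ∈ (Finset.univ : Finset ι).offDiag.image (fun p => fl x p.1 p.2),
      ∑ p ∈ v.offDiag, g K H p = 0 := by
  have h0 := h.sum_C_zero hT
  rw [← h.sum_offDiag hT] at h0
  rw [← h0, ← Finset.sum_fiberwise_of_maps_to (s := (Finset.univ : Finset ι).offDiag)
    (t := (Finset.univ : Finset ι).offDiag.image (fun p => fl x p.1 p.2))
    (g := fun p => fl x p.1 p.2) (fun p hp => Finset.mem_image.mpr ⟨p, hp, rfl⟩)]
  apply Finset.sum_congr rfl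
  intro v hv
  obtain ⟨⟨i, j⟩, hp, rfl⟩ := Finset.mem_image.mp hv
  apply Finset.sum_congr _ (fun _ _ => rfl)
  ext ⟨k, l⟩
  simp only [Finset.mem_offDiag, Finset.mem_filter, Finset.mem_univ, true_and]
  constructor
  · rintro ⟨hk, hl, hkl⟩
    exact ⟨hkl, fl_eq h.li hk hl hkl⟩
  · rintro ⟨hkl, he⟩
    refine ⟨?_, ?_, hkl⟩
    · rw [← he]; exact left_mem_fl x k l
    · rw [← he]; exact right_mem_fl x k l

lemma g_two (h : Sys x K nu) (hT : Tangent x K nu H) {i j : ι} (hij : i ≠ j)
    (h2 : (fl x i j).card < 3) {p : ι × ι} (hp : p ∈ (fl x i j).offDiag) :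
    g K H p = - ((K * H) p.1 p.2) ^ 2 := by
  rw [Finset.mem_offDiag] at hp
  have he := fl_eq h.li hp.1 hp.2.1 hp.2.2
  have h1 := hT.two p.1 p.2 hp.2.2 (by rw [he]; exact h2)
  rw [h.H_apply hT] at h1
  have h3 : (K * H) p.2 p.1 = - (K * H) p.1 p.2 := by linarith
  simp only [g]
  rw [h3]; ring

lemma flat_nonpos (h : Sys x K nu) (hT : Tangent x K nu H) {i j : ι} (hij : i ≠ j) :
    ∑ p ∈ (fl x i j).offDiag, g K H p ≤ 0 := by
  by_cases h3 : 3 ≤ (fl x i j).card
  · rw [h.sum_offDiag hT]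
    exact (h.plane3 hT hij h3).1
  · push Not at h3
    apply Finset.sum_nonpos
    intro p hp
    rw [h.g_two hT hij h3 hp]
    have := sq_nonneg ((K * H) p.1 p.2)
    linarith

lemma flat_zero (h : Sys x K nu) (hT : Tangent x K nu H) {i j : ι} (hij : i ≠ j) :
    ∑ p ∈ (fl x i j).offDiag, g K H p = 0 := by
  have h1 := (Finset.sum_eq_zero_iff_of_nonpos (s := (Finset.univ : Finset ι).offDiag.image
    (fun p => fl x p.1 p.2)) (f := fun v => ∑ p ∈ v.offDiag, g K H p) (by
      intro v hv
      obtain ⟨⟨k, l⟩, hp, rfl⟩ := Finset.mem_image.mp hv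
      exact h.flat_nonpos hT (Finset.mem_offDiag.mp hp).2.2)).mp (h.sum_flats hT)
  have hmem : (i, j) ∈ (Finset.univ : Finset ι).offDiag := by
    rw [Finset.mem_offDiag]
    exact ⟨Finset.mem_univ _, Finset.mem_univ _, hij⟩
  exact h1 (fl x i j) (Finset.mem_image.mpr ⟨(i, j), hmem, rfl⟩)

/-- First conclusion. -/
lemma R1 (h : Sys x K nu) (hT : Tangent x K nu H) {i j : ι} (hij : i ≠ j)
    (h3 : 3 ≤ (fl x i j).card) {k m : ι} (hk : k ∈ fl x i j) (hm : m ∈ fl x i j) :
    ∑ l ∈ fl x i j, (K * H) k l * K l m = 0 := by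
  have h1 := h.flat_zero hT hij
  rw [h.sum_offDiag hT] at h1
  exact (h.plane3 hT hij h3).2 h1 k hk m hm

/-- Second conclusion. -/
lemma R2 (h : Sys x K nu) (hT : Tangent x K nu H) {i j : ι} (hij : i ≠ j)
    (h3 : (fl x i j).card < 3) : (K * H) i j = 0 := by
  have h1 := h.flat_zero hT hij
  have h2 := (Finset.sum_eq_zero_iff_of_nonpos (s := (fl x i j).offDiag) (f := g K H) (by
    intro p hp
    rw [h.g_two hT hij h3 hp]
    have := sq_nonneg ((K * H) p.1 p.2)
    linarith)).mp h1 (i, j) (by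
      rw [Finset.mem_offDiag]
      exact ⟨left_mem_fl x i j, right_mem_fl x i j, hij⟩)
  rw [h.g_two hT hij h3 (by
      rw [Finset.mem_offDiag]
      exact ⟨left_mem_fl x i j, right_mem_fl x i j, hij⟩)] at h2
  simpa using h2

/-- rows are linear in the covectors -/
lemma rowC (h : Sys x K nu) (m : ι) : ∃ T : W →ₗ[ℝ] ℝ, ∀ i, T (x i) = (K * H) i m := by
  obtain ⟨T, hT⟩ := h.lin
  refine ⟨∑ l, (H l m) • ((LinearMap.proj l : (ι → ℝ) →ₗ[ℝ] ℝ) ∘ₗ T), fun i => ?_⟩
  rw [mul_apply]
  simp only [LinearMap.sum_apply, LinearMap.smul_apply, LinearMap.comp_apply, hT,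
    LinearMap.proj_apply, smul_eq_mul]
  exact Finset.sum_congr rfl fun l _ => by ring

lemma rowK (h : Sys x K nu) (m : ι) : ∃ T : W →ₗ[ℝ] ℝ, ∀ i, T (x i) = K i m := by
  obtain ⟨T, hT⟩ := h.lin
  exact ⟨(LinearMap.proj m : (ι → ℝ) →ₗ[ℝ] ℝ) ∘ₗ T, fun i => by simp [hT]⟩

/-- `i` is active in the flat through `i` and `l` as soon as one entry is nonzero -/
lemma active_all (h : Sys x K nu) (hT : Tangent x K nu H) {i l l' : ι}
    (hC : (K * H) l i ≠ 0) (hl' : l' ∈ fl x i l) (hil' : l' ≠ i) : (K * H) l' i ≠ 0 := by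
  have hil : i ≠ l := by
    rintro rfl
    exact hC (h.C_diag hT i)
  intro h0
  apply hC
  obtain ⟨T, hT'⟩ := h.rowC (H := H) i
  have hmem : l ∈ fl x i l' := by
    rw [fl_eq h.li (left_mem_fl x i l) hl' (Ne.symm hil')]
    exact right_mem_fl x i l
  obtain ⟨α, β, hαβ⟩ := mem_span_pair.mp (mem_fl.mp hmem)
  rw [← hT' l, ← hαβ, map_add, map_smul, map_smul, hT' i, hT' l', h0, h.C_diag hT]
  simp

/-- the support of an active flat is large -/
lemma support (h : Sys x K nu) (hT : Tangent x K nu H) {i j : ι} (hC : (K * H) j i ≠ 0)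
    {a b : ι} (ha : a ∈ fl x i j) (hb : b ∈ fl x i j) (hai : a ≠ i) (hbi : b ≠ i) (hab : a ≠ b) :
    ∃ l ∈ fl x i j, l ≠ i ∧ l ≠ a ∧ l ≠ b ∧ ∃ k ∈ fl x i j, (K * H) k l ≠ 0 := by
  have hij : i ≠ j := by
    rintro rfl
    exact hC (h.C_diag hT i)
  have h3 : 3 ≤ (fl x i j).card := by
    by_contra hcon
    push Not at hcon
    have := h.R2 hT (Ne.symm hij) (by rw [fl_comm]; exact hcon)
    exact hC this
  by_contra hcon
  push Not at hcon
  -- the identity with k = b
  have hid : ∀ m ∈ fl x i j, (K * H) b i * K i m + (K * H) b a * K a m = 0 := by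
    intro m hm
    have h1 := h.R1 hT hij h3 hb hm
    have h2 : ∑ l ∈ fl x i j, (K * H) b l * K l m
        = ∑ l ∈ ({i, a} : Finset ι), (K * H) b l * K l m := by
      symm
      apply Finset.sum_subset
      · intro l hl
        simp only [Finset.mem_insert, Finset.mem_singleton] at hl
        rcases hl with rfl | rfl
        · exact left_mem_fl x l j
        · exact ha
      · intro l hl hl'
        simp only [Finset.mem_insert, Finset.mem_singleton, not_or] at hl'
        by_cases hlb : l = b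
        · rw [hlb, h.C_diag hT, zero_mul]
        · rw [hcon l hl hl'.1 hl'.2 hlb b hb, zero_mul]
    rw [h2, Finset.sum_pair (Ne.symm hai)] at h1
    exact h1
  have e1 := hid i (left_mem_fl x i j)
  have e2 := hid a ha
  have hdet := h.det i a (Ne.symm hai)
  have hb0 : (K * H) b i ≠ 0 := h.active_all hT hC hb hbi
  apply hb0
  have h4 : (K * H) b i * (K i i * K a a - K i a ^ 2) = 0 := by
    have hs := h.sym' a i
    rw [hs] at e1
    have : (K * H) b i * (K i i * K a a - K i a ^ 2)
        = ((K * H) b i * K i i + (K * H) b a * K i a) * K a a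
          - ((K * H) b i * K i a + (K * H) b a * K a a) * K i a := by ring
    rw [this, e1, e2]; ring
  rcases mul_eq_zero.mp h4 with h5 | h5
  · exact h5
  · exfalso; linarith

open Classical in
/-- active elements of a set -/
noncomputable def act (K H : Matrix ι ι ℝ) (v : Finset ι) : Finset ι :=
  v.filter (fun l => ∃ k ∈ v, (K * H) k l ≠ 0)

lemma mem_act {v : Finset ι} {l : ι} :
    l ∈ act K H v ↔ l ∈ v ∧ ∃ k ∈ v, (K * H) k l ≠ 0 := by
  simp [act]

/-- an active flat has at least four active members -/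
lemma four (h : Sys x K nu) (hT : Tangent x K nu H) {i j : ι} (hC : (K * H) j i ≠ 0) :
    4 ≤ (act K H (fl x i j)).card := by
  classical
  have hij : i ≠ j := by
    rintro rfl
    exact hC (h.C_diag hT i)
  have h3 : 3 ≤ (fl x i j).card := by
    by_contra hcon
    push Not at hcon
    have := h.R2 hT (Ne.symm hij) (by rw [fl_comm]; exact hcon)
    exact hC this
  by_contra hcon
  push Not at hcon
  have hiact : i ∈ act K H (fl x i j) :=
    mem_act.mpr ⟨left_mem_fl x i j, j, right_mem_fl x i j, hC⟩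
  have hsub : (act K H (fl x i j)).erase i ⊆ (fl x i j).erase i :=
    Finset.erase_subset_erase _ (Finset.filter_subset _ _)
  have hc1 : ((act K H (fl x i j)).erase i).card ≤ 2 := by
    rw [Finset.card_erase_of_mem hiact]; omega
  have hc2 : 2 ≤ ((fl x i j).erase i).card := by
    rw [Finset.card_erase_of_mem (left_mem_fl x i j)]; omega
  obtain ⟨T, hT1, hT2, hT3⟩ := Finset.exists_subsuperset_card_eq hsub hc1 hc2
  obtain ⟨a, b, hab, rfl⟩ := Finset.card_eq_two.mp hT3
  have ha := Finset.mem_erase.mp (hT2 (Finset.mem_insert_self a {b}))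
  have hb := Finset.mem_erase.mp (hT2 (Finset.mem_insert_of_mem (Finset.mem_singleton_self b)))
  obtain ⟨l, hl, hli, hla, hlb, hk⟩ := h.support hT hC ha.2 hb.2 ha.1 hb.1 hab
  have : l ∈ ({a, b} : Finset ι) := hT1 (Finset.mem_erase.mpr ⟨hli, mem_act.mpr ⟨hl, hk⟩⟩)
  simp only [Finset.mem_insert, Finset.mem_singleton] at this
  rcases this with h | h
  · exact hla h
  · exact hlb h

lemma exists_third {v : Finset ι} (h3 : 3 ≤ v.card) (a b : ι) : ∃ c ∈ v, c ≠ a ∧ c ≠ b := by
  by_contra hcon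
  push Not at hcon
  have hsub : v ⊆ {a, b} := by
    intro c hc
    simp only [Finset.mem_insert, Finset.mem_singleton]
    by_cases h : c = a
    · exact Or.inl h
    · exact Or.inr (hcon c hc h)
  have := (Finset.card_le_card hsub).trans Finset.card_le_two
  omega

lemma span_triple_le {a b c : W} {a' b' c' : W} (hab : LinearIndependent ℝ ![a, b])
    (hc : c ∉ span ℝ {a, b}) (ha' : a ∈ span ℝ {a', b', c'}) (hb' : b ∈ span ℝ {a', b', c'})
    (hc' : c ∈ span ℝ {a', b', c'}) : span ℝ {a', b', c'} = span ℝ {c, a, b} := by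
  classical
  symm
  have hle : span ℝ {c, a, b} ≤ span ℝ {a', b', c'} := by
    rw [span_le]
    rintro y (rfl | rfl | rfl)
    · exact hc'
    · exact ha'
    · exact hb'
  have hfin : FiniteDimensional ℝ (span ℝ ({a', b', c'} : Set W)) :=
    FiniteDimensional.span_of_finite ℝ (Set.toFinite _)
  apply Submodule.eq_of_le_of_finrank_le hle
  have hli : LinearIndependent ℝ ![c, a, b] := by
    have := (linearIndependent_fin_cons (K := ℝ) (x := c) (v := ![a, b])).mpr ⟨hab, by
      rw [Matrix.range_cons, Matrix.range_cons, Matrix.range_empty, Set.union_empty,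
        Set.singleton_union]
      exact hc⟩
    exact this
  have h1 : Module.finrank ℝ (span ℝ ({c, a, b} : Set W)) = 3 := by
    have := finrank_span_eq_card hli
    rw [Matrix.range_cons, Matrix.range_cons, Matrix.range_cons, Matrix.range_empty,
      Set.union_empty, Set.singleton_union, Set.singleton_union] at this
    simpa using this
  have h2 : Module.finrank ℝ (span ℝ ({a', b', c'} : Set W)) ≤ 3 := by
    have h3 := finrank_span_finset_le_card (R := ℝ) ({a', b', c'} : Finset W)
    have h4 : ((({a', b', c'} : Finset W) : Set W)) = {a', b', c'} := by simp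
    rw [Set.finrank, h4] at h3
    exact h3.trans Finset.card_le_three
  omega

open Classical in
/-- the members of the rank three flat -/
noncomputable def fl3 (x : ι → W) (i j q : ι) : Finset ι :=
  Finset.univ.filter (fun k => x k ∈ span ℝ {x i, x j, x q})

lemma mem_fl3 {i j q k : ι} : k ∈ fl3 x i j q ↔ x k ∈ span ℝ {x i, x j, x q} := by
  simp [fl3]

lemma fl_subset_fl3 {i j q a b : ι} (ha : a ∈ fl3 x i j q) (hb : b ∈ fl3 x i j q) :
    fl x a b ⊆ fl3 x i j q := by
  intro k hk
  rw [mem_fl3] at *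
  rw [mem_fl] at hk
  have hle : span ℝ {x a, x b} ≤ span ℝ {x i, x j, x q} := by
    rw [span_le]
    rintro y (rfl | rfl)
    · exact ha
    · exact hb
  exact hle hk

/-- **Main lemma**: the matrix `K * H` vanishes. -/
theorem C_zero [FiniteDimensional ℝ W] (h : Sys x K nu) (hT : Tangent x K nu H) :
    ∀ j i, (K * H) j i = 0 := by
  by_contra hcon
  push Not at hcon
  obtain ⟨j, i, hC⟩ := hcon
  have hij : i ≠ j := by
    rintro rfl
    exact hC (h.C_diag hT i)
  have hfour := h.four hT hC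
  have h3 : 3 ≤ (fl x i j).card := by
    have := Finset.card_le_card (Finset.filter_subset (fun l => ∃ k ∈ fl x i j, (K * H) k l ≠ 0)
      (fl x i j))
    have h' : (act K H (fl x i j)).card ≤ (fl x i j).card := by
      unfold act
      convert this using 2
    omega
  -- a flat through `i` different from `v0`
  obtain ⟨q, hqi, hq, hq3⟩ : ∃ q, i ≠ q ∧ q ∉ fl x i j ∧ 3 ≤ (fl x i q).card := by
    obtain ⟨j1, k1, h1, h2, h3', h4, h5⟩ := h.many i
    by_cases hj1 : j1 ∈ fl x i j
    · have he := fl_eq h.li (left_mem_fl x i j) hj1 h1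
      rw [he] at h5
      exact ⟨k1, h2, h5, h4⟩
    · exact ⟨j1, h1, hj1, h3'⟩
  -- an element outside `v0` not orthogonal to `v0`
  obtain ⟨q0, hq0, l1, hl1, hK1⟩ : ∃ q0, q0 ∉ fl x i j ∧ ∃ l1 ∈ fl x i j, K q0 l1 ≠ 0 := by
    by_contra hno
    push Not at hno
    obtain ⟨q', hq', hq'i, hq'q⟩ := exists_third hq3 i q
    have he := fl_eq h.li (left_mem_fl x i q) hq' (Ne.symm hq'i)
    have hq'v : q' ∉ fl x i j := by
      intro hmem
      have he' := fl_eq h.li (left_mem_fl x i j) hmem (Ne.symm hq'i)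
      apply hq
      rw [← he', he]
      exact right_mem_fl x i q
    have e1 := hno q hq i (left_mem_fl x i j)
    have e2 := hno q' hq'v i (left_mem_fl x i j)
    have he2 := fl_eq h.li (right_mem_fl x i q) hq' (Ne.symm hq'q)
    have himem : i ∈ fl x q q' := by rw [he2]; exact left_mem_fl x i q
    obtain ⟨α, β, hαβ⟩ := mem_span_pair.mp (mem_fl.mp himem)
    obtain ⟨T, hT'⟩ := h.rowK i
    have h5 : K i i = 0 := by
      rw [← hT' i, ← hαβ, map_add, map_smul, map_smul, hT' q, hT' q', e1, e2]; simp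
    have := h.pos i
    linarith
  set L := fl3 x i j q0 with hL
  have hiL : i ∈ L := mem_fl3.mpr (subset_span (by simp))
  have hjL : j ∈ L := mem_fl3.mpr (subset_span (by simp))
  have hq0L : q0 ∈ L := mem_fl3.mpr (subset_span (by simp))
  have hv0L : fl x i j ⊆ L := fl_subset_fl3 hiL hjL
  -- three independent elements span
  have hspan : ∀ a ∈ L, ∀ b ∈ L, ∀ c ∈ L, a ≠ b → c ∉ fl x a b → ∀ l ∈ L, ∀ m,
      (K * H) a m = 0 → (K * H) b m = 0 → (K * H) c m = 0 → (K * H) l m = 0 := by
    intro a ha b hb c hc hab hcab l hl m e1 e2 e3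
    have hs := span_triple_le (h.li a b hab) (fun hm => hcab (mem_fl.mpr hm))
      (mem_fl3.mp ha) (mem_fl3.mp hb) (mem_fl3.mp hc)
    have hl' := mem_fl3.mp hl
    rw [hs] at hl'
    obtain ⟨T, hT'⟩ := h.rowC (H := H) m
    rw [← hT' l]
    have hker : span ℝ {x c, x a, x b} ≤ LinearMap.ker T := by
      rw [span_le]
      rintro y (rfl | rfl | rfl)
      · simp [hT', e3]
      · simp [hT', e1]
      · simp [hT', e2]
    exact hker hl'
  -- some element outside `v0` sees `i`
  obtain ⟨l, hlL, hlv, hCl⟩ : ∃ l ∈ L, l ∉ fl x i j ∧ (K * H) l i ≠ 0 := by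
    by_contra hno
    push Not at hno
    have hall : ∀ l ∈ L, l ∉ fl x i j → l ∈ fl x i q0 := by
      intro l hl hlv
      by_contra hlq
      have hiq0 : i ≠ q0 := by
        rintro rfl
        exact hq0 (left_mem_fl x i j)
      exact hC (hspan i hiL q0 hq0L l hl hiq0 hlq j hjL i (h.C_diag hT i) (hno q0 hq0L hq0)
        (hno l hl hlv))
    have hzero : ∀ l ∈ fl x i j, l ≠ i → K l q0 = 0 := by
      intro l hl hli
      have hlq0 : l ≠ q0 := by
        rintro rfl
        exact hq0 hl
      apply h.two l q0 hlq0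
      by_contra hcard
      push Not at hcard
      obtain ⟨r, hr, hrl, hrq⟩ := exists_third hcard l q0
      have hrL : r ∈ L := fl_subset_fl3 (hv0L hl) hq0L hr
      by_cases hrv : r ∈ fl x i j
      · have e1 := fl_eq h.li hl hrv (Ne.symm hrl)
        have e2 := fl_eq h.li (left_mem_fl x l q0) hr (Ne.symm hrl)
        apply hq0
        rw [← e1, e2]
        exact right_mem_fl x l q0
      · have hr2 := hall r hrL hrv
        have e1 := fl_eq h.li hr2 (right_mem_fl x i q0) hrq
        have e2 := fl_eq h.li hr (right_mem_fl x l q0) hrq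
        have hlmem : l ∈ fl x i q0 := by
          rw [← e1, e2]; exact left_mem_fl x l q0
        have e3 := fl_eq h.li (left_mem_fl x i q0) hlmem (Ne.symm hli)
        have e4 := fl_eq h.li (left_mem_fl x i j) hl (Ne.symm hli)
        apply hq0
        rw [← e4, e3]
        exact right_mem_fl x i q0
    have hzero' : ∀ l ∈ fl x i j, K l q0 = 0 := by
      intro l hl
      by_cases hli : l = i
      · rw [hli]
        obtain ⟨a, ha, hai, haj⟩ := exists_third h3 i j
        have hji : j ≠ i := Ne.symm hij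
        have e1 := fl_eq h.li ha (right_mem_fl x i j) haj
        have himem : i ∈ fl x a j := by rw [e1]; exact left_mem_fl x i j
        obtain ⟨α, β, hαβ⟩ := mem_span_pair.mp (mem_fl.mp himem)
        obtain ⟨T, hT'⟩ := h.rowK q0
        rw [← hT' i, ← hαβ, map_add, map_smul, map_smul, hT' a, hT' j, hzero a ha hai,
          hzero j (right_mem_fl x i j) hji]
        simp
      · exact hzero l hl hli
    apply hK1
    rw [h.sym' q0 l1]
    exact hzero' l1 hl1
  have hil : i ≠ l := by
    rintro rfl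
    exact hCl (h.C_diag hT i)
  refine kelly' x (act K H L) (fun p q => ∃ k ∈ fl x p q, ∃ l ∈ fl x p q, (K * H) k l ≠ 0)
    (fun a _ b _ hab => h.li a b hab) ?_ ?_ ?_
  · rintro p hp q hq hpq ⟨k, hk, l, hl, hkl⟩
    refine ⟨act K H (fl x p q), ?_, ?_, ?_⟩
    · intro m hm
      rw [mem_act] at hm hp hq ⊢
      have hsub := fl_subset_fl3 hp.1 hq.1
      obtain ⟨hm1, k', hk', hk2⟩ := hm
      exact ⟨hsub hm1, k', hsub hk', hk2⟩
    · have hlk : l ≠ k := by
        rintro rfl
        exact hkl (h.C_diag hT l)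
      have := h.four hT hkl
      rw [fl_eq h.li hl hk hlk] at this
      exact this
    · intro m hm
      rw [mem_act] at hm
      exact mem_fl.mp hm.1
  · intro p hp q hq q' hq' hpq hpq' hR hR'
    push Not at hR hR'
    rw [mem_act] at hp hq hq'
    by_contra hnot
    obtain ⟨hpL, m, hmL, hm⟩ := hp
    apply hm
    exact hspan p hpL q hq.1 q' hq'.1 hpq (fun hh => hnot (mem_fl.mp hh)) m hmL p
      (h.C_diag hT p) (hR q (right_mem_fl x p q) p (left_mem_fl x p q))
      (hR' q' (right_mem_fl x p q') p (left_mem_fl x p q'))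
  · -- existence
    have hact0 : act K H (fl x i j) ⊆ act K H L := by
      intro m hm
      rw [mem_act] at hm ⊢
      obtain ⟨hm1, k', hk', hk2⟩ := hm
      exact ⟨hv0L hm1, k', hv0L hk', hk2⟩
    have hiact : i ∈ act K H (fl x i j) :=
      mem_act.mpr ⟨left_mem_fl x i j, j, right_mem_fl x i j, hC⟩
    obtain ⟨b, hb, hbi, -⟩ := exists_third (v := act K H (fl x i j)) (by omega) i i
    have hb' := (mem_act.mp hb).1
    have heb := fl_eq h.li (left_mem_fl x i j) hb' (Ne.symm hbi)
    have hfl : 4 ≤ (act K H (fl x i l)).card := h.four hT hCl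
    obtain ⟨p, hp, hpi, -⟩ := exists_third (v := act K H (fl x i l)) (by omega) i i
    have hpact : p ∈ act K H L := by
      rw [mem_act] at hp ⊢
      have hsub := fl_subset_fl3 hiL hlL
      obtain ⟨hm1, k', hk', hk2⟩ := hp
      exact ⟨hsub hm1, k', hsub hk', hk2⟩
    refine ⟨i, hact0 hiact, b, hact0 hb, Ne.symm hbi, ?_, p, hpact, ?_⟩
    · rw [heb]
      exact ⟨j, right_mem_fl x i j, i, left_mem_fl x i j, hC⟩
    · intro hmem
      have hpv : p ∈ fl x i j := by rw [← heb]; exact mem_fl.mpr hmem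
      have e1 := fl_eq h.li (left_mem_fl x i j) hpv (Ne.symm hpi)
      have e2 := fl_eq h.li (left_mem_fl x i l) (mem_act.mp hp).1 (Ne.symm hpi)
      apply hlv
      rw [← e1, e2]
      exact right_mem_fl x i l

/-- **Rigidity**: every tangent vector is zero. -/
theorem rigid [FiniteDimensional ℝ W] (h : Sys x K nu) (hT : Tangent x K nu H) : H = 0 := by
  ext i j
  rw [h.H_apply hT, h.C_zero hT i j, h.C_zero hT j i]
  simp

end Sys

end Core

end Pool.Agent.MP_de770b_mp
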