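import Mathlib

/-!
Definitions: vee-systems, their matroid and their nu-function, exactly as in the problem file
(a vee-system is given as a family of covectors indexed by a finite type).
-/

namespace Pool.Agent.MP_de770b_mp

open Module Submodule

variable {ι : Type*} [Fintype ι] {V : Type*} [AddCommGroup V] [Module ℝ V]

/-- The form `G_A(u, v) = ∑ α(u) α(v)`. -/
def form (α : ι → Dual ℝ V) (u v : V) : ℝ := ∑ i, α i u * α i v

/-- `γ^∨`: the vector with `G_A(γ^∨, v) = γ(v)` for all `v`. -/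
noncomputable def vee (α : ι → Dual ℝ V) (γ : Dual ℝ V) : V :=
  Classical.epsilon fun u => ∀ v, form α u v = γ v

open Classical in
/-- The operator `u ↦ ∑_{β ∈ Π ∩ A} β(u) β^∨`. -/
noncomputable def planeOp (α : ι → Dual ℝ V) (P : Submodule ℝ (Dual ℝ V)) (u : V) : V :=
  ∑ i with α i ∈ P, α i u • vee α (α i)

/-- `A = {α i}` is a vee-system: finitely many pairwise non-collinear nonzero covectors spanning
`V^*`, such that for every plane `Π` and every `α ∈ Π ∩ A`, the vector `α^∨` is an eigenvector of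
`∑_{β ∈ Π ∩ A} β ⊗ β^∨`. -/
structure IsVeeSystem (α : ι → Dual ℝ V) : Prop where
  ne_zero : ∀ i, α i ≠ 0
  noncollinear : ∀ i j, i ≠ j → LinearIndependent ℝ ![α i, α j]
  spans : span ℝ (Set.range α) = ⊤
  vee_cond : ∀ P : Submodule ℝ (Dual ℝ V), finrank ℝ P = 2 → ∀ i, α i ∈ P →
    ∃ c : ℝ, planeOp α P (vee α (α i)) = c • vee α (α i)

/-- `A` is irreducible: it is not a disjoint union of two nonempty parts with complementary
spans. -/
def IsIrreducible (α : ι → Dual ℝ V) : Prop :=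
  ∀ s : Set ι, s.Nonempty → sᶜ.Nonempty → ¬ IsCompl (span ℝ (α '' s)) (span ℝ (α '' sᶜ))

/-- `α i ↦ β i` is an isomorphism of the linear matroids. -/
def SameMatroid (α β : ι → Dual ℝ V) : Prop :=
  ∀ s : Set ι, LinearIndepOn ℝ α s ↔ LinearIndepOn ℝ β s

/-- The operator `∑_{β ∈ Π ∩ A} β ⊗ β^∨` restricted to `Π^∨ = {γ^∨ : γ ∈ Π}` is `c` times the
identity, that is, `ν(Π) = c`. -/
def IsNu (α : ι → Dual ℝ V) (P : Submodule ℝ (Dual ℝ V)) (c : ℝ) : Prop :=
  ∀ γ ∈ P, planeOp α P (vee α γ) = c • vee α γ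

/-- The bijection `α i ↦ β i` matches the nu-functions: for every plane `Π` with more than two
covectors of `A`, `ν_A(Π)` equals `ν_B` of the span of the images of the covectors in `Π`. -/
def SameNu (α β : ι → Dual ℝ V) : Prop :=
  ∀ P : Submodule ℝ (Dual ℝ V), finrank ℝ P = 2 → 2 < {i | α i ∈ P}.ncard →
    ∃ c : ℝ, IsNu α P c ∧ IsNu β (span ℝ (β '' {i | α i ∈ P})) c

/-- `B = g(A)` for some `g ∈ GL(V^*)`, compatibly with the bijection `α i ↦ β i`. -/
def GLEquiv (α β : ι → Dual ℝ V) : Prop :=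
  ∃ g : Dual ℝ V ≃ₗ[ℝ] Dual ℝ V, ∀ i, β i = g (α i)

end Pool.Agent.MP_de770b_mp
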