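import Mathlib
import Pool.Agent.MP_de770b_mp.Defs
import Pool.Agent.MP_de770b_mp.Core

/-! From a vee-system to its Gram matrix. -/

set_option linter.unusedSectionVars false

namespace Pool.Agent.MP_de770b_mp

open Module Submodule

variable {ι : Type*} [Fintype ι] {V : Type*} [AddCommGroup V] [Module ℝ V] [FiniteDimensional ℝ V]
variable {α : ι → Dual ℝ V}

lemma form_comm (α : ι → Dual ℝ V) (u v : V) : form α u v = form α v u :=
  Finset.sum_congr rfl fun i _ => mul_comm _ _

/-- the form as a linear map -/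
noncomputable def formL (α : ι → Dual ℝ V) : V →ₗ[ℝ] Dual ℝ V :=
  ∑ i, (LinearMap.toSpanSingleton ℝ (Dual ℝ V) (α i)) ∘ₗ (α i)

lemma formL_apply (α : ι → Dual ℝ V) (u v : V) : formL α u v = form α u v := by
  simp [formL, form, LinearMap.sum_apply]

lemma form_self_eq_zero (hs : span ℝ (Set.range α) = ⊤) {u : V} (h : form α u u = 0) : u = 0 := by
  have h1 : ∀ i, α i u = 0 := by
    intro i
    have := (Finset.sum_eq_zero_iff_of_nonneg (fun i _ => mul_self_nonneg (α i u))).mp h i
      (Finset.mem_univ i)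
    exact mul_self_eq_zero.mp this
  have h2 : ∀ γ : Dual ℝ V, γ u = 0 := by
    intro γ
    have hγ : γ ∈ span ℝ (Set.range α) := by rw [hs]; trivial
    have hle : span ℝ (Set.range α) ≤ LinearMap.ker (Dual.eval ℝ V u) := by
      rw [span_le]
      rintro _ ⟨i, rfl⟩
      simpa using h1 i
    exact hle hγ
  exact (Module.forall_dual_apply_eq_zero_iff ℝ u).mp h2

lemma form_self_nonneg (α : ι → Dual ℝ V) (u : V) : 0 ≤ form α u u :=
  Finset.sum_nonneg fun i _ => mul_self_nonneg _

lemma form_self_pos (hs : span ℝ (Set.range α) = ⊤) {u : V} (h : u ≠ 0) : 0 < form α u u :=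
  lt_of_le_of_ne (form_self_nonneg α u) fun h0 => h (form_self_eq_zero hs h0.symm)

lemma formL_injective (hs : span ℝ (Set.range α) = ⊤) : Function.Injective (formL α) := by
  rw [← LinearMap.ker_eq_bot, LinearMap.ker_eq_bot']
  intro u hu
  apply form_self_eq_zero hs
  rw [← formL_apply, hu]; simp

/-- the equivalence `V ≃ V^*` given by the form -/
noncomputable def formE (hs : span ℝ (Set.range α) = ⊤) : V ≃ₗ[ℝ] Dual ℝ V :=
  LinearEquiv.ofBijective (formL α) ⟨formL_injective hs, by
    apply (LinearMap.injective_iff_surjective_of_finrank_eq_finrank _).mp (formL_injective hs)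
    exact (Subspace.dual_finrank_eq).symm⟩

lemma vee_spec (hs : span ℝ (Set.range α) = ⊤) (γ : Dual ℝ V) (v : V) :
    form α (vee α γ) v = γ v := by
  have hex : ∃ u, ∀ v, form α u v = γ v := by
    refine ⟨(formE hs).symm γ, fun v => ?_⟩
    rw [← formL_apply]
    have : formL α ((formE hs).symm γ) = γ := (formE hs).apply_symm_apply γ
    rw [this]
  exact Classical.epsilon_spec hex v

lemma vee_eq (hs : span ℝ (Set.range α) = ⊤) (γ : Dual ℝ V) : vee α γ = (formE hs).symm γ := by
  apply (formE hs).injective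
  rw [LinearEquiv.apply_symm_apply]
  ext v
  exact (formL_apply α _ v).trans (vee_spec hs γ v)

/-- the Gram matrix -/
noncomputable def gram (α : ι → Dual ℝ V) : Matrix ι ι ℝ := fun i j => α i (vee α (α j))

lemma gram_eq_form (hs : span ℝ (Set.range α) = ⊤) (i j : ι) :
    gram α i j = form α (vee α (α i)) (vee α (α j)) := by
  rw [vee_spec hs]; rfl

lemma gram_sym (hs : span ℝ (Set.range α) = ⊤) (i j : ι) : gram α i j = gram α j i := by
  rw [gram_eq_form hs, gram_eq_form hs, form_comm]

lemma gram_idem (hs : span ℝ (Set.range α) = ⊤) (i j : ι) :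
    ∑ l, gram α i l * gram α l j = gram α i j := by
  rw [gram_eq_form hs i j]
  unfold form
  apply Finset.sum_congr rfl
  intro l _
  rw [gram_sym hs i l]
  rfl

/-- the evaluation map sending a covector to its scalar products with the family -/
noncomputable def evalMap (α : ι → Dual ℝ V) : Dual ℝ V →ₗ[ℝ] (ι → ℝ) :=
  LinearMap.pi fun j => Dual.eval ℝ V (vee α (α j))

lemma evalMap_apply (α : ι → Dual ℝ V) (γ : Dual ℝ V) (j : ι) :
    evalMap α γ j = γ (vee α (α j)) := rfl

lemma evalMap_self (α : ι → Dual ℝ V) (i : ι) : evalMap α (α i) = gram α i := rfl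

lemma evalMap_injective (hs : span ℝ (Set.range α) = ⊤) : Function.Injective (evalMap α) := by
  rw [← LinearMap.ker_eq_bot, LinearMap.ker_eq_bot']
  intro γ hγ
  have h1 : ∀ j, α j (vee α γ) = 0 := by
    intro j
    have h2 : γ (vee α (α j)) = 0 := by
      rw [← evalMap_apply, hγ]; rfl
    rw [← vee_spec hs (α j) (vee α γ), form_comm, vee_spec hs, h2]
  have h3 : form α (vee α γ) (vee α γ) = 0 := by
    unfold form
    exact Finset.sum_eq_zero fun i _ => by rw [h1 i]; simp
  have h4 := form_self_eq_zero hs h3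
  rw [vee_eq hs] at h4
  exact (formE hs).symm.map_eq_zero_iff.mp h4

/-- Families with the same Gram matrix are equivalent. -/
lemma glEquiv_of_gram_eq {β : ι → Dual ℝ V} (hs : span ℝ (Set.range α) = ⊤)
    (hs' : span ℝ (Set.range β) = ⊤) (h : gram α = gram β) : GLEquiv α β := by
  have hr : ∀ {γ : ι → Dual ℝ V}, span ℝ (Set.range γ) = ⊤ →
      LinearMap.range (evalMap γ) = span ℝ (Set.range (gram γ)) := by
    intro γ hγ
    rw [LinearMap.range_eq_map, ← hγ, LinearMap.map_span]
    congr 1
    ext y
    simp only [Set.mem_image, Set.mem_range]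
    constructor
    · rintro ⟨_, ⟨i, rfl⟩, rfl⟩
      exact ⟨i, (evalMap_self γ i).symm⟩
    · rintro ⟨i, rfl⟩
      exact ⟨γ i, ⟨i, rfl⟩, evalMap_self γ i⟩
  have hrange : LinearMap.range (evalMap α) = LinearMap.range (evalMap β) := by
    rw [hr hs, hr hs', h]
  let g : Dual ℝ V ≃ₗ[ℝ] Dual ℝ V :=
    (LinearEquiv.ofInjective (evalMap α) (evalMap_injective hs)).trans
      ((LinearEquiv.ofEq _ _ hrange).trans
        (LinearEquiv.ofInjective (evalMap β) (evalMap_injective hs')).symm)
  refine ⟨g, fun i => ?_⟩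
  apply evalMap_injective hs'
  have h1 : evalMap β (g (α i)) = evalMap α (α i) := by
    have h2 : (LinearEquiv.ofInjective (evalMap β) (evalMap_injective hs')) (g (α i))
        = (LinearEquiv.ofEq _ _ hrange)
          ((LinearEquiv.ofInjective (evalMap α) (evalMap_injective hs)) (α i)) := by
      simp only [g, LinearEquiv.trans_apply, LinearEquiv.apply_symm_apply]
    have h3 := congrArg Subtype.val h2
    simpa using h3
  rw [h1, evalMap_self, evalMap_self, h]

end Pool.Agent.MP_de770b_mp
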