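import Mathlib

/-! A layer cake inequality for finite sums. -/

namespace Pool.Agent.MP_de770b_mp

open MeasureTheory

variable {ι : Type*} [Fintype ι] [DecidableEq ι]

theorem layer_cake (z y : ι → ℝ) (δ : ℝ) (hz : ∑ i, z i = 0)
    (h : ∀ c : ℝ, (Finset.univ.filter (fun i => c ≤ y i)).Nonempty →
      Finset.univ.filter (fun i => c ≤ y i) ≠ Finset.univ →
      δ ≤ ∑ i ∈ Finset.univ.filter (fun i => c ≤ y i), z i) {p q : ι}
    (hp : ∀ i, y i ≤ y p) (hq : ∀ i, y q ≤ y i) :
    δ * (y p - y q) ≤ ∑ i, z i * y i := by
  set m := y q with hm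
  set M := y p with hM
  have hmM : m ≤ M := hp q
  have hint : ∀ i, IntervalIntegrable (Set.indicator {x | x ≤ y i} (fun _ => (1 : ℝ)))
      volume m M := by
    intro i
    rw [intervalIntegrable_iff]
    have : IntegrableOn (fun _ : ℝ => (1 : ℝ)) (Set.uIoc m M) volume := by
      rw [← intervalIntegrable_iff]
      exact intervalIntegrable_const
    exact this.indicator measurableSet_Iic
  have h1 : ∀ i, ∫ x in m..M, Set.indicator {x | x ≤ y i} (fun _ => (1 : ℝ)) x = y i - m := by
    intro i
    rw [intervalIntegral.integral_indicator ⟨hq i, hp i⟩]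
    simp
  have h2 : ∫ x in m..M, ∑ i, z i * Set.indicator {x | x ≤ y i} (fun _ => (1 : ℝ)) x
      = ∑ i, z i * y i := by
    rw [intervalIntegral.integral_finsetSum (fun i _ => (hint i).const_mul (z i))]
    have : ∀ i, ∫ x in m..M, z i * Set.indicator {x | x ≤ y i} (fun _ => (1 : ℝ)) x
        = z i * y i - z i * m := by
      intro i
      rw [intervalIntegral.integral_const_mul, h1 i]
      ring
    rw [Finset.sum_congr rfl fun i _ => this i, Finset.sum_sub_distrib, ← Finset.sum_mul, hz]
    ring
  have h3 : ∫ _x in m..M, δ = δ * (M - m) := by simp [mul_comm]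
  rw [← h2, ← h3]
  apply intervalIntegral.integral_mono_on_of_le_Ioo hmM intervalIntegrable_const
  · have := IntervalIntegrable.sum Finset.univ (fun i _ => (hint i).const_mul (z i))
    have e : (∑ i, fun x => z i * Set.indicator {x | x ≤ y i} (fun _ => (1 : ℝ)) x)
        = (fun x => ∑ i, z i * Set.indicator {x | x ≤ y i} (fun _ => (1 : ℝ)) x) := by
      funext x
      simp
    rw [e] at this
    exact this
  · intro x hx
    have e1 : ∑ i, z i * Set.indicator {x | x ≤ y i} (fun _ => (1 : ℝ)) x
        = ∑ i ∈ Finset.univ.filter (fun i => x ≤ y i), z i := by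
      rw [Finset.sum_filter]
      apply Finset.sum_congr rfl
      intro i _
      by_cases hxi : x ≤ y i
      · simp [Set.indicator, hxi]
      · simp [Set.indicator, hxi]
    rw [e1]
    apply h x
    · exact ⟨p, by simp [← hM, hx.2.le]⟩
    · intro hcon
      have := Finset.eq_univ_iff_forall.mp hcon q
      rw [Finset.mem_filter] at this
      exact absurd this.2 (not_le.mpr hx.1)

end Pool.Agent.MP_de770b_mp
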