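import Mathlib
import Pool.Agent.MP_de770b_mp.Layer

/-! Bases of maximal weight. -/

namespace Pool.Agent.MP_de770b_mp

open Module Submodule

variable {ι : Type*} [Fintype ι] [DecidableEq ι] {W : Type*} [AddCommGroup W] [Module ℝ W]
  [FiniteDimensional ℝ W]

omit [Fintype ι] [DecidableEq ι] [FiniteDimensional ℝ W] in
lemma exists_basis_index [Finite ι] (x : ι → W) (hs : span ℝ (Set.range x) = ⊤) :
    ∃ σ : Fin (finrank ℝ W) → ι, LinearIndependent ℝ (x ∘ σ) := by
  classical
  obtain ⟨b, hb, hbs, hbi⟩ := exists_linearIndependent ℝ (Set.range x)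
  have hfin : b.Finite := (Set.finite_range x).subset hb
  have := hfin.fintype
  have hcard : Fintype.card b = finrank ℝ W := by
    have h1 := finrank_span_set_eq_card hbi
    rw [hbs, hs, finrank_top] at h1
    rw [h1, Set.toFinset_card]
  have e : Fin (finrank ℝ W) ≃ b := (Fintype.equivFinOfCardEq hcard).symm
  choose f hf using fun a : b => hb a.2
  refine ⟨fun a => f (e a), ?_⟩
  have : (x ∘ fun a => f (e a)) = (fun a : b => (a : W)) ∘ e := by
    funext a
    simp only [Function.comp_apply]
    exact hf (e a)
  rw [this]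
  exact hbi.comp e e.injective

lemma exists_greedy (x : ι → W) (hs : span ℝ (Set.range x) = ⊤) (y : ι → ℝ) :
    ∃ σ : Fin (finrank ℝ W) → ι, LinearIndependent ℝ (x ∘ σ) ∧
      ∀ c : ℝ, finrank ℝ (span ℝ (x '' {i | c ≤ y i}))
        ≤ (Finset.univ.filter (fun a => c ≤ y (σ a))).card := by
  obtain ⟨σ0, h0⟩ := exists_basis_index x hs
  have : Nonempty {σ : Fin (finrank ℝ W) → ι // LinearIndependent ℝ (x ∘ σ)} := ⟨⟨σ0, h0⟩⟩
  obtain ⟨⟨σ, hσ⟩, hmax⟩ := Finite.exists_max
    (fun σ : {σ : Fin (finrank ℝ W) → ι // LinearIndependent ℝ (x ∘ σ)} => ∑ a, y (σ.1 a))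
  refine ⟨σ, hσ, fun c => ?_⟩
  have hcard : Fintype.card (Fin (finrank ℝ W)) = finrank ℝ W := Fintype.card_fin _
  set b : Basis (Fin (finrank ℝ W)) ℝ W := basisOfLinearIndependentOfCardEqFinrank' _ hσ hcard
    with hb
  have hbσ : ∀ a, b a = x (σ a) := by
    intro a
    rw [hb, coe_basisOfLinearIndependentOfCardEqFinrank']
    rfl
  have hmem : ∀ i, c ≤ y i → x i ∈ span ℝ ((x ∘ σ) '' {a | c ≤ y (σ a)}) := by
    intro i hi
    have hsupp : ∀ a, b.repr (x i) a ≠ 0 → c ≤ y (σ a) := by
      intro a ha
      by_contra hlt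
      push Not at hlt
      -- exchange
      have hli : LinearIndependent ℝ (x ∘ Function.update σ a i) := by
        rw [Fintype.linearIndependent_iff]
        intro g hg
        have h1 : ∀ d, ∑ e, g e * b.repr ((x ∘ Function.update σ a i) e) d = 0 := by
          intro d
          have := congrArg (fun w => b.repr w d) hg
          simpa [map_sum, Finsupp.finsetSum_apply] using this
        have hcoef : ∀ e d, e ≠ a → b.repr ((x ∘ Function.update σ a i) e) d
            = if e = d then 1 else 0 := by
          intro e d hea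
          simp only [Function.comp_apply, Function.update_of_ne hea]
          rw [← hbσ e, b.repr_self, Finsupp.single_apply]
        have hga : g a = 0 := by
          have h2 := h1 a
          rw [Finset.sum_eq_single a] at h2
          · rcases mul_eq_zero.mp h2 with h3 | h3
            · exact h3
            · exfalso
              apply ha
              simpa using h3
          · intro e _ hea
            rw [hcoef e a hea, if_neg hea, mul_zero]
          · intro h; exact absurd (Finset.mem_univ a) h
        intro e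
        by_cases hea : e = a
        · rw [hea]; exact hga
        · have h2 := h1 e
          rw [Finset.sum_eq_single e] at h2
          · rw [hcoef e e hea, if_pos rfl, mul_one] at h2
            exact h2
          · intro f _ hfe
            by_cases hfa : f = a
            · rw [hfa, hga, zero_mul]
            · rw [hcoef f e hfa, if_neg hfe, mul_zero]
          · intro h; exact absurd (Finset.mem_univ e) h
      have h3 := hmax ⟨Function.update σ a i, hli⟩
      simp only at h3
      have h4 : ∑ e, y (Function.update σ a i e) = ∑ e, y (σ e) + (y i - y (σ a)) := by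
        rw [← Finset.add_sum_erase Finset.univ (fun e => y (Function.update σ a i e))
          (Finset.mem_univ a), ← Finset.add_sum_erase Finset.univ (fun e => y (σ e))
          (Finset.mem_univ a)]
        have : ∑ e ∈ Finset.univ.erase a, y (Function.update σ a i e)
            = ∑ e ∈ Finset.univ.erase a, y (σ e) := by
          apply Finset.sum_congr rfl
          intro e he
          rw [Function.update_of_ne (Finset.ne_of_mem_erase he)]
        rw [this, Function.update_self]
        ring
      rw [h4] at h3
      linarith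
    rw [← b.sum_repr (x i)]
    apply Submodule.sum_mem
    intro a _
    by_cases ha : b.repr (x i) a = 0
    · rw [ha, zero_smul]; exact Submodule.zero_mem _
    · apply Submodule.smul_mem
      rw [hbσ a]
      exact subset_span ⟨a, hsupp a ha, rfl⟩
  have hle : span ℝ (x '' {i | c ≤ y i}) ≤ span ℝ ((x ∘ σ) '' {a | c ≤ y (σ a)}) := by
    rw [span_le]
    rintro _ ⟨i, hi, rfl⟩
    exact hmem i hi
  refine (Submodule.finrank_mono hle).trans ?_
  have := Classical.decEq W
  have h5 : ((x ∘ σ) '' {a | c ≤ y (σ a)})
      = (((Finset.univ.filter (fun a => c ≤ y (σ a))).image (x ∘ σ) : Finset W) : Set W) := by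
    ext w; simp
  rw [h5]
  exact (finrank_span_finset_le_card _).trans Finset.card_image_le

/-- the weight of a maximal basis exceeds the mean -/
theorem greedy_gap (x : ι → W) (hs : span ℝ (Set.range x) = ⊤) (r : ι → ℝ)
    (hr : ∑ i, r i = finrank ℝ W) (δ : ℝ)
    (hgap : ∀ I : Finset ι, I.Nonempty → I ≠ Finset.univ →
      ∑ i ∈ I, r i + δ ≤ finrank ℝ (span ℝ (x '' (I : Set ι)))) (y : ι → ℝ) {p q : ι}
    (hp : ∀ i, y i ≤ y p) (hq : ∀ i, y q ≤ y i) :
    ∃ σ : Fin (finrank ℝ W) → ι, LinearIndependent ℝ (x ∘ σ) ∧
      δ * (y p - y q) ≤ ∑ a, y (σ a) - ∑ i, r i * y i := by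
  obtain ⟨σ, hσ, hgr⟩ := exists_greedy x hs y
  refine ⟨σ, hσ, ?_⟩
  set z : ι → ℝ := fun i => ((Finset.univ.filter (fun a => σ a = i)).card : ℝ) - r i with hz
  have hcount : ∀ I : Finset ι, ∑ i ∈ I, ((Finset.univ.filter (fun a => σ a = i)).card : ℝ)
      = ((Finset.univ.filter (fun a => σ a ∈ I)).card : ℝ) := by
    intro I
    rw [← Nat.cast_sum]
    congr 1
    rw [Finset.card_eq_sum_card_fiberwise (f := σ) (t := I)
      (s := Finset.univ.filter (fun a => σ a ∈ I))]
    · apply Finset.sum_congr rfl
      intro i hi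
      congr 1
      ext a
      simp only [Finset.mem_filter, Finset.mem_univ, true_and]
      constructor
      · intro h; exact ⟨by rw [h]; exact hi, h⟩
      · intro h; exact h.2
    · intro a ha
      have := (Finset.mem_filter.mp (Finset.mem_coe.mp ha)).2
      exact Finset.mem_coe.mpr this
  have hz0 : ∑ i, z i = 0 := by
    rw [hz]
    simp only [Finset.sum_sub_distrib, hr]
    rw [hcount Finset.univ]
    simp
  have h1 : ∑ i, z i * y i = ∑ a, y (σ a) - ∑ i, r i * y i := by
    simp only [hz, sub_mul, Finset.sum_sub_distrib]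
    congr 1
    have h2 : ∀ i, ((Finset.univ.filter (fun a => σ a = i)).card : ℝ) * y i
        = ∑ a ∈ Finset.univ.filter (fun a => σ a = i), y (σ a) := by
      intro i
      have h3 : ∑ a ∈ Finset.univ.filter (fun a => σ a = i), y (σ a)
          = ∑ a ∈ Finset.univ.filter (fun a => σ a = i), y i :=
        Finset.sum_congr rfl fun a ha => by rw [(Finset.mem_filter.mp ha).2]
      rw [h3, Finset.sum_const, nsmul_eq_mul]
    rw [Finset.sum_congr rfl fun i _ => h2 i]
    exact Finset.sum_fiberwise Finset.univ σ (fun a => y (σ a))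
  rw [← h1]
  apply layer_cake z y δ hz0 _ hp hq
  intro c hne hun
  have h2 := hgap _ hne hun
  have h3 := hgr c
  have h4 : ((Finset.univ.filter (fun i => c ≤ y i) : Finset ι) : Set ι) = {i | c ≤ y i} := by
    ext i; simp
  rw [h4] at h2
  have h5 : (finrank ℝ (span ℝ (x '' {i | c ≤ y i})) : ℝ)
      ≤ ((Finset.univ.filter (fun a => c ≤ y (σ a))).card : ℝ) := by exact_mod_cast h3
  have h6 : ∑ i ∈ Finset.univ.filter (fun i => c ≤ y i), z i
      = ((Finset.univ.filter (fun a => c ≤ y (σ a))).card : ℝ)
        - ∑ i ∈ Finset.univ.filter (fun i => c ≤ y i), r i := by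
    simp only [hz, Finset.sum_sub_distrib]
    rw [hcount]
    simp
  rw [h6]
  linarith

end Pool.Agent.MP_de770b_mp
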