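import Mathlib
import Pool.Agent.MP_de770b_mp.Greedy

/-! The determinant of a weighted frame operator. -/

set_option linter.unusedSectionVars false

namespace Pool.Agent.MP_de770b_mp

open Matrix

variable {ι : Type*} [Fintype ι] [DecidableEq ι] {m : Type*} [Fintype m] [DecidableEq m]

/-- rank one matrix -/
def r1 (b : m → ℝ) : Matrix m m ℝ := vecMulVec b b

/-- weighted frame operator -/
def SM (B : ι → m → ℝ) (w : ι → ℝ) (s : Finset ι) : Matrix m m ℝ := ∑ i ∈ s, w i • r1 (B i)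

lemma r1_mulVec (b u : m → ℝ) : r1 b *ᵥ u = (b ⬝ᵥ u) • b := by
  unfold r1
  rw [vecMulVec_mulVec]
  ext k
  simp [mul_comm]

lemma SM_mulVec (B : ι → m → ℝ) (w : ι → ℝ) (s : Finset ι) (u : m → ℝ) :
    SM B w s *ᵥ u = ∑ i ∈ s, (w i * (B i ⬝ᵥ u)) • B i := by
  unfold SM
  rw [sum_mulVec]
  apply Finset.sum_congr rfl
  intro i _
  rw [smul_mulVec, r1_mulVec, smul_smul]

lemma SM_quad (B : ι → m → ℝ) (w : ι → ℝ) (s : Finset ι) (u : m → ℝ) :
    u ⬝ᵥ SM B w s *ᵥ u = ∑ i ∈ s, w i * (B i ⬝ᵥ u) ^ 2 := by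
  rw [SM_mulVec, dotProduct_sum]
  apply Finset.sum_congr rfl
  intro i _
  rw [dotProduct_smul, smul_eq_mul, dotProduct_comm u (B i)]
  ring

lemma SM_herm (B : ι → m → ℝ) (w : ι → ℝ) (s : Finset ι) : (SM B w s).IsHermitian := by
  ext k l
  simp only [SM, r1, conjTranspose_apply, Matrix.sum_apply, Matrix.smul_apply, vecMulVec_apply,
    star_trivial]
  exact Finset.sum_congr rfl fun i _ => by rw [mul_comm (B i l)]

lemma SM_posDef {B : ι → m → ℝ} {w : ι → ℝ} {s : Finset ι} (hw : ∀ i ∈ s, 0 < w i)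
    (hB : ∀ u : m → ℝ, (∀ i ∈ s, B i ⬝ᵥ u = 0) → u = 0) : (SM B w s).PosDef := by
  apply PosDef.of_dotProduct_mulVec_pos (SM_herm B w s)
  intro u hu
  rw [star_trivial, SM_quad]
  have h0 : ∀ i ∈ s, 0 ≤ w i * (B i ⬝ᵥ u) ^ 2 := fun i hi => mul_nonneg (hw i hi).le (sq_nonneg _)
  apply lt_of_le_of_ne (Finset.sum_nonneg h0)
  intro h
  apply hu
  apply hB
  intro i hi
  have h1 := (Finset.sum_eq_zero_iff_of_nonneg h0).mp h.symm i hi
  rcases mul_eq_zero.mp h1 with h2 | h2
  · exact absurd h2 (hw i hi).ne'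
  · exact pow_eq_zero_iff (two_ne_zero) |>.mp h2

/-- matrix determinant lemma -/
lemma det_add_r1 {A : Matrix m m ℝ} (hA : A.PosDef) (t : ℝ) (b : m → ℝ) :
    (A + t • r1 b).det = A.det * (1 + t * (b ⬝ᵥ A⁻¹ *ᵥ b)) := by
  have hu : IsUnit A.det := isUnit_iff_ne_zero.mpr hA.det_pos.ne'
  have h1 := det_add_replicateCol_mul_replicateRow (ι := Unit) hu (t • b) b
  have h2 : replicateCol Unit (t • b) * replicateRow Unit b = t • r1 b := by
    ext k l
    simp [r1, vecMulVec_apply, Matrix.mul_apply, mul_assoc]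
  rw [h2] at h1
  rw [h1]
  congr 1
  rw [det_unique]
  have h3 : (replicateRow Unit b * A⁻¹ * replicateCol Unit (t • b)) default default
      = t * (b ⬝ᵥ A⁻¹ *ᵥ b) := by
    rw [Matrix.mul_assoc, Matrix.mul_apply]
    have : ∀ k, (A⁻¹ * replicateCol Unit (t • b)) k default = t * (A⁻¹ *ᵥ b) k := by
      intro k
      rw [Matrix.mul_apply]
      simp only [replicateCol_apply, Pi.smul_apply, smul_eq_mul, mulVec, dotProduct,
        Finset.mul_sum]
      exact Finset.sum_congr rfl fun l _ => by ring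
    simp only [this, replicateRow_apply, dotProduct, Finset.mul_sum]
    exact Finset.sum_congr rfl fun l _ => by ring
  rw [Matrix.add_apply, h3]
  simp

lemma quad_inv_nonneg {A : Matrix m m ℝ} (hA : A.PosDef) (b : m → ℝ) : 0 ≤ b ⬝ᵥ A⁻¹ *ᵥ b := by
  have := hA.inv.posSemidef.dotProduct_mulVec_nonneg b
  simpa using this

lemma det_le_add_r1 {A : Matrix m m ℝ} (hA : A.PosDef) {t : ℝ} (ht : 0 ≤ t) (b : m → ℝ) :
    A.det ≤ (A + t • r1 b).det := by
  rw [det_add_r1 hA]
  have h1 := hA.det_pos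
  have h2 := mul_nonneg ht (quad_inv_nonneg hA b)
  nlinarith

lemma det_SM_mono {B : ι → m → ℝ} {w : ι → ℝ} (s t : Finset ι) (hst : Disjoint s t)
    (hw : ∀ i, 0 < w i) (hB : ∀ u : m → ℝ, (∀ i ∈ s, B i ⬝ᵥ u = 0) → u = 0) :
    (SM B w s).det ≤ (SM B w (s ∪ t)).det := by
  induction t using Finset.induction_on with
  | empty => simp
  | insert a t ha ih =>
    have hst' : Disjoint s t := Disjoint.mono_right (Finset.subset_insert a t) hst
    refine (ih hst').trans ?_
    have has : a ∉ s := fun h => (Finset.disjoint_left.mp hst h) (Finset.mem_insert_self a t)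
    have h1 : SM B w (s ∪ insert a t) = SM B w (s ∪ t) + w a • r1 (B a) := by
      unfold SM
      rw [Finset.union_insert, Finset.sum_insert (by simp [ha, has]), add_comm]
    rw [h1]
    apply det_le_add_r1 _ (hw a).le
    apply SM_posDef (fun i _ => hw i)
    intro u hu
    exact hB u fun i hi => hu i (Finset.mem_union_left t hi)

/-- the part of a basis -/
lemma det_SM_basis {B : ι → m → ℝ} {w : ι → ℝ} {σ : m → ι} (hσ : Function.Injective σ) :
    (SM B w (Finset.univ.image σ)).det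
      = (Matrix.of (fun a k => B (σ a) k)).det ^ 2 * ∏ a, w (σ a) := by
  have h1 : SM B w (Finset.univ.image σ)
      = (Matrix.of (fun a k => B (σ a) k))ᵀ * diagonal (fun a => w (σ a))
        * (Matrix.of (fun a k => B (σ a) k)) := by
    ext k l
    unfold SM
    rw [Finset.sum_image (fun a _ b _ h => hσ h), Matrix.sum_apply, Matrix.mul_apply]
    apply Finset.sum_congr rfl
    intro a _
    rw [Matrix.mul_diagonal]
    simp only [Matrix.smul_apply, r1, vecMulVec_apply, smul_eq_mul, transpose_apply, of_apply]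
    ring
  rw [h1, det_mul, det_mul, det_transpose, det_diagonal]
  ring

lemma det_SM_lower {B : ι → m → ℝ} {w : ι → ℝ} (hw : ∀ i, 0 < w i) {σ : m → ι}
    (hσ : Function.Injective σ) (hd : (Matrix.of (fun a k => B (σ a) k)).det ≠ 0) :
    (Matrix.of (fun a k => B (σ a) k)).det ^ 2 * ∏ a, w (σ a)
      ≤ (SM B w Finset.univ).det := by
  rw [← det_SM_basis hσ]
  have h := det_SM_mono (B := B) (w := w) (Finset.univ.image σ) (Finset.univ.image σ)ᶜ
    disjoint_compl_right hw ?_
  · rw [Finset.union_compl] at h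
    exact h
  · intro u hu
    have h1 : (Matrix.of (fun a k => B (σ a) k)) *ᵥ u = 0 := by
      funext a
      exact hu (σ a) (Finset.mem_image_of_mem σ (Finset.mem_univ a))
    exact Matrix.eq_zero_of_mulVec_eq_zero hd h1

end Pool.Agent.MP_de770b_mp
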