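import Mathlib
import Pool.Agent.MP_de770b_mp.Core

/-! The norms of the covectors are determined by the matroid and the nu-function. -/

set_option linter.unusedSectionVars false

namespace Pool.Agent.MP_de770b_mp.Sys

variable {ι : Type*} [Fintype ι] [DecidableEq ι] {W : Type*} [AddCommGroup W] [Module ℝ W]
variable {W' : Type*} [AddCommGroup W'] [Module ℝ W']
variable {x : ι → W} {K : Matrix ι ι ℝ} {nu : Finset ι → ℝ} {x' : ι → W'} {K' : Matrix ι ι ℝ}

/-- the flats with at least three members through `i` -/
noncomputable def flatsAt (x : ι → W) (i : ι) : Finset (Finset ι) :=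
  (((Finset.univ : Finset ι).erase i).image (fun j => fl x i j)).filter (fun v => 3 ≤ v.card)

lemma diag_formula (h : Sys x K nu) (i : ι) :
    ∑ v ∈ flatsAt x i, (nu v - K i i) = 1 - K i i := by
  have hsq : ∑ j, K i j * K j i = K i i := by
    have := congrFun (congrFun h.idem i) i
    rw [Matrix.mul_apply] at this
    exact this
  have h1 : ∑ j ∈ (Finset.univ : Finset ι).erase i, K i j * K j i = K i i - K i i * K i i := by
    have : K i i * K i i + ∑ j ∈ (Finset.univ : Finset ι).erase i, K i j * K j i
        = ∑ j, K i j * K j i :=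
      Finset.add_sum_erase Finset.univ (fun j => K i j * K j i) (Finset.mem_univ i)
    rw [hsq] at this
    linarith
  have h2 : ∑ j ∈ (Finset.univ : Finset ι).erase i, K i j * K j i
      = ∑ v ∈ flatsAt x i, (nu v - K i i) * K i i := by
    rw [← Finset.sum_fiberwise_of_maps_to (s := (Finset.univ : Finset ι).erase i)
      (t := ((Finset.univ : Finset ι).erase i).image (fun j => fl x i j))
      (g := fun j => fl x i j) (fun j hj => Finset.mem_image.mpr ⟨j, hj, rfl⟩)]
    unfold flatsAt
    rw [Finset.sum_filter]
    apply Finset.sum_congr rfl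
    intro v hv
    obtain ⟨j, hj, rfl⟩ := Finset.mem_image.mp hv
    have hij : i ≠ j := (Finset.ne_of_mem_erase hj).symm
    have hfib : ((Finset.univ : Finset ι).erase i).filter (fun l => fl x i l = fl x i j)
        = (fl x i j).erase i := by
      ext l
      simp only [Finset.mem_filter, Finset.mem_erase, Finset.mem_univ, and_true]
      constructor
      · rintro ⟨hli, he⟩
        refine ⟨hli, ?_⟩
        rw [← he]; exact right_mem_fl x i l
      · rintro ⟨hli, hl⟩
        exact ⟨hli, fl_eq h.li (left_mem_fl x i j) hl (Ne.symm hli)⟩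
    rw [hfib]
    have hadd : K i i * K i i + ∑ l ∈ (fl x i j).erase i, K i l * K l i
        = ∑ l ∈ fl x i j, K i l * K l i :=
      Finset.add_sum_erase (fl x i j) (fun l => K i l * K l i) (left_mem_fl x i j)
    split_ifs with h3
    · rw [h.nuF i j hij h3 i (left_mem_fl x i j) i] at hadd
      linarith
    · push Not at h3
      apply Finset.sum_eq_zero
      intro l hl
      have hl' := Finset.mem_erase.mp hl
      have he := fl_eq h.li (left_mem_fl x i j) hl'.2 (Ne.symm hl'.1)
      rw [h.two i l (Ne.symm hl'.1) (by rw [he]; exact h3), zero_mul]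
  rw [h2, ← Finset.sum_mul] at h1
  have hp := h.pos i
  have h3 : (∑ v ∈ flatsAt x i, (nu v - K i i)) * K i i = (1 - K i i) * K i i := by
    rw [h1]; ring
  exact mul_right_cancel₀ hp.ne' h3

lemma two_le_flatsAt (h : Sys x K nu) (i : ι) : 2 ≤ (flatsAt x i).card := by
  obtain ⟨j, k, hij, hik, h3, h4, h5⟩ := h.many i
  have hne : fl x i j ≠ fl x i k := by
    intro he
    apply h5
    rw [he]; exact right_mem_fl x i k
  have hsub : ({fl x i j, fl x i k} : Finset (Finset ι)) ⊆ flatsAt x i := by
    intro v hv
    simp only [Finset.mem_insert, Finset.mem_singleton] at hv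
    unfold flatsAt
    rw [Finset.mem_filter, Finset.mem_image]
    rcases hv with rfl | rfl
    · exact ⟨⟨j, by simp [Ne.symm hij], rfl⟩, h3⟩
    · exact ⟨⟨k, by simp [Ne.symm hik], rfl⟩, h4⟩
  have := Finset.card_le_card hsub
  rw [Finset.card_pair hne] at this
  exact this

/-- the norms agree -/
lemma diag_unique (h : Sys x K nu) (h' : Sys x' K' nu)
    (hfl : ∀ i j, i ≠ j → fl x' i j = fl x i j) (i : ι) : K i i = K' i i := by
  have hflats : flatsAt x' i = flatsAt x i := by
    unfold flatsAt
    congr 1
    apply Finset.image_congr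
    intro j hj
    exact hfl i j (Ne.symm (Finset.ne_of_mem_erase (by exact_mod_cast hj)))
  have e1 := h.diag_formula i
  have e2 := h'.diag_formula i
  rw [hflats] at e2
  rw [Finset.sum_sub_distrib, Finset.sum_const, nsmul_eq_mul] at e1 e2
  have hc := h.two_le_flatsAt i
  have hc' : (2 : ℝ) ≤ ((flatsAt x i).card : ℝ) := by exact_mod_cast hc
  have h3 : (((flatsAt x i).card : ℝ) - 1) * (K i i - K' i i) = 0 := by linarith
  rcases mul_eq_zero.mp h3 with h4 | h4
  · exfalso; linarith
  · linarith

end Pool.Agent.MP_de770b_mp.Sys
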