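import Mathlib
import Pool.Agent.MP_de770b_mp.Basic

/-! A vee-system gives the data used in the algebraic core. -/

set_option linter.unusedSectionVars false

namespace Pool.Agent.MP_de770b_mp

open Module Submodule

variable {ι : Type*} [Fintype ι] [DecidableEq ι] {V : Type*} [AddCommGroup V] [Module ℝ V]
  [FiniteDimensional ℝ V] {α β : ι → Dual ℝ V}

lemma finrank_pair {W : Type*} [AddCommGroup W] [Module ℝ W] {a b : W}
    (hab : LinearIndependent ℝ ![a, b]) : finrank ℝ (span ℝ ({a, b} : Set W)) = 2 := by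
  have := finrank_span_eq_card hab
  rw [Matrix.range_cons, Matrix.range_cons, Matrix.range_empty, Set.union_empty,
    Set.singleton_union] at this
  simpa using this

lemma planeOp_pair (α : ι → Dual ℝ V) (i j : ι) (u : V) :
    planeOp α (span ℝ {α i, α j}) u = ∑ l ∈ fl α i j, α l u • vee α (α l) := by
  unfold planeOp
  apply Finset.sum_congr _ (fun _ _ => rfl)
  ext k
  rw [mem_fl]; simp

lemma vee_add (hs : span ℝ (Set.range α) = ⊤) (γ δ : Dual ℝ V) :
    vee α (γ + δ) = vee α γ + vee α δ := by
  rw [vee_eq hs, vee_eq hs, vee_eq hs, map_add]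

lemma vee_smul (hs : span ℝ (Set.range α) = ⊤) (c : ℝ) (γ : Dual ℝ V) :
    vee α (c • γ) = c • vee α γ := by
  rw [vee_eq hs, vee_eq hs, map_smul]

lemma vee_ne_zero (hs : span ℝ (Set.range α) = ⊤) {γ : Dual ℝ V} (h : γ ≠ 0) :
    vee α γ ≠ 0 := by
  rw [vee_eq hs]
  exact (formE hs).symm.map_ne_zero_iff.mpr h

lemma vee_li (hs : span ℝ (Set.range α) = ⊤) {γ δ : Dual ℝ V}
    (h : LinearIndependent ℝ ![γ, δ]) : LinearIndependent ℝ ![vee α γ, vee α δ] := by
  rw [LinearIndependent.pair_iff] at h ⊢
  intro s t hst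
  apply h s t
  by_contra hne
  apply vee_ne_zero hs hne
  rw [vee_add hs, vee_smul hs, vee_smul hs, hst]

/-- the operator of a plane as a linear map -/
noncomputable def planeOpL (α : ι → Dual ℝ V) (P : Submodule ℝ (Dual ℝ V)) : V →ₗ[ℝ] V := by
  classical
  exact ∑ i with α i ∈ P, (LinearMap.toSpanSingleton ℝ V (vee α (α i))) ∘ₗ (α i)

lemma planeOpL_apply (α : ι → Dual ℝ V) (P : Submodule ℝ (Dual ℝ V)) (u : V) :
    planeOpL α P u = planeOp α P u := by
  unfold planeOpL planeOp
  rw [LinearMap.sum_apply]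
  apply Finset.sum_congr
  · ext k; simp
  · intro i _; simp

/-- the existence of `ν(Π)` -/
lemma exists_nu (hα : IsVeeSystem α) {i j : ι} (hij : i ≠ j) (h3 : 3 ≤ (fl α i j).card) :
    ∃ c, IsNu α (span ℝ {α i, α j}) c := by
  have hs := hα.spans
  obtain ⟨k, hk, hki, hkj⟩ := Sys.exists_third h3 i j
  set P := span ℝ {α i, α j} with hP
  have hfr : finrank ℝ P = 2 := finrank_pair (hα.noncollinear i j hij)
  have hiP : α i ∈ P := subset_span (by simp)
  have hjP : α j ∈ P := subset_span (by simp)
  obtain ⟨ci, hci⟩ := hα.vee_cond P hfr i hiP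
  obtain ⟨cj, hcj⟩ := hα.vee_cond P hfr j hjP
  obtain ⟨ck, hck⟩ := hα.vee_cond P hfr k (mem_fl.mp hk)
  obtain ⟨a, b, hab⟩ := mem_span_pair.mp (mem_fl.mp hk)
  have ha : a ≠ 0 := by
    rintro rfl
    have := hα.noncollinear k j hkj
    rw [LinearIndependent.pair_iff] at this
    have h1 := this 1 (-b) (by rw [← hab]; module)
    exact one_ne_zero h1.1
  have hb : b ≠ 0 := by
    rintro rfl
    have := hα.noncollinear k i hki
    rw [LinearIndependent.pair_iff] at this
    have h1 := this 1 (-a) (by rw [← hab]; module)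
    exact one_ne_zero h1.1
  rw [← planeOpL_apply] at hci hcj hck
  rw [← hab, vee_add hs, vee_smul hs, vee_smul hs, map_add, map_smul, map_smul, hci, hcj] at hck
  have hli := vee_li hs (hα.noncollinear i j hij)
  rw [LinearIndependent.pair_iff] at hli
  have h0 := hli (a * (ci - ck)) (b * (cj - ck)) (by
    have : a • ci • vee α (α i) + b • cj • vee α (α j)
      - ck • (a • vee α (α i) + b • vee α (α j)) = 0 := by rw [hck]; simp
    rw [← this]; module)
  have h1 : ci = ck := by
    rcases mul_eq_zero.mp h0.1 with h | h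
    · exact absurd h ha
    · linarith
  have h2 : cj = ck := by
    rcases mul_eq_zero.mp h0.2 with h | h
    · exact absurd h hb
    · linarith
  refine ⟨ck, fun γ hγ => ?_⟩
  obtain ⟨a', b', hab'⟩ := mem_span_pair.mp hγ
  rw [← planeOpL_apply, ← hab', vee_add hs, vee_smul hs, vee_smul hs, map_add, map_smul, map_smul,
    hci, hcj, h1, h2]
  module

lemma gram_nu (hα : IsVeeSystem α) {i j : ι} {c : ℝ}
    (h : IsNu α (span ℝ {α i, α j}) c) {k : ι} (hk : k ∈ fl α i j) (m : ι) :
    ∑ l ∈ fl α i j, gram α k l * gram α l m = c * gram α k m := by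
  have hs := hα.spans
  have h1 := h (α k) (mem_fl.mp hk)
  rw [planeOp_pair] at h1
  have h2 := congrArg (α m) h1
  rw [map_sum, map_smul, smul_eq_mul] at h2
  rw [gram_sym hs k m]
  refine Eq.trans ?_ h2
  apply Finset.sum_congr rfl
  intro l _
  rw [map_smul, smul_eq_mul, gram_sym hs k l, gram_sym hs l m]
  rfl

lemma nu_unique (hα : IsVeeSystem α) {i j : ι} {c c' : ℝ}
    (h : IsNu α (span ℝ {α i, α j}) c) (h' : IsNu α (span ℝ {α i, α j}) c') : c = c' := by
  have h1 := h (α i) (subset_span (by simp))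
  have h2 := h' (α i) (subset_span (by simp))
  rw [h1] at h2
  have h3 : (c - c') • vee α (α i) = 0 := by rw [sub_smul, h2, sub_self]
  rcases smul_eq_zero.mp h3 with h4 | h4
  · linarith
  · exact absurd h4 (vee_ne_zero hα.spans (hα.ne_zero i))

lemma gram_two (hα : IsVeeSystem α) {i j : ι} (hij : i ≠ j) (h3 : (fl α i j).card < 3) :
    gram α i j = 0 := by
  have hs := hα.spans
  have hfl : ({i, j} : Finset ι) = fl α i j := by
    apply Finset.eq_of_subset_of_card_le
    · intro k hk
      simp only [Finset.mem_insert, Finset.mem_singleton] at hk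
      rcases hk with rfl | rfl
      · exact left_mem_fl α k j
      · exact right_mem_fl α i k
    · rw [Finset.card_pair hij]; omega
  obtain ⟨c, hc⟩ := hα.vee_cond (span ℝ {α i, α j}) (finrank_pair (hα.noncollinear i j hij)) i
    (subset_span (by simp))
  rw [planeOp_pair, ← hfl, Finset.sum_pair hij] at hc
  have hli := vee_li hs (hα.noncollinear i j hij)
  rw [LinearIndependent.pair_iff] at hli
  have := hli (α i (vee α (α i)) - c) (α j (vee α (α i))) (by
    rw [sub_smul, sub_add_eq_add_sub, hc, sub_self])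
  rw [gram_sym hs]
  exact this.2

lemma gram_pos (hα : IsVeeSystem α) (i : ι) : 0 < gram α i i := by
  rw [gram_eq_form hα.spans]
  exact form_self_pos hα.spans (vee_ne_zero hα.spans (hα.ne_zero i))

lemma gram_det (hα : IsVeeSystem α) {i j : ι} (hij : i ≠ j) :
    gram α i j ^ 2 < gram α i i * gram α j j := by
  have hs := hα.spans
  have hj := gram_pos hα j
  set t := gram α i j / gram α j j with ht
  have hne : α i - t • α j ≠ 0 := by
    intro h0
    have := hα.noncollinear i j hij
    rw [LinearIndependent.pair_iff] at this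
    have h1 := this 1 (-t) (by rw [← h0]; module)
    exact one_ne_zero h1.1
  have h1 := form_self_pos hs (vee_ne_zero hs hne)
  have hrw : α i - t • α j = α i + (-t) • α j := by module
  rw [vee_spec hs, hrw, vee_add hs, vee_smul hs, map_add, map_smul] at h1
  simp only [LinearMap.add_apply, LinearMap.smul_apply, smul_eq_mul] at h1
  have e1 : α i (vee α (α i)) = gram α i i := rfl
  have e2 : α j (vee α (α i)) = gram α j i := rfl
  have e3 : α i (vee α (α j)) = gram α i j := rfl
  have e4 : α j (vee α (α j)) = gram α j j := rfl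
  rw [e1, e2, e3, e4, gram_sym hs j i] at h1
  have h2 : t * gram α j j = gram α i j := by rw [ht]; field_simp
  have h3 : gram α i i + -t * gram α i j + -t * (gram α i j + -t * gram α j j)
      = gram α i i - t * gram α i j := by
    have : t * t * gram α j j = t * gram α i j := by rw [mul_assoc, h2]
    linarith
  rw [h3] at h1
  have h4 : (gram α i i - t * gram α i j) * gram α j j
      = gram α i i * gram α j j - gram α i j ^ 2 := by
    rw [sub_mul, mul_right_comm t, h2]; ring
  have h5 := mul_pos h1 hj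
  rw [h4] at h5
  linarith

/-- everything except `many` -/
lemma sys_of (hα : IsVeeSystem α) (nu : Finset ι → ℝ)
    (hnu : ∀ i j, i ≠ j → 3 ≤ (fl α i j).card → IsNu α (span ℝ {α i, α j}) (nu (fl α i j)))
    (hmany : ∀ i, ∃ j k, i ≠ j ∧ i ≠ k ∧ 3 ≤ (fl α i j).card ∧ 3 ≤ (fl α i k).card ∧
      k ∉ fl α i j) : Sys α (gram α) nu where
  li := hα.noncollinear
  sym := by ext i j; exact gram_sym hα.spans j i
  idem := by ext i j; rw [Matrix.mul_apply]; exact gram_idem hα.spans i j
  lin := ⟨evalMap α, evalMap_self α⟩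
  pos := gram_pos hα
  det := fun i j hij => gram_det hα hij
  nuF := fun i j hij h3 k hk m => gram_nu hα (hnu i j hij h3) hk m
  two := fun i j hij h3 => gram_two hα hij h3
  many := hmany

/-- irreducibility in terms of the Gram matrix -/
lemma irr_gram (hs : span ℝ (Set.range α) = ⊤) (hirr : IsIrreducible α) (s : Set ι)
    (h1 : s.Nonempty) (h2 : sᶜ.Nonempty) : ∃ i ∈ s, ∃ j ∈ sᶜ, gram α i j ≠ 0 := by
  by_contra hcon
  push Not at hcon
  apply hirr s h1 h2
  have horth : ∀ γ ∈ span ℝ (α '' s), ∀ δ ∈ span ℝ (α '' sᶜ), γ (vee α δ) = 0 := by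
    intro γ hγ δ hδ
    have hle : span ℝ (α '' sᶜ) ≤ LinearMap.ker (γ ∘ₗ (formE hs).symm.toLinearMap) := by
      rw [span_le]
      rintro _ ⟨j, hj, rfl⟩
      have hle2 : span ℝ (α '' s) ≤ LinearMap.ker (Dual.eval ℝ V (vee α (α j))) := by
        rw [span_le]
        rintro _ ⟨i, hi, rfl⟩
        exact hcon i hi j hj
      have := hle2 hγ
      rw [LinearMap.mem_ker, Dual.eval_apply] at this
      change γ ((formE hs).symm (α j)) = 0
      rw [← vee_eq hs]; exact this
    have := hle hδ
    rw [LinearMap.mem_ker] at this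
    rw [vee_eq hs]; exact this
  constructor
  · rw [disjoint_def]
    intro γ hγ hγ'
    have h3 := horth γ hγ γ hγ'
    rw [← vee_spec hs γ] at h3
    by_contra hne
    exact vee_ne_zero hs hne (form_self_eq_zero hs h3)
  · rw [codisjoint_iff, ← span_union, ← Set.image_union, Set.union_compl_self, Set.image_univ, hs]

/-- through every covector of an irreducible vee-system there are two planes with at least three
covectors -/
lemma many_of_irr (hα : IsVeeSystem α) (hirr : IsIrreducible α) (hn : 3 ≤ finrank ℝ V) (i : ι) :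
    ∃ j k, i ≠ j ∧ i ≠ k ∧ 3 ≤ (fl α i j).card ∧ 3 ≤ (fl α i k).card ∧ k ∉ fl α i j := by
  have hs := hα.spans
  -- no plane contains all covectors
  have hbig : ∀ a b : ι, ∃ k, k ∉ fl α a b := by
    intro a b
    by_contra hcon
    push Not at hcon
    have htop : (⊤ : Submodule ℝ (Dual ℝ V)) ≤ span ℝ {α a, α b} := by
      rw [← hs, span_le]
      rintro _ ⟨k, rfl⟩
      exact mem_fl.mp (hcon k)
    have h1 : finrank ℝ (⊤ : Submodule ℝ (Dual ℝ V)) ≤ finrank ℝ (span ℝ {α a, α b}) :=
      Submodule.finrank_mono htop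
    rw [finrank_top, Subspace.dual_finrank_eq] at h1
    have h2 : finrank ℝ (span ℝ ({α a, α b} : Set (Dual ℝ V))) ≤ 2 := by
      classical
      have h3 := finrank_span_finset_le_card (R := ℝ) ({α a, α b} : Finset (Dual ℝ V))
      have h4 : ((({α a, α b} : Finset (Dual ℝ V)) : Set (Dual ℝ V))) = {α a, α b} := by simp
      rw [Set.finrank, h4] at h3
      exact h3.trans Finset.card_le_two
    omega
  obtain ⟨k0, hk0⟩ := hbig i i
  have hik0 : k0 ≠ i := by
    rintro rfl
    exact hk0 (left_mem_fl α k0 k0)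
  obtain ⟨i', hi', j, hj, hij⟩ := irr_gram hs hirr {i} ⟨i, rfl⟩ ⟨k0, by simpa using hik0⟩
  have hi'' : i' = i := hi'
  rw [hi''] at hij
  have hji : i ≠ j := by
    rintro rfl
    exact hj rfl
  have h3 : 3 ≤ (fl α i j).card := by
    by_contra hcon
    push Not at hcon
    exact hij (gram_two hα hji hcon)
  by_contra hno
  push Not at hno
  have hzero : ∀ k, k ∉ fl α i j → gram α i k = 0 := by
    intro k hk
    have hik : i ≠ k := by
      rintro rfl
      exact hk (left_mem_fl α i j)
    apply gram_two hα hik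
    by_contra hcard
    push Not at hcard
    exact hk (hno j k hji hik h3 hcard)
  obtain ⟨c, hc⟩ := exists_nu hα hji h3
  have hsq : ∀ k, ∑ l, gram α k l * gram α l k = gram α k k := fun k => gram_idem hs k k
  have hc1 : c = 1 := by
    have e1 := gram_nu hα hc (left_mem_fl α i j) i
    have e2 : ∑ l ∈ fl α i j, gram α i l * gram α l i = ∑ l, gram α i l * gram α l i := by
      apply Finset.sum_subset (Finset.subset_univ _)
      intro l _ hl
      rw [hzero l hl, zero_mul]
    rw [e2, hsq] at e1
    have hp := gram_pos hα i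
    have : (c - 1) * gram α i i = 0 := by linarith
    rcases mul_eq_zero.mp this with h | h
    · linarith
    · exact absurd h hp.ne'
  obtain ⟨k1, hk1⟩ := hbig i j
  obtain ⟨k, hk, l, hl, hkl⟩ := irr_gram hs hirr (fl α i j : Set ι)
    ⟨i, by exact_mod_cast left_mem_fl α i j⟩ ⟨k1, by
      intro h; exact hk1 (by exact_mod_cast h)⟩
  have hk' : k ∈ fl α i j := by exact_mod_cast hk
  have hl' : l ∉ fl α i j := by
    intro h; exact hl (by exact_mod_cast h)
  have e1 := gram_nu hα hc hk' k
  rw [hc1, one_mul, ← hsq k] at e1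
  have e2 : ∑ m ∈ Finset.univ \ fl α i j, gram α k m * gram α m k = 0 := by
    have := Finset.sum_sdiff (f := fun m => gram α k m * gram α m k)
      (Finset.subset_univ (fl α i j))
    linarith
  have e3 := (Finset.sum_eq_zero_iff_of_nonneg (by
    intro m _
    rw [gram_sym hs m k]
    exact mul_self_nonneg _)).mp e2 l (by simp [hl'])
  rw [gram_sym hs l k] at e3
  exact hkl (mul_self_eq_zero.mp e3)

/-- flats are determined by the matroid -/
lemma fl_eq_of_sameMatroid (hα : IsVeeSystem α) (hβ : IsVeeSystem β) (h : SameMatroid α β)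
    {i j : ι} (hij : i ≠ j) : fl β i j = fl α i j := by
  have key : ∀ {γ : ι → Dual ℝ V}, IsVeeSystem γ → ∀ k, k ∈ fl γ i j ↔
      (k = i ∨ k = j ∨ ¬ LinearIndepOn ℝ γ {k, i, j}) := by
    intro γ hγ k
    by_cases hki : k = i
    · subst hki
      simp [left_mem_fl]
    by_cases hkj : k = j
    · subst hkj
      simp [right_mem_fl]
    have hnot : k ∉ ({i, j} : Set ι) := by simp [hki, hkj]
    have hpair : LinearIndepOn ℝ γ {i, j} := (LinearIndepOn.pair_iff γ hij).mpr (by
      have := hγ.noncollinear i j hij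
      rw [LinearIndependent.pair_iff] at this
      intro c d hcd
      exact this c d hcd)
    rw [mem_fl, linearIndepOn_insert hnot, Set.image_pair]
    simp [hki, hkj, hpair]
  ext k
  rw [key hβ, key hα, h]

end Pool.Agent.MP_de770b_mp
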