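import Mathlib
import Pool.Agent.MP_de770b_mp.ToSys
import Pool.Agent.MP_de770b_mp.Diag

/-!
The trace identity of helper54: a family whose norms satisfy the linear system of the flats is a
vee-system.
-/

set_option linter.unusedSectionVars false

namespace Pool.Agent.MP_de770b_mp

open Module Submodule

variable {ι : Type*} [Fintype ι] [DecidableEq ι] {V : Type*} [AddCommGroup V] [Module ℝ V]
  [FiniteDimensional ℝ V] {γ : ι → Dual ℝ V}

/-- covectors in the plane of `γ i`, `γ j`: the corresponding row of the Gram matrix -/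
lemma gram_comb {i j k : ι} (hk : k ∈ fl γ i j) :
    ∃ a b : ℝ, ∀ l, gram γ k l = a * gram γ i l + b * gram γ j l := by
  obtain ⟨a, b, hab⟩ := mem_span_pair.mp (mem_fl.mp hk)
  refine ⟨a, b, fun l => ?_⟩
  unfold gram
  rw [← hab]
  simp

lemma gram_pos' (hs : span ℝ (Set.range γ) = ⊤) {i : ι} (h : γ i ≠ 0) : 0 < gram γ i i := by
  rw [gram_eq_form hs]
  exact form_self_pos hs (vee_ne_zero hs h)

lemma gram_det' (hs : span ℝ (Set.range γ) = ⊤) {i j : ι}
    (hli : LinearIndependent ℝ ![γ i, γ j]) :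
    0 < gram γ i i * gram γ j j - gram γ i j ^ 2 := by
  have hj0 : γ j ≠ 0 := by
    have := hli.ne_zero 1
    simpa using this
  have hj := gram_pos' hs hj0
  set t := gram γ i j / gram γ j j with ht
  have hne : γ i - t • γ j ≠ 0 := by
    intro h0
    rw [LinearIndependent.pair_iff] at hli
    have h1 := hli 1 (-t) (by rw [← h0]; module)
    exact one_ne_zero h1.1
  have h1 := form_self_pos hs (vee_ne_zero hs hne)
  have hrw : γ i - t • γ j = γ i + (-t) • γ j := by module
  rw [vee_spec hs, hrw, vee_add hs, vee_smul hs, map_add, map_smul] at h1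
  simp only [LinearMap.add_apply, LinearMap.smul_apply, smul_eq_mul] at h1
  have e1 : γ i (vee γ (γ i)) = gram γ i i := rfl
  have e2 : γ j (vee γ (γ i)) = gram γ j i := rfl
  have e3 : γ i (vee γ (γ j)) = gram γ i j := rfl
  have e4 : γ j (vee γ (γ j)) = gram γ j j := rfl
  rw [e1, e2, e3, e4, gram_sym hs j i] at h1
  have h2 : t * gram γ j j = gram γ i j := by rw [ht]; field_simp
  have h3 : gram γ i i + -t * gram γ i j + -t * (gram γ i j + -t * gram γ j j)
      = gram γ i i - t * gram γ i j := by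
    have : t * t * gram γ j j = t * gram γ i j := by rw [mul_assoc, h2]
    linarith
  rw [h3] at h1
  have h4 : (gram γ i i - t * gram γ i j) * gram γ j j
      = gram γ i i * gram γ j j - gram γ i j ^ 2 := by
    rw [sub_mul, mul_right_comm t, h2]; ring
  have h5 := mul_pos h1 hj
  rw [h4] at h5
  exact h5

/-- orthonormal coordinates in the plane of `γ i`, `γ j` -/
lemma exists_coord (hs : span ℝ (Set.range γ) = ⊤) {i j : ι}
    (hli : LinearIndependent ℝ ![γ i, γ j]) :
    ∃ c d : ι → ℝ, (∀ k ∈ fl γ i j, ∀ l, gram γ k l = c k * c l + d k * d l) ∧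
      c i * d j - c j * d i ≠ 0 := by
  have hi0 : γ i ≠ 0 := by
    have := hli.ne_zero 0
    simpa using this
  have hi := gram_pos' hs hi0
  have hD := gram_det' hs hli
  set A := gram γ i i with hA
  set B := gram γ i j with hB
  set C := gram γ j j with hC
  set D := C - B ^ 2 / A with hDdef
  have hDpos : 0 < D := by
    have : D = (A * C - B ^ 2) / A := by rw [hDdef]; field_simp
    rw [this]; positivity
  have hsA : Real.sqrt A * Real.sqrt A = A := Real.mul_self_sqrt hi.le
  have hsD : Real.sqrt D * Real.sqrt D = D := Real.mul_self_sqrt hDpos.le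
  have hsA0 : 0 < Real.sqrt A := Real.sqrt_pos.mpr hi
  have hsD0 : 0 < Real.sqrt D := Real.sqrt_pos.mpr hDpos
  have key : ∀ k ∈ fl γ i j, ∀ l, gram γ k l = gram γ i k / Real.sqrt A * (gram γ i l / Real.sqrt A)
      + (gram γ j k - B * gram γ i k / A) / Real.sqrt D
        * ((gram γ j l - B * gram γ i l / A) / Real.sqrt D) := by
    intro k hk l
    obtain ⟨a, b, hab⟩ := gram_comb hk
    have hki : gram γ i k = a * A + b * B := by
      rw [gram_sym hs i k, hab i, hA, hB, gram_sym hs j i]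
    have hkj : gram γ j k = a * B + b * C := by
      rw [gram_sym hs j k, hab j]
    rw [hab l, hki, hkj]
    have e1 : (a * A + b * B) / Real.sqrt A * (gram γ i l / Real.sqrt A)
        = (a * A + b * B) * gram γ i l / A := by
      rw [div_mul_div_comm, hsA]
    have e2 : (a * B + b * C - B * (a * A + b * B) / A) = b * D := by
      rw [hDdef]; field_simp; ring
    have e3 : b * D / Real.sqrt D * ((gram γ j l - B * gram γ i l / A) / Real.sqrt D)
        = b * (gram γ j l - B * gram γ i l / A) := by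
      rw [div_mul_div_comm, hsD]; field_simp
    rw [e2, e1, e3]
    field_simp
    ring
  refine ⟨fun l => gram γ i l / Real.sqrt A,
    fun l => (gram γ j l - B * gram γ i l / A) / Real.sqrt D, fun k hk l => key k hk l, ?_⟩
  have h1 : gram γ i i / Real.sqrt A * ((gram γ j j - B * gram γ i j / A) / Real.sqrt D)
      - gram γ i j / Real.sqrt A * ((gram γ j i - B * gram γ i i / A) / Real.sqrt D)
      = A * D / (Real.sqrt A * Real.sqrt D) := by
    rw [gram_sym hs j i, ← hA, ← hB, ← hC]
    have : (B - B * A / A) = 0 := by field_simp; ring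
    rw [this, hDdef]
    field_simp
    ring
  simp only
  rw [h1]
  positivity

/-- the defect of a plane -/
noncomputable def defect (γ : ι → Dual ℝ V) (v : Finset ι) : ℝ :=
  ∑ k ∈ v, ∑ l ∈ v, gram γ k l ^ 2 - (∑ k ∈ v, gram γ k k) ^ 2 / 2

lemma defect_coord {v : Finset ι} {c d : ι → ℝ}
    (h : ∀ k ∈ v, ∀ l, gram γ k l = c k * c l + d k * d l) :
    defect γ v = (∑ k ∈ v, c k ^ 2 - ∑ k ∈ v, d k ^ 2) ^ 2 / 2
      + 2 * (∑ k ∈ v, c k * d k) ^ 2 := by
  unfold defect
  have h1 : ∑ k ∈ v, ∑ l ∈ v, gram γ k l ^ 2 = (∑ k ∈ v, c k ^ 2) ^ 2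
      + 2 * (∑ k ∈ v, c k * d k) ^ 2 + (∑ k ∈ v, d k ^ 2) ^ 2 := by
    have e1 : ∀ k ∈ v, ∑ l ∈ v, gram γ k l ^ 2
        = c k ^ 2 * (∑ l ∈ v, c l ^ 2) + 2 * (c k * d k) * (∑ l ∈ v, c l * d l)
          + d k ^ 2 * (∑ l ∈ v, d l ^ 2) := by
      intro k hk
      simp only [Finset.mul_sum, ← Finset.sum_add_distrib]
      exact Finset.sum_congr rfl fun l _ => by rw [h k hk l]; ring
    rw [Finset.sum_congr rfl e1, Finset.sum_add_distrib, Finset.sum_add_distrib,
      ← Finset.sum_mul, ← Finset.sum_mul, ← Finset.sum_mul, ← Finset.mul_sum]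
    ring
  have h2 : ∑ k ∈ v, gram γ k k = ∑ k ∈ v, c k ^ 2 + ∑ k ∈ v, d k ^ 2 := by
    rw [← Finset.sum_add_distrib]
    exact Finset.sum_congr rfl fun k hk => by rw [h k hk k]; ring
  rw [h1, h2]
  ring

lemma defect_nonneg (hs : span ℝ (Set.range γ) = ⊤) {i j : ι}
    (hli : LinearIndependent ℝ ![γ i, γ j]) : 0 ≤ defect γ (fl γ i j) := by
  obtain ⟨c, d, hcd, -⟩ := exists_coord hs hli
  rw [defect_coord hcd]
  positivity

/-- equality case: the operator of the plane is scalar -/
lemma nu_of_defect (hs : span ℝ (Set.range γ) = ⊤) {i j : ι}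
    (hli : LinearIndependent ℝ ![γ i, γ j]) (h0 : defect γ (fl γ i j) = 0) {k : ι}
    (hk : k ∈ fl γ i j) (m : ι) :
    ∑ l ∈ fl γ i j, gram γ k l * gram γ l m
      = (∑ l ∈ fl γ i j, gram γ l l) / 2 * gram γ k m := by
  obtain ⟨c, d, hcd, -⟩ := exists_coord hs hli
  rw [defect_coord hcd] at h0
  have h1 : 0 ≤ (∑ k ∈ fl γ i j, c k ^ 2 - ∑ k ∈ fl γ i j, d k ^ 2) ^ 2 / 2 := by positivity
  have h2 : 0 ≤ 2 * (∑ k ∈ fl γ i j, c k * d k) ^ 2 := by positivity
  have h3 : ∑ k ∈ fl γ i j, c k * d k = 0 := by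
    have : (∑ k ∈ fl γ i j, c k * d k) ^ 2 = 0 := by linarith
    exact pow_eq_zero_iff (two_ne_zero) |>.mp this
  have h4 : ∑ k ∈ fl γ i j, c k ^ 2 = ∑ k ∈ fl γ i j, d k ^ 2 := by
    have : (∑ k ∈ fl γ i j, c k ^ 2 - ∑ k ∈ fl γ i j, d k ^ 2) ^ 2 = 0 := by linarith
    have := pow_eq_zero_iff (two_ne_zero) |>.mp this
    linarith
  have h5 : ∑ l ∈ fl γ i j, gram γ l l = 2 * ∑ k ∈ fl γ i j, c k ^ 2 := by
    have : ∑ l ∈ fl γ i j, gram γ l l = ∑ k ∈ fl γ i j, c k ^ 2 + ∑ k ∈ fl γ i j, d k ^ 2 := by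
      rw [← Finset.sum_add_distrib]
      exact Finset.sum_congr rfl fun k hk => by rw [hcd k hk k]; ring
    rw [this, ← h4]; ring
  rw [h5]
  have e1 : ∑ l ∈ fl γ i j, gram γ k l * gram γ l m
      = c k * c m * ∑ l ∈ fl γ i j, c l ^ 2 + (c k * d m + d k * c m) * ∑ l ∈ fl γ i j, c l * d l
        + d k * d m * ∑ l ∈ fl γ i j, d l ^ 2 := by
    simp only [Finset.mul_sum, ← Finset.sum_add_distrib]
    exact Finset.sum_congr rfl fun l hl => by rw [hcd k hk l, hcd l hl m]; ring
  rw [e1, h3, ← h4, hcd k hk m]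
  ring

/-- conversely a scalar operator has the value half the trace -/
lemma nu_eq_half (hs : span ℝ (Set.range γ) = ⊤) {i j : ι}
    (hli : LinearIndependent ℝ ![γ i, γ j]) {ν : ℝ}
    (h : ∀ k ∈ fl γ i j, ∀ m ∈ fl γ i j,
      ∑ l ∈ fl γ i j, gram γ k l * gram γ l m = ν * gram γ k m) :
    ν = (∑ l ∈ fl γ i j, gram γ l l) / 2 ∧ defect γ (fl γ i j) = 0 := by
  obtain ⟨c, d, hcd, hdet⟩ := exists_coord hs hli
  set p := ∑ l ∈ fl γ i j, c l ^ 2 with hp
  set q := ∑ l ∈ fl γ i j, d l ^ 2 with hq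
  set s := ∑ l ∈ fl γ i j, c l * d l with hs'
  have hi := left_mem_fl γ i j
  have hj := right_mem_fl γ i j
  have key : ∀ k ∈ fl γ i j, ∀ m ∈ fl γ i j,
      c k * c m * (p - ν) + (c k * d m + d k * c m) * s + d k * d m * (q - ν) = 0 := by
    intro k hk m hm
    have e1 : ∑ l ∈ fl γ i j, gram γ k l * gram γ l m
        = c k * c m * p + (c k * d m + d k * c m) * s + d k * d m * q := by
      simp only [hp, hq, hs', Finset.mul_sum, ← Finset.sum_add_distrib]
      exact Finset.sum_congr rfl fun l hl => by rw [hcd k hk l, hcd l hl m]; ring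
    rw [h k hk m hm, hcd k hk m] at e1
    linarith
  have kii := key i hi i hi
  have kij := key i hi j hj
  have kjj := key j hj j hj
  -- solve the linear system
  set δ := c i * d j - c j * d i with hδ
  have hp0 : δ ^ 2 * (p - ν) = 0 := by
    have : δ ^ 2 * (p - ν) = d j ^ 2 * (c i * c i * (p - ν) + (c i * d i + d i * c i) * s
          + d i * d i * (q - ν))
        - 2 * d i * d j * (c i * c j * (p - ν) + (c i * d j + d i * c j) * s
          + d i * d j * (q - ν))
        + d i ^ 2 * (c j * c j * (p - ν) + (c j * d j + d j * c j) * s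
          + d j * d j * (q - ν)) := by
      rw [hδ]; ring
    rw [this, kii, kij, kjj]; ring
  have hq0 : δ ^ 2 * (q - ν) = 0 := by
    have : δ ^ 2 * (q - ν) = c j ^ 2 * (c i * c i * (p - ν) + (c i * d i + d i * c i) * s
          + d i * d i * (q - ν))
        - 2 * c i * c j * (c i * c j * (p - ν) + (c i * d j + d i * c j) * s
          + d i * d j * (q - ν))
        + c i ^ 2 * (c j * c j * (p - ν) + (c j * d j + d j * c j) * s
          + d j * d j * (q - ν)) := by
      rw [hδ]; ring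
    rw [this, kii, kij, kjj]; ring
  have hs0 : δ ^ 2 * s = 0 := by
    have : δ ^ 2 * s = - (c j * d j) * (c i * c i * (p - ν) + (c i * d i + d i * c i) * s
          + d i * d i * (q - ν))
        + (c i * d j + c j * d i) * (c i * c j * (p - ν) + (c i * d j + d i * c j) * s
          + d i * d j * (q - ν))
        - c i * d i * (c j * c j * (p - ν) + (c j * d j + d j * c j) * s
          + d j * d j * (q - ν)) := by
      rw [hδ]; ring
    rw [this, kii, kij, kjj]; ring
  have hδ2 : δ ^ 2 ≠ 0 := pow_ne_zero 2 hdet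
  have hpν : p = ν := by
    rcases mul_eq_zero.mp hp0 with h | h
    · exact absurd h hδ2
    · linarith
  have hqν : q = ν := by
    rcases mul_eq_zero.mp hq0 with h | h
    · exact absurd h hδ2
    · linarith
  have hs0' : s = 0 := by
    rcases mul_eq_zero.mp hs0 with h | h
    · exact absurd h hδ2
    · exact h
  constructor
  · have : ∑ l ∈ fl γ i j, gram γ l l = p + q := by
      rw [hp, hq, ← Finset.sum_add_distrib]
      exact Finset.sum_congr rfl fun k hk => by rw [hcd k hk k]; ring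
    rw [this, hpν, hqν]; ring
  · rw [defect_coord hcd, ← hp, ← hq, ← hs', hpν, hqν, hs0']; ring

end Pool.Agent.MP_de770b_mp
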