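import Mathlib
import Pool.Agent.MP_de770b_mp.Trace

/-!
Summation over all planes: if the norms satisfy the linear system, all defects vanish.
-/

set_option linter.unusedSectionVars false

namespace Pool.Agent.MP_de770b_mp

open Module Submodule

variable {ι : Type*} [Fintype ι] [DecidableEq ι] {V : Type*} [AddCommGroup V] [Module ℝ V]
  [FiniteDimensional ℝ V] {γ : ι → Dual ℝ V}

/-- the linear system: for every `i`, `∑ (r(v)/2 - r_i) = 1 - r_i`, the sum being over the flats of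
rank two with at least three members, one of them `i` -/
def LinSys (γ : ι → Dual ℝ V) (r : ι → ℝ) : Prop :=
  ∀ i, ∑ v ∈ Sys.flatsAt γ i, ((∑ k ∈ v, r k) / 2 - r i) = 1 - r i

/-- all flats of rank two with at least three members -/
noncomputable def bigFlats (γ : ι → Dual ℝ V) : Finset (Finset ι) :=
  Finset.univ.biUnion fun i => Sys.flatsAt γ i

lemma mem_flatsAt {i : ι} {v : Finset ι} :
    v ∈ Sys.flatsAt γ i ↔ ∃ j, i ≠ j ∧ 3 ≤ (fl γ i j).card ∧ v = fl γ i j := by
  unfold Sys.flatsAt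
  rw [Finset.mem_filter, Finset.mem_image]
  constructor
  · rintro ⟨⟨j, hj, rfl⟩, h3⟩
    exact ⟨j, (Finset.ne_of_mem_erase hj).symm, h3, rfl⟩
  · rintro ⟨j, hij, h3, rfl⟩
    exact ⟨⟨j, by simp [Ne.symm hij], rfl⟩, h3⟩

lemma mem_flatsAt_iff (hli : ∀ i j, i ≠ j → LinearIndependent ℝ ![γ i, γ j]) {i : ι}
    {v : Finset ι} : v ∈ Sys.flatsAt γ i ↔ v ∈ bigFlats γ ∧ i ∈ v := by
  unfold bigFlats
  rw [Finset.mem_biUnion]
  constructor
  · intro h
    refine ⟨⟨i, Finset.mem_univ i, h⟩, ?_⟩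
    obtain ⟨j, -, -, rfl⟩ := mem_flatsAt.mp h
    exact left_mem_fl γ i j
  · rintro ⟨⟨k, -, hk⟩, hi⟩
    by_cases hik : i = k
    · rw [hik]; exact hk
    · obtain ⟨j, hkj, h3, rfl⟩ := mem_flatsAt.mp hk
      have he := fl_eq hli (left_mem_fl γ k j) hi (Ne.symm hik)
      rw [fl_comm] at he
      exact mem_flatsAt.mpr ⟨k, hik, by rw [he]; exact h3, he.symm⟩

lemma sum_flatsAt (hli : ∀ i j, i ≠ j → LinearIndependent ℝ ![γ i, γ j])
    (f : ι → Finset ι → ℝ) :
    ∑ i, ∑ v ∈ Sys.flatsAt γ i, f i v = ∑ v ∈ bigFlats γ, ∑ i ∈ v, f i v := by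
  apply Finset.sum_comm'
  intro i v
  rw [mem_flatsAt_iff hli]
  simp [and_comm]

lemma sum_split (hli : ∀ i j, i ≠ j → LinearIndependent ℝ ![γ i, γ j]) (i : ι) (g : ι → ℝ) :
    ∑ j ∈ (Finset.univ : Finset ι).erase i, g j
      = ∑ v ∈ Sys.flatsAt γ i, ∑ j ∈ v.erase i, g j
        + ∑ j ∈ ((Finset.univ : Finset ι).erase i).filter (fun j => ¬ 3 ≤ (fl γ i j).card), g j := by
  rw [← Finset.sum_filter_add_sum_filter_not ((Finset.univ : Finset ι).erase i)
    (fun j => 3 ≤ (fl γ i j).card) g]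
  congr 1
  rw [← Finset.sum_fiberwise_of_maps_to
    (s := ((Finset.univ : Finset ι).erase i).filter (fun j => 3 ≤ (fl γ i j).card))
    (t := Sys.flatsAt γ i) (g := fun j => fl γ i j)]
  · apply Finset.sum_congr rfl
    intro v hv
    obtain ⟨j, hij, h3, rfl⟩ := mem_flatsAt.mp hv
    apply Finset.sum_congr _ (fun _ _ => rfl)
    ext l
    simp only [Finset.mem_filter, Finset.mem_erase, Finset.mem_univ, and_true]
    constructor
    · rintro ⟨⟨hli', -⟩, he⟩
      refine ⟨hli', ?_⟩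
      rw [← he]; exact right_mem_fl γ i l
    · rintro ⟨hli', hl⟩
      have he := fl_eq hli (left_mem_fl γ i j) hl (Ne.symm hli')
      exact ⟨⟨hli', by rw [he]; exact h3⟩, he⟩
  · intro j hj
    rw [Finset.mem_filter, Finset.mem_erase] at hj
    exact mem_flatsAt.mpr ⟨j, Ne.symm hj.1.1, hj.2, rfl⟩

/-- the trace identity -/
theorem sum_defect (hs : span ℝ (Set.range γ) = ⊤)
    (hli : ∀ i j, i ≠ j → LinearIndependent ℝ ![γ i, γ j])
    (hL : LinSys γ (fun i => gram γ i i)) :
    ∑ v ∈ bigFlats γ, defect γ v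
      + ∑ i, ∑ j ∈ ((Finset.univ : Finset ι).erase i).filter (fun j => ¬ 3 ≤ (fl γ i j).card),
        gram γ i j ^ 2 = 0 := by
  set r : ι → ℝ := fun i => gram γ i i with hr
  -- trace of the square
  have h1 : ∀ i, ∑ j, gram γ i j ^ 2 = r i := by
    intro i
    rw [hr]
    simp only
    rw [← gram_idem hs i i]
    exact Finset.sum_congr rfl fun j _ => by rw [gram_sym hs j i]; ring
  have h2 : ∀ i, r i ^ 2 + (∑ v ∈ Sys.flatsAt γ i, ∑ j ∈ v.erase i, gram γ i j ^ 2
      + ∑ j ∈ ((Finset.univ : Finset ι).erase i).filter (fun j => ¬ 3 ≤ (fl γ i j).card),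
        gram γ i j ^ 2) = r i := by
    intro i
    rw [← sum_split hli i (fun j => gram γ i j ^ 2)]
    have := Finset.add_sum_erase Finset.univ (fun j => gram γ i j ^ 2) (Finset.mem_univ i)
    rw [h1 i] at this
    exact this
  have h3 : ∑ i, r i ^ 2 + (∑ v ∈ bigFlats γ, ∑ i ∈ v, ∑ j ∈ v.erase i, gram γ i j ^ 2
      + ∑ i, ∑ j ∈ ((Finset.univ : Finset ι).erase i).filter (fun j => ¬ 3 ≤ (fl γ i j).card),
        gram γ i j ^ 2) = ∑ i, r i := by
    rw [← sum_flatsAt hli (fun i v => ∑ j ∈ v.erase i, gram γ i j ^ 2),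
      ← Finset.sum_add_distrib, ← Finset.sum_add_distrib]
    exact Finset.sum_congr rfl fun i _ => h2 i
  -- the linear system, multiplied by the norms and summed
  have h4 : ∑ v ∈ bigFlats γ, ∑ i ∈ v, r i * ((∑ k ∈ v, r k) / 2 - r i)
      = ∑ i, r i * (1 - r i) := by
    rw [← sum_flatsAt hli (fun i v => r i * ((∑ k ∈ v, r k) / 2 - r i))]
    apply Finset.sum_congr rfl
    intro i _
    rw [← Finset.mul_sum, hL i]
  have h5 : ∀ v ∈ bigFlats γ, defect γ v
      = ∑ i ∈ v, ∑ j ∈ v.erase i, gram γ i j ^ 2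
        - ∑ i ∈ v, r i * ((∑ k ∈ v, r k) / 2 - r i) := by
    intro v _
    unfold defect
    have e1 : ∀ i ∈ v, ∑ l ∈ v, gram γ i l ^ 2 = r i ^ 2 + ∑ j ∈ v.erase i, gram γ i j ^ 2 :=
      fun i hi => (Finset.add_sum_erase v (fun j => gram γ i j ^ 2) hi).symm
    rw [Finset.sum_congr rfl e1, Finset.sum_add_distrib]
    have e2 : ∑ i ∈ v, r i * ((∑ k ∈ v, r k) / 2 - r i)
        = (∑ k ∈ v, r k) ^ 2 / 2 - ∑ i ∈ v, r i ^ 2 := by
      have : ∀ i ∈ v, r i * ((∑ k ∈ v, r k) / 2 - r i) = (∑ k ∈ v, r k) / 2 * r i - r i ^ 2 :=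
        fun i _ => by ring
      rw [Finset.sum_congr rfl this, Finset.sum_sub_distrib, ← Finset.mul_sum]
      ring
    rw [e2]
    ring
  rw [Finset.sum_congr rfl h5, Finset.sum_sub_distrib, h4]
  have h6 : ∑ i, r i * (1 - r i) = ∑ i, r i - ∑ i, r i ^ 2 := by
    rw [← Finset.sum_sub_distrib]
    exact Finset.sum_congr rfl fun i _ => by ring
  rw [h6]
  linarith

/-- under the linear system all defects vanish and planes with two covectors are orthogonal -/
theorem defect_zero (hs : span ℝ (Set.range γ) = ⊤)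
    (hli : ∀ i j, i ≠ j → LinearIndependent ℝ ![γ i, γ j])
    (hL : LinSys γ (fun i => gram γ i i)) :
    (∀ i j, i ≠ j → 3 ≤ (fl γ i j).card → defect γ (fl γ i j) = 0) ∧
    (∀ i j, i ≠ j → (fl γ i j).card < 3 → gram γ i j = 0) := by
  have h := sum_defect hs hli hL
  have hd : ∀ v ∈ bigFlats γ, 0 ≤ defect γ v := by
    intro v hv
    unfold bigFlats at hv
    obtain ⟨i, -, hi⟩ := Finset.mem_biUnion.mp hv
    obtain ⟨j, hij, -, rfl⟩ := mem_flatsAt.mp hi
    exact defect_nonneg hs (hli i j hij)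
  have h0 : 0 ≤ ∑ v ∈ bigFlats γ, defect γ v := Finset.sum_nonneg hd
  have hq : ∀ i ∈ (Finset.univ : Finset ι), 0 ≤ ∑ j ∈ ((Finset.univ : Finset ι).erase i).filter
      (fun j => ¬ 3 ≤ (fl γ i j).card), gram γ i j ^ 2 :=
    fun i _ => Finset.sum_nonneg fun j _ => sq_nonneg _
  have h1 : 0 ≤ ∑ i, ∑ j ∈ ((Finset.univ : Finset ι).erase i).filter
      (fun j => ¬ 3 ≤ (fl γ i j).card), gram γ i j ^ 2 := Finset.sum_nonneg hq
  have h2 : ∑ v ∈ bigFlats γ, defect γ v = 0 := by linarith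
  have h3 : ∑ i, ∑ j ∈ ((Finset.univ : Finset ι).erase i).filter
      (fun j => ¬ 3 ≤ (fl γ i j).card), gram γ i j ^ 2 = 0 := by linarith
  constructor
  · intro i j hij hc
    apply (Finset.sum_eq_zero_iff_of_nonneg hd).mp h2
    unfold bigFlats
    exact Finset.mem_biUnion.mpr ⟨i, Finset.mem_univ i, mem_flatsAt.mpr ⟨j, hij, hc, rfl⟩⟩
  · intro i j hij hc
    have h4 := (Finset.sum_eq_zero_iff_of_nonneg hq).mp h3 i (Finset.mem_univ i)
    have h5 := (Finset.sum_eq_zero_iff_of_nonneg (fun j _ => sq_nonneg _)).mp h4 j (by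
      rw [Finset.mem_filter, Finset.mem_erase]
      exact ⟨⟨Ne.symm hij, Finset.mem_univ j⟩, by omega⟩)
    exact pow_eq_zero_iff (two_ne_zero) |>.mp h5

/-- equality of vectors of `V` can be tested on a spanning family -/
lemma eq_of_apply (hs : span ℝ (Set.range γ) = ⊤) {u w : V} (h : ∀ m, γ m u = γ m w) : u = w := by
  apply (Module.forall_dual_apply_eq_zero_iff ℝ (u - w)).mp _ |> sub_eq_zero.mp
  intro δ
  have hδ : δ ∈ span ℝ (Set.range γ) := by rw [hs]; trivial
  have hle : span ℝ (Set.range γ) ≤ LinearMap.ker (Dual.eval ℝ V (u - w)) := by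
    rw [span_le]
    rintro _ ⟨i, rfl⟩
    simp [h i]
  exact hle hδ

/-- the value of `ν` on a plane with at least three covectors -/
theorem isNu_of_linSys (hs : span ℝ (Set.range γ) = ⊤)
    (hli : ∀ i j, i ≠ j → LinearIndependent ℝ ![γ i, γ j])
    (hL : LinSys γ (fun i => gram γ i i)) {i j : ι} (hij : i ≠ j) (h3 : 3 ≤ (fl γ i j).card) :
    IsNu γ (span ℝ {γ i, γ j}) ((∑ l ∈ fl γ i j, gram γ l l) / 2) := by
  have hd := (defect_zero hs hli hL).1 i j hij h3
  have hk : ∀ k ∈ fl γ i j, planeOpL γ (span ℝ {γ i, γ j}) (vee γ (γ k))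
      = ((∑ l ∈ fl γ i j, gram γ l l) / 2) • vee γ (γ k) := by
    intro k hk
    rw [planeOpL_apply, planeOp_pair]
    apply eq_of_apply hs
    intro m
    rw [map_sum, map_smul, smul_eq_mul]
    have h1 := nu_of_defect hs (hli i j hij) hd hk m
    change _ = _ * gram γ m k
    rw [gram_sym hs m k, ← h1]
    apply Finset.sum_congr rfl
    intro l _
    rw [map_smul, smul_eq_mul, gram_sym hs k l, gram_sym hs l m]
    rfl
  intro δ hδ
  obtain ⟨a, b, hab⟩ := mem_span_pair.mp hδ
  rw [← planeOpL_apply, ← hab, vee_add hs, vee_smul hs, vee_smul hs, map_add, map_smul, map_smul,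
    hk i (left_mem_fl γ i j), hk j (right_mem_fl γ i j)]
  module

/-- **The numerical criterion, first half.** -/
theorem isVeeSystem_of_linSys (hs : span ℝ (Set.range γ) = ⊤)
    (h0 : ∀ i, γ i ≠ 0) (hli : ∀ i j, i ≠ j → LinearIndependent ℝ ![γ i, γ j])
    (hL : LinSys γ (fun i => gram γ i i)) : IsVeeSystem γ where
  ne_zero := h0
  noncollinear := hli
  spans := hs
  vee_cond := by
    intro P hP i hi
    by_cases hex : ∃ j, j ≠ i ∧ γ j ∈ P
    · obtain ⟨j, hji, hj⟩ := hex
      have hPs : P = span ℝ {γ i, γ j} := by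
        symm
        apply Submodule.eq_of_le_of_finrank_le
        · rw [span_le]
          rintro y (rfl | rfl)
          · exact hi
          · exact hj
        · rw [hP, finrank_pair (hli i j (Ne.symm hji))]
      by_cases h3 : 3 ≤ (fl γ i j).card
      · have := isNu_of_linSys hs hli hL (Ne.symm hji) h3
        rw [← hPs] at this
        exact ⟨_, this (γ i) hi⟩
      · push Not at h3
        have h0 := (defect_zero hs hli hL).2 i j (Ne.symm hji) h3
        refine ⟨gram γ i i, ?_⟩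
        have hfl : ({i, j} : Finset ι) = fl γ i j := by
          apply Finset.eq_of_subset_of_card_le
          · intro k hk
            simp only [Finset.mem_insert, Finset.mem_singleton] at hk
            rcases hk with rfl | rfl
            · exact left_mem_fl γ k j
            · exact right_mem_fl γ i k
          · rw [Finset.card_pair (Ne.symm hji)]; omega
        rw [hPs, planeOp_pair, ← hfl, Finset.sum_pair (Ne.symm hji)]
        have e1 : γ j (vee γ (γ i)) = 0 := by
          change gram γ j i = 0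
          rw [gram_sym hs, h0]
        rw [e1, zero_smul, add_zero]
        rfl
    · push Not at hex
      refine ⟨gram γ i i, ?_⟩
      unfold planeOp
      classical
      rw [Finset.sum_eq_single i]
      · rfl
      · intro j hj hji
        rw [Finset.mem_filter] at hj
        exact absurd hj.2 (hex j hji)
      · intro h
        exact absurd (Finset.mem_filter.mpr ⟨Finset.mem_univ i, hi⟩) h

/-- **The numerical criterion, second half.** -/
theorem linSys_of_isVeeSystem (hγ : IsVeeSystem γ)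
    (hmany : ∀ i, ∃ j k, i ≠ j ∧ i ≠ k ∧ 3 ≤ (fl γ i j).card ∧ 3 ≤ (fl γ i k).card ∧
      k ∉ fl γ i j) : LinSys γ (fun i => gram γ i i) := by
  classical
  have hs := hγ.spans
  have hnuF : ∀ i j, i ≠ j → 3 ≤ (fl γ i j).card →
      IsNu γ (span ℝ {γ i, γ j}) ((∑ l ∈ fl γ i j, gram γ l l) / 2) := by
    intro i j hij h3
    obtain ⟨c, hc⟩ := exists_nu hγ hij h3
    have h1 := nu_eq_half hs (hγ.noncollinear i j hij) (ν := c)
      (fun k hk m _ => gram_nu hγ hc hk m)
    rw [← h1.1]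
    exact hc
  have hsys : Sys γ (gram γ) (fun v => (∑ l ∈ v, gram γ l l) / 2) := sys_of hγ _ hnuF hmany
  intro i
  exact hsys.diag_formula i

end Pool.Agent.MP_de770b_mp
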