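import Mathlib
import Pool.Agent.MP_de770b_mp.Global

/-!
The norms of an irreducible vee-system lie in the interior of the matroid polytope.
-/

set_option linter.unusedSectionVars false

namespace Pool.Agent.MP_de770b_mp

open Module Submodule

variable {ι : Type*} [Fintype ι] [DecidableEq ι] {V : Type*} [AddCommGroup V] [Module ℝ V]
  [FiniteDimensional ℝ V] {γ : ι → Dual ℝ V}

/-- the norms add up to the dimension -/
lemma sum_gram_self (hs : span ℝ (Set.range γ) = ⊤) : ∑ i, gram γ i i = finrank ℝ V := by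
  have hid : ∑ i, (γ i).smulRight (vee γ (γ i)) = (LinearMap.id : V →ₗ[ℝ] V) := by
    apply LinearMap.ext
    intro v
    apply eq_of_apply hs
    intro m
    rw [LinearMap.sum_apply, map_sum, LinearMap.id_apply, ← vee_spec hs (γ m) v]
    unfold form
    apply Finset.sum_congr rfl
    intro i _
    rw [LinearMap.smulRight_apply, map_smul, smul_eq_mul]
    change γ i v * gram γ m i = gram γ i m * γ i v
    rw [gram_sym hs m i, mul_comm]
  have h1 := congrArg (LinearMap.trace ℝ V) hid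
  rw [map_sum, LinearMap.trace_id] at h1
  rw [← h1]
  apply Finset.sum_congr rfl
  intro i _
  rw [LinearMap.trace_smulRight]
  rfl

/-- the isometric model in Euclidean space -/
noncomputable def toE (γ : ι → Dual ℝ V) : Dual ℝ V →ₗ[ℝ] EuclideanSpace ℝ ι :=
  (WithLp.linearEquiv 2 ℝ (ι → ℝ)).symm.toLinearMap ∘ₗ evalMap γ

lemma toE_apply (γ : ι → Dual ℝ V) (δ : Dual ℝ V) (j : ι) :
    (toE γ δ) j = δ (vee γ (γ j)) := rfl

lemma toE_self (γ : ι → Dual ℝ V) (i j : ι) : (toE γ (γ i)) j = gram γ i j := rfl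

lemma toE_injective (hs : span ℝ (Set.range γ) = ⊤) : Function.Injective (toE γ) := by
  intro a b hab
  apply evalMap_injective hs
  funext j
  have := congrArg (fun x : EuclideanSpace ℝ ι => x j) hab
  exact this

lemma inner_toE (hs : span ℝ (Set.range γ) = ⊤) (i : ι) {u : EuclideanSpace ℝ ι}
    (hu : u ∈ LinearMap.range (toE γ)) : inner ℝ (toE γ (γ i)) u = u i := by
  obtain ⟨δ, rfl⟩ := hu
  have hδ : δ ∈ span ℝ (Set.range γ) := by rw [hs]; trivial
  have hle : span ℝ (Set.range γ) ≤ LinearMap.ker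
      ((innerₗ (EuclideanSpace ℝ ι) (toE γ (γ i))) ∘ₗ (toE γ)
        - Dual.eval ℝ V (vee γ (γ i))) := by
    rw [span_le]
    rintro _ ⟨j, rfl⟩
    rw [SetLike.mem_coe, LinearMap.mem_ker, LinearMap.sub_apply, LinearMap.comp_apply, sub_eq_zero]
    change inner ℝ (toE γ (γ i)) (toE γ (γ j)) = gram γ j i
    rw [PiLp.inner_apply, gram_sym hs j i, ← gram_idem hs i j]
    apply Finset.sum_congr rfl
    intro l _
    rw [toE_self, toE_self, gram_sym hs l j]
    simp [mul_comm]
  have := hle hδ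
  rw [LinearMap.mem_ker, LinearMap.sub_apply, LinearMap.comp_apply, sub_eq_zero] at this
  exact this

/-- the norms of a proper part add up to less than its rank, for irreducible families -/
theorem sum_lt_rank (hs : span ℝ (Set.range γ) = ⊤) (hirr : IsIrreducible γ) (I : Finset ι)
    (hne : I.Nonempty) (hne' : I ≠ Finset.univ) :
    ∑ i ∈ I, gram γ i i < finrank ℝ (span ℝ (γ '' (I : Set ι))) := by
  set W := span ℝ (γ '' (I : Set ι)) with hW
  set U := W.map (toE γ) with hU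
  have hfin : finrank ℝ U = finrank ℝ W :=
    (LinearEquiv.finrank_eq (Submodule.equivMapOfInjective (toE γ) (toE_injective hs) W)).symm
  set b := stdOrthonormalBasis ℝ U with hb
  have hbr : ∀ l, ((b l : U) : EuclideanSpace ℝ ι) ∈ LinearMap.range (toE γ) := by
    intro l
    obtain ⟨δ, -, hδ⟩ := (b l).2
    exact ⟨δ, hδ⟩
  have hxU : ∀ i ∈ I, toE γ (γ i) ∈ U := fun i hi =>
    ⟨γ i, subset_span ⟨i, hi, rfl⟩, rfl⟩
  have hnorm : ∀ i ∈ I, gram γ i i = ∑ l, ((b l : U) : EuclideanSpace ℝ ι) i ^ 2 := by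
    intro i hi
    have h1 := b.sum_sq_norm_inner_right ⟨toE γ (γ i), hxU i hi⟩
    have h2 : ‖(⟨toE γ (γ i), hxU i hi⟩ : U)‖ ^ 2 = gram γ i i := by
      rw [← real_inner_self_eq_norm_sq]
      change inner ℝ (toE γ (γ i)) (toE γ (γ i)) = _
      rw [inner_toE hs i ⟨γ i, rfl⟩]
      rfl
    rw [← h2, ← h1]
    apply Finset.sum_congr rfl
    intro l _
    rw [Real.norm_eq_abs, sq_abs]
    congr 1
    change inner ℝ ((b l : U) : EuclideanSpace ℝ ι) (toE γ (γ i)) = _
    rw [real_inner_comm, inner_toE hs i (hbr l)]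
  have hone : ∀ l, ∑ i, ((b l : U) : EuclideanSpace ℝ ι) i ^ 2 = 1 := by
    intro l
    have h1 := b.orthonormal.1 l
    have h2 : ‖((b l : U) : EuclideanSpace ℝ ι)‖ ^ 2 = 1 := by
      have : ‖((b l : U) : EuclideanSpace ℝ ι)‖ = 1 := h1
      rw [this]; norm_num
    rw [EuclideanSpace.norm_sq_eq] at h2
    rw [← h2]
    apply Finset.sum_congr rfl
    intro i _
    rw [Real.norm_eq_abs, sq_abs]
  have hsum : ∑ i ∈ I, gram γ i i = ∑ l, ∑ i ∈ I, ((b l : U) : EuclideanSpace ℝ ι) i ^ 2 := by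
    rw [Finset.sum_congr rfl hnorm, Finset.sum_comm]
  have hle : ∀ l, ∑ i ∈ I, ((b l : U) : EuclideanSpace ℝ ι) i ^ 2 ≤ 1 := by
    intro l
    rw [← hone l]
    exact Finset.sum_le_univ_sum_of_nonneg fun i => sq_nonneg _
  rw [hsum, ← hfin]
  have hcard : ∑ _l : Fin (finrank ℝ U), (1 : ℝ) = finrank ℝ U := by simp
  rw [← hcard]
  apply lt_of_le_of_ne (Finset.sum_le_sum fun l _ => hle l)
  intro heq
  have heach : ∀ l, ∑ i ∈ I, ((b l : U) : EuclideanSpace ℝ ι) i ^ 2 = 1 := by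
    have h1 : ∑ l, (1 - ∑ i ∈ I, ((b l : U) : EuclideanSpace ℝ ι) i ^ 2) = 0 := by
      rw [Finset.sum_sub_distrib, heq, sub_self]
    intro l
    have h2 := (Finset.sum_eq_zero_iff_of_nonneg (fun l _ => sub_nonneg.mpr (hle l))).mp h1 l
      (Finset.mem_univ l)
    linarith
  have hzero : ∀ l, ∀ j ∉ I, ((b l : U) : EuclideanSpace ℝ ι) j = 0 := by
    intro l j hj
    have h1 : ∑ i ∈ Iᶜ, ((b l : U) : EuclideanSpace ℝ ι) i ^ 2 = 0 := by
      have h2 := Finset.sum_add_sum_compl I (fun i => ((b l : U) : EuclideanSpace ℝ ι) i ^ 2)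
      rw [heach l, hone l] at h2
      linarith
    have h2 := (Finset.sum_eq_zero_iff_of_nonneg (fun i _ => sq_nonneg _)).mp h1 j
      (Finset.mem_compl.mpr hj)
    exact pow_eq_zero_iff (two_ne_zero) |>.mp h2
  have hzeroU : ∀ u ∈ U, ∀ j ∉ I, u j = 0 := by
    intro u hu j hj
    have h1 := b.sum_repr ⟨u, hu⟩
    have h2 := congrArg (fun w : U => (w : EuclideanSpace ℝ ι) j) h1
    simp only at h2
    rw [← h2]
    rw [Submodule.coe_sum, WithLp.ofLp_sum, Finset.sum_apply]
    apply Finset.sum_eq_zero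
    intro l _
    rw [Submodule.coe_smul, PiLp.smul_apply, hzero l j hj, smul_zero]
  obtain ⟨j0, hj0⟩ : ∃ j, j ∉ I := by
    by_contra hcon
    push Not at hcon
    exact hne' (Finset.eq_univ_iff_forall.mpr hcon)
  obtain ⟨i, hi, j, hj, hij⟩ := irr_gram hs hirr (I : Set ι) hne ⟨j0, hj0⟩
  apply hij
  rw [← toE_self]
  exact hzeroU _ (hxU i hi) j hj

end Pool.Agent.MP_de770b_mp
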