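import Mathlib
import Pool.Agent.MP_de770b_mp.DetScale
import Pool.Agent.MP_de770b_mp.Stable

/-! Existence of rescalings with prescribed norms. -/

set_option linter.unusedSectionVars false

namespace Pool.Agent.MP_de770b_mp

open Module Submodule Matrix

section Potential

variable {ι : Type*} [Fintype ι] [DecidableEq ι] {m : Type*} [Fintype m] [DecidableEq m]

/-- the potential -/
noncomputable def pot (B : ι → m → ℝ) (r : ι → ℝ) (y : ι → ℝ) : ℝ :=
  Real.log (SM B (fun i => Real.exp (y i)) Finset.univ).det - ∑ i, r i * y i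

lemma pot_continuous {B : ι → m → ℝ} (r : ι → ℝ)
    (hB : ∀ u : m → ℝ, (∀ i, B i ⬝ᵥ u = 0) → u = 0) : Continuous (pot B r) := by
  unfold pot
  apply Continuous.sub
  · apply Continuous.log
    · apply Continuous.matrix_det
      unfold SM
      apply continuous_finsetSum
      intro i _
      exact ((Real.continuous_exp.comp (continuous_apply i)).smul continuous_const)
    · intro y
      exact (SM_posDef (fun i _ => Real.exp_pos _) (fun u hu => hB u fun i =>
        hu i (Finset.mem_univ i))).det_pos.ne'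
  · fun_prop

lemma pot_shift {B : ι → m → ℝ} {r : ι → ℝ} (hr : ∑ i, r i = Fintype.card m)
    (hB : ∀ u : m → ℝ, (∀ i, B i ⬝ᵥ u = 0) → u = 0) (y : ι → ℝ) (c : ℝ) :
    pot B r (fun i => y i + c) = pot B r y := by
  unfold pot
  have h1 : SM B (fun i => Real.exp (y i + c)) Finset.univ
      = Real.exp c • SM B (fun i => Real.exp (y i)) Finset.univ := by
    unfold SM
    rw [Finset.smul_sum]
    apply Finset.sum_congr rfl
    intro i _
    rw [smul_smul]
    simp only
    rw [Real.exp_add, mul_comm]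
  have hpos : 0 < (SM B (fun i => Real.exp (y i)) Finset.univ).det :=
    (SM_posDef (fun i _ => Real.exp_pos _) (fun u hu => hB u fun i =>
      hu i (Finset.mem_univ i))).det_pos
  rw [h1, det_smul, Real.log_mul (pow_ne_zero _ (Real.exp_pos c).ne') hpos.ne', Real.log_pow,
    Real.log_exp]
  have h2 : ∑ i, r i * (y i + c) = ∑ i, r i * y i + Fintype.card m * c := by
    rw [← hr, Finset.sum_mul, ← Finset.sum_add_distrib]
    exact Finset.sum_congr rfl fun i _ => by ring
  rw [h2]
  ring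

lemma pot_step {B : ι → m → ℝ} {r : ι → ℝ}
    (hB : ∀ u : m → ℝ, (∀ i, B i ⬝ᵥ u = 0) → u = 0) (y : ι → ℝ) (i : ι) (h : ℝ) :
    let g := Real.exp (y i) * (B i ⬝ᵥ (SM B (fun i => Real.exp (y i)) Finset.univ)⁻¹ *ᵥ B i)
    0 < 1 + (Real.exp h - 1) * g ∧
    pot B r (Function.update y i (y i + h)) - pot B r y
      = Real.log (1 + (Real.exp h - 1) * g) - r i * h := by
  intro g
  set w : ι → ℝ := fun i => Real.exp (y i) with hw
  have hpd : ∀ z : ι → ℝ, (SM B (fun i => Real.exp (z i)) Finset.univ).PosDef := fun z =>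
    SM_posDef (fun i _ => Real.exp_pos _) (fun u hu => hB u fun i => hu i (Finset.mem_univ i))
  have h1 : SM B (fun j => Real.exp (Function.update y i (y i + h) j)) Finset.univ
      = SM B w Finset.univ + ((Real.exp h - 1) * Real.exp (y i)) • r1 (B i) := by
    unfold SM
    rw [← Finset.add_sum_erase Finset.univ (fun j => Real.exp (Function.update y i (y i + h) j)
      • r1 (B j)) (Finset.mem_univ i), ← Finset.add_sum_erase Finset.univ (fun j => w j
      • r1 (B j)) (Finset.mem_univ i), Function.update_self]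
    have : ∑ j ∈ Finset.univ.erase i, Real.exp (Function.update y i (y i + h) j) • r1 (B j)
        = ∑ j ∈ Finset.univ.erase i, w j • r1 (B j) := by
      apply Finset.sum_congr rfl
      intro j hj
      rw [Function.update_of_ne (Finset.ne_of_mem_erase hj)]
    rw [this, Real.exp_add]
    have e : (Real.exp (y i) * Real.exp h) • r1 (B i)
        = w i • r1 (B i) + ((Real.exp h - 1) * Real.exp (y i)) • r1 (B i) := by
      rw [← add_smul]
      congr 1
      simp only [hw]
      ring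
    rw [e]
    abel
  have h2 := det_add_r1 (hpd y) ((Real.exp h - 1) * Real.exp (y i)) (B i)
  have hp1 := (hpd y).det_pos
  have hp2 := (hpd (Function.update y i (y i + h))).det_pos
  rw [h1, h2] at hp2
  have e3 : 1 + (Real.exp h - 1) * Real.exp (y i)
        * (B i ⬝ᵥ (SM B (fun i => Real.exp (y i)) Finset.univ)⁻¹ *ᵥ B i)
      = 1 + (Real.exp h - 1) * g := by
    simp only [g]; ring
  rw [e3] at hp2 h2
  have hg : 0 < 1 + (Real.exp h - 1) * g := (pos_iff_pos_of_mul_pos hp2).mp hp1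
  refine ⟨hg, ?_⟩
  unfold pot
  rw [h1, h2, Real.log_mul hp1.ne' hg.ne']
  have h4 : ∑ j, r j * Function.update y i (y i + h) j = ∑ j, r j * y j + r i * h := by
    rw [← Finset.add_sum_erase Finset.univ (fun j => r j * Function.update y i (y i + h) j)
      (Finset.mem_univ i), ← Finset.add_sum_erase Finset.univ (fun j => r j * y j)
      (Finset.mem_univ i), Function.update_self]
    have : ∑ j ∈ Finset.univ.erase i, r j * Function.update y i (y i + h) j
        = ∑ j ∈ Finset.univ.erase i, r j * y j := by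
      apply Finset.sum_congr rfl
      intro j hj
      rw [Function.update_of_ne (Finset.ne_of_mem_erase hj)]
    rw [this]
    ring
  rw [h4]
  ring

/-- first order condition at a minimum -/
lemma pot_crit {B : ι → m → ℝ} {r : ι → ℝ}
    (hB : ∀ u : m → ℝ, (∀ i, B i ⬝ᵥ u = 0) → u = 0) {y : ι → ℝ}
    (hmin : ∀ z, pot B r y ≤ pot B r z) (i : ι) :
    Real.exp (y i) * (B i ⬝ᵥ (SM B (fun i => Real.exp (y i)) Finset.univ)⁻¹ *ᵥ B i) = r i := by
  set g := Real.exp (y i) * (B i ⬝ᵥ (SM B (fun i => Real.exp (y i)) Finset.univ)⁻¹ *ᵥ B i)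
    with hg
  set φ : ℝ → ℝ := fun h => Real.log (1 + (Real.exp h - 1) * g) - r i * h with hφ
  have h0 : φ 0 = 0 := by simp [hφ]
  have h1 : ∀ h, φ 0 ≤ φ h := by
    intro h
    have h2 := (pot_step (r := r) hB y i h).2
    rw [h0]
    change 0 ≤ Real.log (1 + (Real.exp h - 1) * g) - r i * h
    rw [← h2]
    have := hmin (Function.update y i (y i + h))
    linarith
  have hder : HasDerivAt φ (g - r i) 0 := by
    have e1 : HasDerivAt (fun h : ℝ => 1 + (Real.exp h - 1) * g) (Real.exp 0 * g) 0 := by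
      have := ((Real.hasDerivAt_exp 0).sub_const 1).mul_const g
      exact this.const_add 1
    have e2 := e1.log (by simp)
    have e3 : HasDerivAt (fun h : ℝ => r i * h) (r i * 1) 0 := (hasDerivAt_id 0).const_mul (r i)
    have e4 := e2.sub e3
    have e5 : Real.exp 0 * g / (1 + (Real.exp 0 - 1) * g) - r i * 1 = g - r i := by simp
    rw [e5] at e4
    exact e4
  have hloc : IsLocalMin φ 0 := Filter.Eventually.of_forall h1
  have := hloc.hasDerivAt_eq_zero hder
  linarith

/-- existence of a global minimum -/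
lemma pot_exists_min {B : ι → m → ℝ} {r : ι → ℝ} (hr : ∑ i, r i = Fintype.card m)
    (hB : ∀ u : m → ℝ, (∀ i, B i ⬝ᵥ u = 0) → u = 0) {δ C : ℝ} (hδ : 0 < δ)
    (hlow : ∀ (y : ι → ℝ) (p q : ι), (∀ i, y i ≤ y p) → (∀ i, y q ≤ y i) →
      C + δ * (y p - y q) ≤ pot B r y) :
    ∃ y, ∀ z, pot B r y ≤ pot B r z := by
  rcases isEmpty_or_nonempty ι with he | hne
  · refine ⟨fun i => he.elim i, fun z => ?_⟩
    have : (fun i => he.elim i) = z := funext fun i => he.elim i
    rw [this]
  obtain ⟨i0⟩ := hne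
  have : Nonempty ι := ⟨i0⟩
  set Y : Set (ι → ℝ) := {y | y i0 = 0 ∧ pot B r y ≤ pot B r 0} with hY
  have hcl : IsClosed Y := by
    apply IsClosed.inter
    · exact isClosed_eq (continuous_apply i0) continuous_const
    · exact isClosed_le (pot_continuous r hB) continuous_const
  have hbd : Bornology.IsBounded Y := by
    rw [isBounded_iff_forall_norm_le]
    refine ⟨(pot B r 0 - C) / δ, ?_⟩
    rintro y ⟨hy0, hy⟩
    obtain ⟨p, hp⟩ := Finite.exists_max y
    obtain ⟨q, hq⟩ := Finite.exists_min y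
    have h1 := hlow y p q hp hq
    have h2 : y p - y q ≤ (pot B r 0 - C) / δ := by
      rw [le_div_iff₀ hδ]
      linarith
    have hp0 : 0 ≤ y p := hy0 ▸ hp i0
    have hq0 : y q ≤ 0 := hy0 ▸ hq i0
    rw [pi_norm_le_iff_of_nonneg (by linarith)]
    intro i
    rw [Real.norm_eq_abs, abs_le]
    have := hp i
    have := hq i
    constructor <;> linarith
  have hcomp : IsCompact Y := Metric.isCompact_of_isClosed_isBounded hcl hbd
  obtain ⟨y, hyY, hymin⟩ := hcomp.exists_isMinOn ⟨0, by simp [hY]⟩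
    (pot_continuous r hB).continuousOn
  refine ⟨y, fun z => ?_⟩
  have h1 := pot_shift (r := r) hr hB z (-(z i0))
  rw [← h1]
  by_cases hz : pot B r (fun i => z i + -(z i0)) ≤ pot B r 0
  · exact hymin (show (fun i => z i + -(z i0)) ∈ Y from ⟨by simp, hz⟩)
  · push Not at hz
    exact hyY.2.trans hz.le

end Potential

section Scale

variable {ι : Type*} [Fintype ι] [DecidableEq ι] {V : Type*} [AddCommGroup V] [Module ℝ V]
  [FiniteDimensional ℝ V]

/-- **Existence of rescalings with prescribed norms.** -/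
theorem exists_rescaling (x : ι → Dual ℝ V) (hs : span ℝ (Set.range x) = ⊤) (r : ι → ℝ)
    (hr : ∑ i, r i = finrank ℝ V)
    (hgap : ∀ I : Finset ι, I.Nonempty → I ≠ Finset.univ →
      ∑ i ∈ I, r i < finrank ℝ (span ℝ (x '' (I : Set ι)))) :
    ∃ t : ι → ℝ, (∀ i, 0 < t i) ∧ ∀ i, gram (fun i => t i • x i) i i = r i := by
  classical
  have hdim : finrank ℝ (Dual ℝ V) = finrank ℝ V := Subspace.dual_finrank_eq
  set e : Basis (Fin (finrank ℝ (Dual ℝ V))) ℝ V :=
    (finBasis ℝ V).reindex (finCongr hdim.symm) with he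
  set B : ι → Fin (finrank ℝ (Dual ℝ V)) → ℝ := fun i k => x i (e k) with hBdef
  have hxu : ∀ i (u : Fin (finrank ℝ (Dual ℝ V)) → ℝ), x i (∑ k, u k • e k) = B i ⬝ᵥ u := by
    intro i u
    rw [map_sum]
    simp only [map_smul, smul_eq_mul, dotProduct, hBdef]
    exact Finset.sum_congr rfl fun k _ => mul_comm _ _
  have hkill : ∀ (S : Set (Dual ℝ V)), span ℝ S = ⊤ → ∀ u : Fin (finrank ℝ (Dual ℝ V)) → ℝ,
      (∀ f ∈ S, f (∑ k, u k • e k) = 0) → u = 0 := by
    intro S hS u hu
    have h1 : ∀ f : Dual ℝ V, f (∑ k, u k • e k) = 0 := by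
      intro f
      have hf : f ∈ span ℝ S := by rw [hS]; trivial
      have hle : span ℝ S ≤ LinearMap.ker (Dual.eval ℝ V (∑ k, u k • e k)) := by
        rw [span_le]
        intro g hg
        simpa using hu g hg
      exact hle hf
    have h2 := (Module.forall_dual_apply_eq_zero_iff ℝ _).mp h1
    funext k
    have h3 := congrArg (fun v => e.repr v k) h2
    simpa [map_sum, Finsupp.single_apply] using h3
  have hB : ∀ u : Fin (finrank ℝ (Dual ℝ V)) → ℝ, (∀ i, B i ⬝ᵥ u = 0) → u = 0 := by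
    intro u hu
    apply hkill (Set.range x) hs u
    rintro _ ⟨i, rfl⟩
    rw [hxu, hu i]
  -- uniform gap
  obtain ⟨δ, hδ, hδgap⟩ : ∃ δ > 0, ∀ I : Finset ι, I.Nonempty → I ≠ Finset.univ →
      ∑ i ∈ I, r i + δ ≤ finrank ℝ (span ℝ (x '' (I : Set ι))) := by
    set 𝓘 : Finset (Finset ι) := Finset.univ.filter (fun I => I.Nonempty ∧ I ≠ Finset.univ)
    by_cases hne : 𝓘.Nonempty
    · obtain ⟨I0, hI0, hmin⟩ := Finset.exists_min_image 𝓘
        (fun I => (finrank ℝ (span ℝ (x '' (I : Set ι))) : ℝ) - ∑ i ∈ I, r i) hne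
      obtain ⟨-, h1, h2⟩ := Finset.mem_filter.mp hI0
      refine ⟨(finrank ℝ (span ℝ (x '' (I0 : Set ι))) : ℝ) - ∑ i ∈ I0, r i,
        by have := hgap I0 h1 h2; linarith, ?_⟩
      intro I h3 h4
      have := hmin I (Finset.mem_filter.mpr ⟨Finset.mem_univ I, h3, h4⟩)
      linarith
    · refine ⟨1, one_pos, fun I h3 h4 => ?_⟩
      exact absurd ⟨I, Finset.mem_filter.mpr ⟨Finset.mem_univ I, h3, h4⟩⟩ hne
  -- a uniform lower bound for the determinants
  set Bd : (Fin (finrank ℝ (Dual ℝ V)) → ι) → ℝ :=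
    fun σ => (Matrix.of (fun a k => B (σ a) k)).det ^ 2 with hBd
  have hdet : ∀ σ : Fin (finrank ℝ (Dual ℝ V)) → ι, LinearIndependent ℝ (x ∘ σ) →
      (Matrix.of (fun a k => B (σ a) k)).det ≠ 0 := by
    intro σ hσ hcon
    obtain ⟨u, hu0, hu⟩ := Matrix.exists_mulVec_eq_zero_iff.mpr hcon
    apply hu0
    have hspan : span ℝ (Set.range (x ∘ σ)) = ⊤ :=
      hσ.span_eq_top_of_card_eq_finrank' (by simp)
    apply hkill _ hspan u
    rintro _ ⟨a, rfl⟩
    rw [Function.comp_apply, hxu]
    exact congrFun hu a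
  obtain ⟨c, hc, hcB⟩ : ∃ c > 0, ∀ σ : Fin (finrank ℝ (Dual ℝ V)) → ι,
      LinearIndependent ℝ (x ∘ σ) → c ≤ Bd σ := by
    obtain ⟨σ0, hσ0⟩ := exists_basis_index x hs
    have : Nonempty {σ : Fin (finrank ℝ (Dual ℝ V)) → ι // LinearIndependent ℝ (x ∘ σ)} :=
      ⟨⟨σ0, hσ0⟩⟩
    obtain ⟨⟨σ1, hσ1⟩, hmin⟩ := Finite.exists_min
      (fun σ : {σ : Fin (finrank ℝ (Dual ℝ V)) → ι // LinearIndependent ℝ (x ∘ σ)} => Bd σ.1)
    exact ⟨Bd σ1, by have := hdet σ1 hσ1; positivity, fun σ hσ => hmin ⟨σ, hσ⟩⟩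
  have hlow : ∀ (y : ι → ℝ) (p q : ι), (∀ i, y i ≤ y p) → (∀ i, y q ≤ y i) →
      Real.log c + δ * (y p - y q) ≤ pot B r y := by
    intro y p q hp hq
    obtain ⟨σ, hσ, hgr⟩ := greedy_gap x hs r (by rw [hr, hdim]) δ hδgap y hp hq
    have hinj : Function.Injective σ := by
      have := hσ.injective
      exact Function.Injective.of_comp this
    have h1 := det_SM_lower (w := fun i => Real.exp (y i)) (fun i => Real.exp_pos _) hinj
      (hdet σ hσ)
    have h2 : c * Real.exp (∑ a, y (σ a))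
        ≤ (SM B (fun i => Real.exp (y i)) Finset.univ).det := by
      refine le_trans ?_ h1
      rw [← Real.exp_sum]
      exact mul_le_mul_of_nonneg_right (hcB σ hσ) (Real.exp_pos _).le
    have h3 := Real.log_le_log (by positivity) h2
    rw [Real.log_mul hc.ne' (Real.exp_pos _).ne', Real.log_exp] at h3
    unfold pot
    linarith
  obtain ⟨y, hy⟩ := pot_exists_min (B := B) (r := r) (by rw [hr, Fintype.card_fin, hdim]) hB hδ hlow
  have hcrit := pot_crit hB hy
  refine ⟨fun i => Real.exp (y i / 2), fun i => Real.exp_pos _, fun i => ?_⟩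
  rw [← hcrit i]
  set S := SM B (fun i => Real.exp (y i)) Finset.univ with hS
  have hSpd : S.PosDef := SM_posDef (fun i _ => Real.exp_pos _)
    (fun u hu => hB u fun i => hu i (Finset.mem_univ i))
  set z : ι → Dual ℝ V := fun i => Real.exp (y i / 2) • x i with hz
  have hzs : span ℝ (Set.range z) = ⊤ := by
    rw [eq_top_iff, ← hs, span_le]
    rintro _ ⟨j, rfl⟩
    have : x j = (Real.exp (y j / 2))⁻¹ • z j := by
      rw [hz]
      simp only
      rw [smul_smul, inv_mul_cancel₀ (Real.exp_pos _).ne', one_smul]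
    rw [this]
    exact Submodule.smul_mem _ _ (subset_span ⟨j, rfl⟩)
  set u : Fin (finrank ℝ (Dual ℝ V)) → ℝ := S⁻¹ *ᵥ (Real.exp (y i / 2) • B i) with hu
  have hSu : S *ᵥ u = Real.exp (y i / 2) • B i := by
    rw [hu, Matrix.mulVec_mulVec, Matrix.mul_nonsing_inv _
      (isUnit_iff_ne_zero.mpr hSpd.det_pos.ne'), Matrix.one_mulVec]
  have hvee : vee z (z i) = ∑ k, u k • e k := by
    apply formL_injective hzs
    ext v
    rw [formL_apply, vee_spec hzs, formL_apply]
    obtain ⟨u', rfl⟩ : ∃ u' : Fin (finrank ℝ (Dual ℝ V)) → ℝ, v = ∑ k, u' k • e k :=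
      ⟨fun k => e.repr v k, (e.sum_repr v).symm⟩
    unfold form
    have h1 : ∀ j, z j (∑ k, u k • e k) * z j (∑ k, u' k • e k)
        = (Real.exp (y j) * (B j ⬝ᵥ u)) * (B j ⬝ᵥ u') := by
      intro j
      have : Real.exp (y j) = Real.exp (y j / 2) * Real.exp (y j / 2) := by
        rw [← Real.exp_add]; ring_nf
      rw [this]
      simp only [hz, LinearMap.smul_apply, hxu, smul_eq_mul]
      ring
    rw [Finset.sum_congr rfl fun j _ => h1 j]
    have h2 : z i (∑ k, u' k • e k) = (Real.exp (y i / 2) • B i) ⬝ᵥ u' := by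
      simp only [hz, LinearMap.smul_apply, hxu, smul_dotProduct]
    rw [h2, ← hSu, hS, SM_mulVec, sum_dotProduct]
    exact Finset.sum_congr rfl fun j _ => by rw [smul_dotProduct, smul_eq_mul]
  unfold gram
  rw [hvee]
  have h3 : z i (∑ k, u k • e k) = Real.exp (y i / 2) * (B i ⬝ᵥ u) := by
    simp only [hz, LinearMap.smul_apply, hxu, smul_eq_mul]
  rw [h3, hu, mulVec_smul, dotProduct_smul, smul_eq_mul, ← mul_assoc, ← Real.exp_add]
  congr 2
  ring

end Scale

end Pool.Agent.MP_de770b_mp
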