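import Mathlib

/-!
An algebraic set all of whose points in `Z` have zero tangent space has finitely many points in `Z`.
-/

namespace Pool.Agent.MP_de770b_mp

open MvPolynomial

variable {σ : Type*}

/-- the dual number point `K + ε H` -/
noncomputable def dualPt (K H : σ → ℝ) : σ → TrivSqZeroExt ℝ ℝ :=
  fun s => TrivSqZeroExt.inl (K s) + TrivSqZeroExt.inr (H s)

lemma fst_aeval_dualPt (K H : σ → ℝ) (f : MvPolynomial σ ℝ) :
    (aeval (dualPt K H) f).fst = eval K f := by
  have : ((TrivSqZeroExt.fstHom ℝ ℝ ℝ).comp (aeval (dualPt K H))) = aeval K := by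
    apply MvPolynomial.algHom_ext
    intro s
    simp [dualPt]
  have h2 := congrArg (fun φ => φ f) this
  simpa using h2

theorem finite_of_rigid [Finite σ] (I : Ideal (MvPolynomial σ ℝ)) (Z : Set (σ → ℝ))
    (hI : ∀ K ∈ Z, ∀ f ∈ I, eval K f = 0)
    (hr : ∀ K ∈ Z, ∀ H : σ → ℝ, (∀ f ∈ I, aeval (dualPt K H) f = 0) → H = 0) : Z.Finite := by
  -- the maximal ideals
  set m : (σ → ℝ) → Ideal (MvPolynomial σ ℝ) := fun K => RingHom.ker (eval K) with hm
  have hmem : ∀ K f, f ∈ m K ↔ eval K f = 0 := fun K f => RingHom.mem_ker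
  have hXm : ∀ K t, (X t - C (K t) : MvPolynomial σ ℝ) ∈ m K := by
    intro K t
    rw [hmem]; simp
  have hprime : ∀ K, (m K).IsPrime := fun K => RingHom.ker_isPrime _
  -- key claim
  have hkey : ∀ K ∈ Z, m K ≤ I ⊔ m K * m K := by
    intro K hK
    have hX : ∀ t, (X t - C (K t) : MvPolynomial σ ℝ) ∈ I ⊔ m K * m K := by
      intro t
      by_contra hnot
      have hnot' : (X t - C (K t) : MvPolynomial σ ℝ) ∉ (I ⊔ m K * m K).restrictScalars ℝ := hnot
      obtain ⟨ℓ, hℓ1, hℓ2⟩ := Submodule.exists_le_ker_of_notMem hnot'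
      set H : σ → ℝ := fun s => ℓ (X s - C (K s)) with hH
      have hℓI : ∀ f ∈ I, ℓ f = 0 := fun f hf => hℓ2 (show f ∈ I ⊔ m K * m K from
        Ideal.mem_sup_left hf)
      have hℓm : ∀ f g, f ∈ m K → g ∈ m K → ℓ (f * g) = 0 := fun f g hf hg =>
        hℓ2 (show f * g ∈ I ⊔ m K * m K from Ideal.mem_sup_right (Ideal.mul_mem_mul hf hg))
      have hder : ∀ f : MvPolynomial σ ℝ, (aeval (dualPt K H) f).snd = ℓ (f - C (eval K f)) := by
        intro f
        induction f using MvPolynomial.induction_on with
        | C a =>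
          rw [eval_C, sub_self, map_zero, aeval_C, TrivSqZeroExt.algebraMap_eq_inl]
          simp
        | add p q hp hq =>
          rw [map_add, TrivSqZeroExt.snd_add, hp, hq, ← map_add]
          congr 1
          rw [map_add, map_add]; ring
        | mul_X p s hp =>
          have e1 : p * X s - C (eval K (p * X s))
              = (p - C (eval K p)) * (X s - C (K s)) + (K s) • (p - C (eval K p))
                + (eval K p) • (X s - C (K s)) := by
            rw [map_mul, eval_X, C_mul, MvPolynomial.smul_eq_C_mul, MvPolynomial.smul_eq_C_mul]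
            ring
          have e2 : p - C (eval K p) ∈ m K := by rw [hmem]; simp
          rw [e1, map_add, map_add, hℓm _ _ e2 (hXm K s), map_smul, map_smul, map_mul,
            TrivSqZeroExt.snd_mul, hp, fst_aeval_dualPt, aeval_X]
          simp only [dualPt, TrivSqZeroExt.snd_add, TrivSqZeroExt.snd_inl, TrivSqZeroExt.snd_inr,
            TrivSqZeroExt.fst_add, TrivSqZeroExt.fst_inl, TrivSqZeroExt.fst_inr, smul_eq_mul,
            MulOpposite.smul_eq_mul_unop, MulOpposite.unop_op, hH]
          ring
      have hH0 : H = 0 := by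
        apply hr K hK
        intro f hf
        have h1 := fst_aeval_dualPt K H f
        have h2 := hder f
        rw [hI K hK f hf] at h1 h2
        rw [map_zero, sub_zero, hℓI f hf] at h2
        exact TrivSqZeroExt.ext h1 h2
      apply hℓ1
      exact congrFun hH0 t
    intro f hf
    rw [hmem] at hf
    rw [← Ideal.Quotient.eq_zero_iff_mem]
    have hhom : (Ideal.Quotient.mk (I ⊔ m K * m K)) =
        ((Ideal.Quotient.mk (I ⊔ m K * m K)).comp C).comp (eval K) := by
      apply MvPolynomial.ringHom_ext
      · intro r; simp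
      · intro s
        simp only [RingHom.comp_apply, eval_X]
        exact (Ideal.Quotient.mk_eq_mk_iff_sub_mem _ _).mpr (hX s)
    rw [hhom]
    simp [hf]
  have hmin : ∀ K ∈ Z, m K ∈ I.minimalPrimes := by
    intro K hK
    refine ⟨⟨hprime K, fun f hf => (hmem K f).mpr (hI K hK f hf)⟩, ?_⟩
    rintro P ⟨hP, hIP⟩ hPm
    -- pass to the quotient by `P`
    have hidem : IsIdempotentElem ((m K).map (Ideal.Quotient.mk P)) := by
      apply le_antisymm
      · exact Ideal.mul_le_left
      · rw [← Ideal.map_mul]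
        have h1 := Ideal.map_mono (f := Ideal.Quotient.mk P) (hkey K hK)
        rw [Ideal.map_sup] at h1
        have h2 : I.map (Ideal.Quotient.mk P) = ⊥ := by
          rw [Ideal.map_eq_bot_iff_le_ker, Ideal.mk_ker]; exact hIP
        rw [h2, bot_sup_eq] at h1
        exact h1
    have hfg : ((m K).map (Ideal.Quotient.mk P)).FG := (isNoetherianRing_iff_ideal_fg _).mp
      inferInstance _
    rcases (Ideal.isIdempotentElem_iff_eq_bot_or_top _ hfg).mp hidem with h | h
    · rw [Ideal.map_eq_bot_iff_le_ker, Ideal.mk_ker] at h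
      exact h
    · exfalso
      have h1 : Ideal.comap (Ideal.Quotient.mk P) ((m K).map (Ideal.Quotient.mk P)) = ⊤ := by
        rw [h, Ideal.comap_top]
      rw [Ideal.comap_map_of_surjective _ Ideal.Quotient.mk_surjective, ← RingHom.ker_eq_comap_bot,
        Ideal.mk_ker, sup_eq_left.mpr hPm] at h1
      exact (hprime K).ne_top h1
  have hfin : (I.minimalPrimes).Finite := Ideal.finite_minimalPrimes_of_isNoetherianRing _ I
  apply Set.Finite.of_finite_image (f := m)
  · exact hfin.subset (by rintro _ ⟨K, hK, rfl⟩; exact hmin K hK)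
  · intro K _ K' _ hKK
    funext t
    have h1 := hXm K t
    have hKK' : m K = m K' := hKK
    rw [hKK', hmem] at h1
    simp at h1
    linarith

end Pool.Agent.MP_de770b_mp
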