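import Mathlib
import Pool.Agent.MP_de770b_mp.Diag
import Pool.Agent.MP_de770b_mp.FiniteZeros
import Pool.Agent.MP_de770b_mp.ToSys

/-! Finiteness of the number of Gram matrices. -/

set_option linter.unusedSectionVars false

namespace Pool.Agent.MP_de770b_mp

open Module Submodule MvPolynomial

variable {ι : Type*} [Fintype ι] [DecidableEq ι] {V : Type*} [AddCommGroup V] [Module ℝ V]
  [FiniteDimensional ℝ V]

/-- the matrices `K` belonging to a fixed system of flats and a fixed function `nu` are finitely
many -/
theorem finite_gram {W : Type*} [AddCommGroup W] [Module ℝ W] [FiniteDimensional ℝ W]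
    (F : ι → ι → Finset ι) (nu : Finset ι → ℝ) :
    {K : Matrix ι ι ℝ | ∃ x : ι → W, Sys x K nu ∧ ∀ i j, i ≠ j → fl x i j = F i j}.Finite := by
  classical
  set Z0 : Set (Matrix ι ι ℝ) :=
    {K | ∃ x : ι → W, Sys x K nu ∧ ∀ i j, i ≠ j → fl x i j = F i j} with hZ0
  set toFun : Matrix ι ι ℝ → (ι × ι → ℝ) := fun K p => K p.1 p.2 with htoFun
  have hinj : Function.Injective toFun := by
    intro K K' h
    ext i j
    exact congrFun h (i, j)
  suffices h : (toFun '' Z0).Finite from Set.Finite.of_finite_image h hinj.injOn
  set I : Ideal (MvPolynomial (ι × ι) ℝ) := ⨅ K ∈ toFun '' Z0, RingHom.ker (eval K) with hI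
  have hmemI : ∀ f, f ∈ I ↔ ∀ K ∈ Z0, eval (toFun K) f = 0 := by
    intro f
    simp only [hI, Ideal.mem_iInf, Set.forall_mem_image, RingHom.mem_ker]
  apply finite_of_rigid I (toFun '' Z0)
  · rintro _ ⟨K, hK, rfl⟩ f hf
    exact (hmemI f).mp hf K hK
  · rintro _ ⟨K, hK, rfl⟩ H hH
    obtain ⟨x, hsys, hfl⟩ := hK
    set Hm : Matrix ι ι ℝ := fun i j => H (i, j) with hHm
    have hd : ∀ i j, dualPt (toFun K) H (i, j)
        = TrivSqZeroExt.inl (K i j) + TrivSqZeroExt.inr (Hm i j) := fun i j => rfl
    have hsnd : ∀ f, f ∈ I → (aeval (dualPt (toFun K) H) f).snd = 0 := by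
      intro f hf
      rw [hH f hf]; rfl
    have hmul : ∀ a b c d : ι, (dualPt (toFun K) H (a, b) * dualPt (toFun K) H (c, d)).snd
        = K a b * Hm c d + K c d * Hm a b := by
      intro a b c d
      rw [hd, hd, TrivSqZeroExt.snd_mul]
      simp [mul_comm]
    have hone : ∀ a b : ι, (dualPt (toFun K) H (a, b)).snd = Hm a b := by
      intro a b
      rw [hd]; simp
    have hT : Sys.Tangent x K nu Hm := by
      constructor
      · -- symmetry
        ext i j
        have h1 := hsnd (X (i, j) - X (j, i)) ((hmemI _).mpr (by
          intro K1 hK1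
          obtain ⟨x1, h1, -⟩ := hK1
          rw [map_sub, eval_X, eval_X]
          simp only [htoFun]
          rw [h1.sym' i j, sub_self]))
        rw [map_sub, aeval_X, aeval_X, TrivSqZeroExt.snd_sub, hone, hone] at h1
        rw [Matrix.transpose_apply]
        linarith
      · -- idempotent
        ext i j
        have h1 := hsnd (∑ l, X (i, l) * X (l, j) - X (i, j)) ((hmemI _).mpr (by
          intro K1 hK1
          obtain ⟨x1, h1, -⟩ := hK1
          rw [map_sub, map_sum, eval_X]
          simp only [map_mul, eval_X, htoFun]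
          have := congrFun (congrFun h1.idem i) j
          rw [Matrix.mul_apply] at this
          rw [this, sub_self]))
        rw [map_sub, map_sum, aeval_X, TrivSqZeroExt.snd_sub, hone, TrivSqZeroExt.snd_sum] at h1
        simp only [map_mul, aeval_X, hmul] at h1
        rw [Matrix.add_apply, Matrix.mul_apply, Matrix.mul_apply, ← Finset.sum_add_distrib]
        have h2 : ∑ l, (K i l * Hm l j + Hm i l * K l j)
            = ∑ l, (K i l * Hm l j + K l j * Hm i l) :=
          Finset.sum_congr rfl fun l _ => by ring
        rw [h2]; linarith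
      · -- diagonal
        intro i
        have h1 := hsnd (X (i, i) - C (K i i)) ((hmemI _).mpr (by
          intro K1 hK1
          obtain ⟨x1, h1, h2⟩ := hK1
          rw [map_sub, eval_X, eval_C]
          simp only [htoFun]
          rw [hsys.diag_unique h1 (fun a b hab => by rw [hfl a b hab, h2 a b hab]) i, sub_self]))
        rw [map_sub, aeval_X, aeval_C, TrivSqZeroExt.algebraMap_eq_inl, TrivSqZeroExt.snd_sub,
          hone] at h1
        simpa using h1
      · -- planes with two covectors
        intro i j hij hc
        have h1 := hsnd (X (i, j)) ((hmemI _).mpr (by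
          intro K1 hK1
          obtain ⟨x1, h1, h2⟩ := hK1
          rw [eval_X]
          exact h1.two i j hij (by rw [h2 i j hij, ← hfl i j hij]; exact hc)))
        rw [aeval_X, hone] at h1
        exact h1
      · -- planes with at least three covectors
        intro i j hij h3 k hk m hm
        have h1 := hsnd (∑ l ∈ fl x i j, X (k, l) * X (l, m) - C (nu (fl x i j)) * X (k, m))
          ((hmemI _).mpr (by
          intro K1 hK1
          obtain ⟨x1, h1, h2⟩ := hK1
          rw [map_sub, map_sum]
          simp only [map_mul, eval_X, eval_C, htoFun]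
          have he : fl x i j = fl x1 i j := by rw [hfl i j hij, h2 i j hij]
          rw [he] at h3 hk ⊢
          rw [h1.nuF i j hij h3 k hk m, sub_self]))
        rw [map_sub, map_sum, TrivSqZeroExt.snd_sub, TrivSqZeroExt.snd_sum] at h1
        simp only [map_mul, aeval_X, hmul, aeval_C, TrivSqZeroExt.algebraMap_eq_inl,
          TrivSqZeroExt.snd_mul, TrivSqZeroExt.fst_inl, TrivSqZeroExt.snd_inl, hone] at h1
        have h2 : ∑ l ∈ fl x i j, (Hm k l * K l m + K k l * Hm l m)
            = ∑ l ∈ fl x i j, (K k l * Hm l m + K l m * Hm k l) :=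
          Finset.sum_congr rfl fun l _ => by ring
        rw [h2]
        simp at h1
        linarith
    have h0 := hsys.rigid hT
    funext ⟨i, j⟩
    exact congrFun (congrFun h0 i) j

end Pool.Agent.MP_de770b_mp
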