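import Mathlib
import Pool.Agent.MP_de770b_mp.Finite

/-! The finiteness theorem and the local uniqueness theorem. -/

set_option linter.unusedSectionVars false

namespace Pool.Agent.MP_de770b_mp

open Module Submodule

variable {ι : Type*} [Fintype ι] {V : Type*} [AddCommGroup V] [Module ℝ V]
  [FiniteDimensional ℝ V]

lemma span_image_fl (γ : ι → Dual ℝ V) (i j : ι) :
    span ℝ (γ '' (fl γ i j : Set ι)) = span ℝ {γ i, γ j} := by
  apply le_antisymm
  · rw [span_le]
    rintro _ ⟨k, hk, rfl⟩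
    exact mem_fl.mp (by exact_mod_cast hk)
  · rw [span_le]
    rintro _ (rfl | rfl)
    · exact subset_span ⟨i, by exact_mod_cast left_mem_fl γ i j, rfl⟩
    · exact subset_span ⟨j, by exact_mod_cast right_mem_fl γ i j, rfl⟩

/-- the value of the nu-function on a flat -/
noncomputable def nuFun (α : ι → Dual ℝ V) (v : Finset ι) : ℝ :=
  Classical.epsilon fun c => IsNu α (span ℝ (α '' (v : Set ι))) c

lemma nuFun_spec {α : ι → Dual ℝ V} (hα : IsVeeSystem α) {i j : ι} (hij : i ≠ j)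
    (h3 : 3 ≤ (fl α i j).card) : IsNu α (span ℝ {α i, α j}) (nuFun α (fl α i j)) := by
  classical
  have hex : ∃ c, IsNu α (span ℝ (α '' (fl α i j : Set ι))) c := by
    rw [span_image_fl]
    exact exists_nu hα hij h3
  have key : IsNu α (span ℝ (α '' (fl α i j : Set ι))) (nuFun α (fl α i j)) :=
    Classical.epsilon_spec hex
  rw [span_image_fl] at key
  exact key

lemma nuFun_spec' {α β : ι → Dual ℝ V} (hα : IsVeeSystem α) (hβ : IsVeeSystem β)
    (hm : SameMatroid α β) (hnu : SameNu α β) {i j : ι} (hij : i ≠ j)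
    (h3 : 3 ≤ (fl β i j).card) : IsNu β (span ℝ {β i, β j}) (nuFun α (fl β i j)) := by
  classical
  have hfl := fl_eq_of_sameMatroid hα hβ hm hij
  rw [hfl] at h3 ⊢
  have hset : {k | α k ∈ span ℝ {α i, α j}} = (fl α i j : Set ι) := by
    ext k
    simp [mem_fl]
  obtain ⟨c, hc, hc'⟩ := hnu (span ℝ {α i, α j}) (finrank_pair (hα.noncollinear i j hij)) (by
    rw [hset, Set.ncard_coe_finset]; exact h3)
  rw [hset, ← hfl, span_image_fl] at hc'
  rw [nu_unique hα (nuFun_spec hα hij h3) hc]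
  exact hc'

/-- the class of vee-systems with the matroid and the nu-function of `α` -/
def cls (α : ι → Dual ℝ V) : Set (ι → Dual ℝ V) :=
  {β | IsVeeSystem β ∧ SameMatroid α β ∧ SameNu α β}

theorem finite_classes (α : ι → Dual ℝ V) (hα : IsVeeSystem α) (hirr : IsIrreducible α)
    (hn : 3 ≤ finrank ℝ V) :
    ∃ S ⊆ cls α, S.Finite ∧ ∀ β ∈ cls α, ∃ γ ∈ S, GLEquiv γ β := by
  classical
  have hfin : (gram '' cls α).Finite := by
    apply (finite_gram (W := Dual ℝ V) (fun i j => fl α i j) (nuFun α)).subset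
    rintro _ ⟨β, ⟨hβ, hm, hnu⟩, rfl⟩
    refine ⟨β, ?_, fun i j hij => fl_eq_of_sameMatroid hα hβ hm hij⟩
    apply sys_of hβ
    · intro i j hij h3
      exact nuFun_spec' hα hβ hm hnu hij h3
    · intro i
      obtain ⟨j, k, h1, h2, h3, h4, h5⟩ := many_of_irr hα hirr hn i
      refine ⟨j, k, h1, h2, ?_, ?_, ?_⟩
      · rw [fl_eq_of_sameMatroid hα hβ hm h1]; exact h3
      · rw [fl_eq_of_sameMatroid hα hβ hm h2]; exact h4
      · rw [fl_eq_of_sameMatroid hα hβ hm h1]; exact h5
  obtain ⟨S, hS, hbij⟩ := Set.exists_subset_bijOn (cls α) (gram (ι := ι) (V := V))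
  refine ⟨S, hS, ?_, ?_⟩
  · exact hbij.finite_iff_finite.mpr hfin
  · intro β hβ
    obtain ⟨γ, hγ, he⟩ := hbij.surjOn ⟨β, hβ, rfl⟩
    exact ⟨γ, hγ, glEquiv_of_gram_eq (hS hγ).1.spans hβ.1.spans he⟩

lemma GLEquiv.symm {α β : ι → Dual ℝ V} (h : GLEquiv α β) : GLEquiv β α := by
  obtain ⟨g, hg⟩ := h
  exact ⟨g.symm, fun i => by rw [hg i, LinearEquiv.symm_apply_apply]⟩

lemma GLEquiv.trans {α β γ : ι → Dual ℝ V} (h : GLEquiv α β) (h' : GLEquiv β γ) :
    GLEquiv α γ := by
  obtain ⟨g, hg⟩ := h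
  obtain ⟨g', hg'⟩ := h'
  exact ⟨g.trans g', fun i => by rw [hg' i, hg i, LinearEquiv.trans_apply]⟩

/-- if `α` is a limit of families equivalent to `γ` then it is equivalent to `γ` -/
lemma glEquiv_of_close {κ : Type*} (b : Basis κ ℝ V) {γ α : ι → Dual ℝ V}
    (hγ : span ℝ (Set.range γ) = ⊤) (hα : span ℝ (Set.range α) = ⊤)
    (h : ∀ ε > 0, ∃ β, GLEquiv γ β ∧ ∀ i k, |β i (b k) - α i (b k)| < ε) : GLEquiv γ α := by
  classical
  set Lγ : (ι → ℝ) →ₗ[ℝ] Dual ℝ V := Fintype.linearCombination ℝ γ with hLγ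
  set Lα : (ι → ℝ) →ₗ[ℝ] Dual ℝ V := Fintype.linearCombination ℝ α with hLα
  have hsurj : Function.Surjective Lγ := by
    rw [← LinearMap.range_eq_top, hLγ, Fintype.range_linearCombination, hγ]
  have hker : ∀ c : ι → ℝ, Lγ c = 0 → Lα c = 0 := by
    intro c hc
    apply b.ext
    intro k
    rw [LinearMap.zero_apply]
    by_contra hne
    have hpos : 0 < |Lα c (b k)| := abs_pos.mpr hne
    set M := ∑ i, |c i| with hM
    have hM0 : 0 ≤ M := Finset.sum_nonneg fun i _ => abs_nonneg _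
    obtain ⟨β, ⟨g, hg⟩, hβ⟩ := h (|Lα c (b k)| / (M + 1)) (by positivity)
    have h0 : ∑ i, c i * β i (b k) = 0 := by
      have h1 : ∑ i, c i • β i = 0 := by
        have : ∑ i, c i • β i = g (Lγ c) := by
          rw [hLγ, Fintype.linearCombination_apply, map_sum]
          exact Finset.sum_congr rfl fun i _ => by rw [hg i, map_smul]
        rw [this, hc, map_zero]
      have h2 := congrArg (fun f : Dual ℝ V => f (b k)) h1
      simpa [LinearMap.sum_apply] using h2
    have h1 : Lα c (b k) = ∑ i, c i * (α i (b k) - β i (b k)) := by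
      rw [hLα, Fintype.linearCombination_apply]
      simp only [mul_sub, Finset.sum_sub_distrib, h0, sub_zero, LinearMap.sum_apply,
        LinearMap.smul_apply, smul_eq_mul]
    have h2 : |Lα c (b k)| ≤ M * (|Lα c (b k)| / (M + 1)) := by
      calc |Lα c (b k)| ≤ ∑ i, |c i * (α i (b k) - β i (b k))| := by
            rw [h1]; exact Finset.abs_sum_le_sum_abs _ _
        _ ≤ ∑ i, |c i| * (|Lα c (b k)| / (M + 1)) := by
            apply Finset.sum_le_sum
            intro i _
            rw [abs_mul]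
            apply mul_le_mul_of_nonneg_left _ (abs_nonneg _)
            rw [abs_sub_comm]
            exact (hβ i k).le
        _ = M * (|Lα c (b k)| / (M + 1)) := by rw [hM, Finset.sum_mul]
    have h3 : M * (|Lα c (b k)| / (M + 1)) < |Lα c (b k)| := by
      rw [mul_div_assoc', div_lt_iff₀ (by positivity)]
      nlinarith
    linarith
  obtain ⟨s, hs⟩ := Lγ.exists_rightInverse_of_surjective (LinearMap.range_eq_top.mpr hsurj)
  set g : Dual ℝ V →ₗ[ℝ] Dual ℝ V := Lα ∘ₗ s with hg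
  have hgγ : ∀ i, g (γ i) = α i := by
    intro i
    have e1 : Lγ (Pi.single i 1) = γ i := by
      rw [hLγ, Fintype.linearCombination_apply_single, one_smul]
    have e2 : Lα (Pi.single i 1) = α i := by
      rw [hLα, Fintype.linearCombination_apply_single, one_smul]
    have e3 : Lγ (s (γ i) - Pi.single i 1) = 0 := by
      rw [map_sub, e1]
      have := LinearMap.congr_fun hs (γ i)
      rw [LinearMap.comp_apply, LinearMap.id_apply] at this
      rw [this, sub_self]
    have e4 := hker _ e3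
    rw [map_sub, e2, sub_eq_zero] at e4
    exact e4
  have hgsurj : Function.Surjective g := by
    rw [← LinearMap.range_eq_top, eq_top_iff, ← hα, span_le]
    rintro _ ⟨i, rfl⟩
    exact ⟨γ i, hgγ i⟩
  have hginj : Function.Injective g := LinearMap.injective_iff_surjective.mpr hgsurj
  exact ⟨LinearEquiv.ofBijective g ⟨hginj, hgsurj⟩, fun i => (hgγ i).symm⟩

theorem local_unique (α : ι → Dual ℝ V) (hα : IsVeeSystem α) (hirr : IsIrreducible α)
    (hn : 3 ≤ finrank ℝ V) {κ : Type*} (b : Basis κ ℝ V) :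
    ∃ ε > 0, ∀ β : ι → Dual ℝ V, IsVeeSystem β → SameMatroid α β → SameNu α β →
      (∀ i k, |β i (b k) - α i (b k)| < ε) → GLEquiv α β := by
  classical
  obtain ⟨S, hS, hfin, hcov⟩ := finite_classes α hα hirr hn
  -- a radius for every class
  have hrad : ∀ γ ∈ S, ∃ ε > 0, ∀ β : ι → Dual ℝ V, GLEquiv γ β →
      (∀ i k, |β i (b k) - α i (b k)| < ε) → GLEquiv γ α := by
    intro γ hγ
    by_cases hE : GLEquiv γ α
    · exact ⟨1, one_pos, fun _ _ _ => hE⟩
    · by_contra hcon
      push Not at hcon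
      apply hE
      apply glEquiv_of_close b (hS hγ).1.spans hα.spans
      intro ε hε
      obtain ⟨β, h1, h2, -⟩ := hcon ε hε
      exact ⟨β, h1, h2⟩
  choose! r hr0 hr using hrad
  obtain ⟨ε, hε0, hε⟩ : ∃ ε > 0, ∀ γ ∈ S, ε ≤ r γ := by
    by_cases hne : S.Nonempty
    · obtain ⟨γ0, hγ0, hmin⟩ := Set.exists_min_image S r hfin hne
      exact ⟨r γ0, hr0 γ0 hγ0, hmin⟩
    · rw [Set.not_nonempty_iff_eq_empty] at hne
      exact ⟨1, one_pos, by simp [hne]⟩
  refine ⟨ε, hε0, fun β h1 h2 h3 hclose => ?_⟩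
  obtain ⟨γ, hγ, hγβ⟩ := hcov β ⟨h1, h2, h3⟩
  have := hr γ hγ β hγβ (fun i k => lt_of_lt_of_le (hclose i k) (hε γ hγ))
  exact this.symm.trans hγβ

end Pool.Agent.MP_de770b_mp
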