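import Mathlib
import Pool.Agent.MP_de770b_mp.Main

/-! Vee-systems with projectively equivalent arrangements. -/

set_option linter.unusedSectionVars false

namespace Pool.Agent.MP_de770b_mp

open Module Submodule

section Spectral

variable {ι : Type*} [Fintype ι] [DecidableEq ι]

/-- spectral theorem in coordinates -/
lemma exists_eig (S : Matrix ι ι ℝ) (hS : ∀ i j, S i j = S j i) :
    ∃ (v : ι → ι → ℝ) (μ : ι → ℝ), (∀ k i, ∑ j, S i j * v k j = μ k * v k i) ∧
      (∀ k, ∑ i, v k i * v k i = 1) ∧
      (∀ i j, ∑ k, v k i * v k j = if i = j then 1 else 0) := by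
  have hH : S.IsHermitian := by
    ext i j
    simp [Matrix.conjTranspose_apply, hS j i]
  refine ⟨fun k => ⇑(hH.eigenvectorBasis k), hH.eigenvalues, ?_, ?_, ?_⟩
  · intro k i
    have := congrFun (hH.mulVec_eigenvectorBasis k) i
    simpa [Matrix.mulVec, dotProduct] using this
  · intro k
    have h1 := hH.eigenvectorBasis.orthonormal.1 k
    have h2 : ‖hH.eigenvectorBasis k‖ ^ 2 = 1 := by rw [h1]; norm_num
    rw [EuclideanSpace.norm_sq_eq] at h2
    rw [← h2]
    apply Finset.sum_congr rfl
    intro i _
    rw [Real.norm_eq_abs, sq_abs, sq]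
  · intro i j
    have h1 := hH.eigenvectorBasis.sum_inner_mul_inner (EuclideanSpace.single i (1 : ℝ))
      (EuclideanSpace.single j (1 : ℝ))
    simp only [EuclideanSpace.inner_single_left, EuclideanSpace.inner_single_right] at h1
    simp only [map_one, one_mul, conj_trivial] at h1
    rw [h1]
    simp [eq_comm]

/-- uniqueness of scalings of a projection matrix with a given diagonal -/
theorem scaling_core (K : Matrix ι ι ℝ) (hsym : ∀ i j, K i j = K j i)
    (hid : ∀ i j, ∑ l, K i l * K l j = K i j) (D : ι → ℝ) (hD : ∀ i, 0 < D i)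
    (y : ι → ι → ℝ) -- `y i` solves `K D (y i) = K e_i`, `K (y i) = y i`
    (hy1 : ∀ i j, ∑ l, K j l * y i l = y i j)
    (hy2 : ∀ i m, ∑ j, K m j * (D j * y i j) = K m i)
    (hdiag : ∀ i, D i * y i i = K i i) :
    ∀ i j, K i j ≠ 0 → D i = D j := by
  set S : Matrix ι ι ℝ := fun i j => ∑ l, K i l * D l * K l j with hS
  have hSs : ∀ i j, S i j = S j i := by
    intro i j
    simp only [hS]
    apply Finset.sum_congr rfl
    intro l _
    rw [hsym i l, hsym l j]; ring
  obtain ⟨v, μ, hv1, hv2, hv3⟩ := exists_eig S hSs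
  set z : ι → ι → ℝ := fun k i => ∑ j, K i j * v k j with hz
  have hSv : ∀ k i, ∑ l, K i l * (D l * z k l) = μ k * v k i := by
    intro k i
    rw [← hv1 k i]
    simp only [hS, hz, Finset.mul_sum, Finset.sum_mul]
    rw [Finset.sum_comm]
    exact Finset.sum_congr rfl fun a _ => Finset.sum_congr rfl fun b _ => by ring
  have hKz : ∀ k i, ∑ l, K i l * z k l = z k i := by
    intro k i
    simp only [hz, Finset.mul_sum]
    rw [Finset.sum_comm]
    apply Finset.sum_congr rfl
    intro j _
    rw [← hid i j, Finset.sum_mul]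
    exact Finset.sum_congr rfl fun l _ => by ring
  have hmuz : ∀ k i, μ k * z k i = μ k * v k i := by
    intro k i
    have h1 : ∑ a, K i a * (μ k * v k a) = μ k * v k i := by
      have h2 : ∀ a, μ k * v k a = ∑ l, K a l * (D l * z k l) := fun a => (hSv k a).symm
      simp only [h2, Finset.mul_sum]
      rw [Finset.sum_comm]
      apply Finset.sum_congr rfl
      intro l _
      rw [← hid i l, Finset.sum_mul]
      exact Finset.sum_congr rfl fun a _ => by ring
    rw [← h1]
    simp only [hz, Finset.mul_sum]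
    exact Finset.sum_congr rfl fun a _ => by ring
  have hmu : ∀ k, μ k = ∑ l, D l * (z k l * z k l) := by
    intro k
    have h1 : μ k = ∑ i, v k i * (μ k * v k i) := by
      have : ∑ i, v k i * (μ k * v k i) = μ k * ∑ i, v k i * v k i := by
        rw [Finset.mul_sum]; exact Finset.sum_congr rfl fun i _ => by ring
      rw [this, hv2 k, mul_one]
    rw [h1]
    simp only [← hSv, Finset.mul_sum]
    rw [Finset.sum_comm]
    apply Finset.sum_congr rfl
    intro l _
    have : z k l = ∑ i, K i l * v k i := by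
      simp only [hz]
      exact Finset.sum_congr rfl fun i _ => by rw [hsym l i]
    calc ∑ i, v k i * (K i l * (D l * z k l)) = (∑ i, K i l * v k i) * (D l * z k l) := by
          rw [Finset.sum_mul]; exact Finset.sum_congr rfl fun i _ => by ring
      _ = D l * (z k l * z k l) := by rw [← this]; ring
  have hmu0 : ∀ k, 0 ≤ μ k := fun k => by
    rw [hmu k]
    exact Finset.sum_nonneg fun l _ => mul_nonneg (hD l).le (mul_self_nonneg _)
  have hz0 : ∀ k, μ k = 0 → ∀ i, z k i = 0 := by
    intro k hk i
    rw [hmu k] at hk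
    have := (Finset.sum_eq_zero_iff_of_nonneg (fun l _ => mul_nonneg (hD l).le
      (mul_self_nonneg (z k l)))).mp hk i (Finset.mem_univ i)
    rcases mul_eq_zero.mp this with h | h
    · exact absurd h (hD i).ne'
    · exact mul_self_eq_zero.mp h
  have hzv : ∀ k, μ k ≠ 0 → ∀ i, z k i = v k i := fun k hk i => mul_left_cancel₀ hk (hmuz k i)
  have hzz : ∀ i j, ∑ k, z k i * z k j = K i j := by
    intro i j
    have h1 : ∀ k, z k i * z k j = ∑ a, ∑ b, K i a * K j b * (v k a * v k b) := by
      intro k
      simp only [hz]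
      rw [Finset.sum_mul_sum]
      exact Finset.sum_congr rfl fun a _ => Finset.sum_congr rfl fun b _ => by ring
    simp only [h1]
    rw [Finset.sum_comm]
    have h2 : ∀ a, ∑ k, ∑ b, K i a * K j b * (v k a * v k b) = K i a * K j a := by
      intro a
      rw [Finset.sum_comm]
      have h3 : ∀ b, ∑ k, K i a * K j b * (v k a * v k b)
          = K i a * K j b * (if a = b then 1 else 0) := by
        intro b
        rw [← Finset.mul_sum, hv3 a b]
      simp only [h3]
      simp
    simp only [h2]
    rw [← hid i j]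
    exact Finset.sum_congr rfl fun a _ => by rw [hsym j a]
  -- the formula for `y i i`
  have hyk : ∀ i k, μ k * ∑ a, v k a * y i a = z k i := by
    intro i k
    have h1 : μ k * ∑ a, v k a * y i a = ∑ a, (∑ l, K a l * (D l * z k l)) * y i a := by
      rw [Finset.mul_sum]
      exact Finset.sum_congr rfl fun a _ => by rw [hSv]; ring
    have h2 : ∑ a, (∑ l, K a l * (D l * z k l)) * y i a
        = ∑ l, (D l * z k l) * ∑ a, K l a * y i a := by
      simp only [Finset.sum_mul, Finset.mul_sum]
      rw [Finset.sum_comm]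
      exact Finset.sum_congr rfl fun l _ => Finset.sum_congr rfl fun a _ => by
        rw [hsym a l]; ring
    rw [h1, h2]
    simp only [hy1]
    have h3 : ∑ l, D l * z k l * y i l = ∑ m, v k m * ∑ l, K m l * (D l * y i l) := by
      simp only [hz, Finset.mul_sum, Finset.sum_mul]
      rw [Finset.sum_comm]
      exact Finset.sum_congr rfl fun m _ => Finset.sum_congr rfl fun l _ => by
        rw [hsym m l]; ring
    rw [h3]
    simp only [hy2, hz]
    exact Finset.sum_congr rfl fun m _ => by rw [hsym m i]; ring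
  have hyi : ∀ i, y i i = ∑ k, z k i * z k i / μ k := by
    intro i
    have h1 : y i i = ∑ k, z k i * ∑ a, v k a * y i a := by
      rw [← hy1 i i]
      have h2 : ∀ l, y i l = ∑ k, v k l * ∑ a, v k a * y i a := by
        intro l
        simp only [Finset.mul_sum]
        rw [Finset.sum_comm]
        have h3 : ∀ a, ∑ k, v k l * (v k a * y i a) = (if l = a then 1 else 0) * y i a := by
          intro a
          rw [← hv3 l a, Finset.sum_mul]
          exact Finset.sum_congr rfl fun k _ => by ring
        simp only [h3]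
        simp
      calc ∑ l, K i l * y i l = ∑ l, ∑ k, (K i l * v k l) * ∑ a, v k a * y i a := by
            apply Finset.sum_congr rfl
            intro l _
            conv_lhs => rw [h2 l]
            rw [Finset.mul_sum]
            exact Finset.sum_congr rfl fun k _ => by ring
        _ = ∑ k, z k i * ∑ a, v k a * y i a := by
            rw [Finset.sum_comm]
            apply Finset.sum_congr rfl
            intro k _
            rw [← Finset.sum_mul]
    rw [h1]
    apply Finset.sum_congr rfl
    intro k _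
    by_cases hk : μ k = 0
    · rw [hz0 k hk i]; simp
    · rw [← hyk i k]
      field_simp
  -- marginals
  have hrow : ∀ i, ∑ k, (z k i * z k i * (D i / μ k) - z k i * z k i) = 0 := by
    intro i
    rw [Finset.sum_sub_distrib, hzz i i, ← hdiag i, hyi i, Finset.mul_sum, sub_eq_zero]
    exact Finset.sum_congr rfl fun k _ => by ring
  have hcol : ∀ k, ∑ i, (z k i * z k i * (D i / μ k) - z k i * z k i) = 0 := by
    intro k
    by_cases hk : μ k = 0
    · apply Finset.sum_eq_zero
      intro i _
      rw [hz0 k hk i]; simp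
    · rw [Finset.sum_sub_distrib]
      have h1 : ∑ i, z k i * z k i = 1 := by
        rw [← hv2 k]
        exact Finset.sum_congr rfl fun i _ => by rw [hzv k hk i]
      have h2 : ∑ i, z k i * z k i * (D i / μ k) = 1 := by
        have : ∑ i, z k i * z k i * (D i / μ k) = (∑ l, D l * (z k l * z k l)) / μ k := by
          rw [Finset.sum_div]; exact Finset.sum_congr rfl fun i _ => by ring
        rw [this, ← hmu k, div_self hk]
      rw [h1, h2, sub_self]
  have htot : ∑ i, ∑ k, (z k i * z k i * (D i / μ k) - z k i * z k i)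
      * (Real.log (D i) - Real.log (μ k)) = 0 := by
    have h1 : ∑ i, ∑ k, (z k i * z k i * (D i / μ k) - z k i * z k i) * Real.log (D i) = 0 := by
      apply Finset.sum_eq_zero
      intro i _
      rw [← Finset.sum_mul, hrow i, zero_mul]
    have h2 : ∑ i, ∑ k, (z k i * z k i * (D i / μ k) - z k i * z k i) * Real.log (μ k) = 0 := by
      rw [Finset.sum_comm]
      apply Finset.sum_eq_zero
      intro k _
      rw [← Finset.sum_mul, hcol k, zero_mul]
    simp only [mul_sub, Finset.sum_sub_distrib] at h1 h2 ⊢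
    linarith
  have hterm : ∀ i k, 0 ≤ (z k i * z k i * (D i / μ k) - z k i * z k i)
      * (Real.log (D i) - Real.log (μ k)) := by
    intro i k
    by_cases hk : μ k = 0
    · rw [hz0 k hk i]; simp
    · have hkp : 0 < μ k := lt_of_le_of_ne (hmu0 k) (Ne.symm hk)
      have h1 : z k i * z k i * (D i / μ k) - z k i * z k i
          = (z k i * z k i) / μ k * (D i - μ k) := by
        field_simp
      rw [h1, mul_assoc]
      apply mul_nonneg (div_nonneg (mul_self_nonneg _) hkp.le)
      rcases le_total (D i) (μ k) with h | h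
      · have := Real.log_le_log (hD i) h
        exact mul_nonneg_of_nonpos_of_nonpos (by linarith) (by linarith)
      · have := Real.log_le_log hkp h
        exact mul_nonneg (by linarith) (by linarith)
  have hzero : ∀ i k, z k i ≠ 0 → D i = μ k := by
    intro i k hzk
    have h1 := (Finset.sum_eq_zero_iff_of_nonneg (fun i _ =>
      Finset.sum_nonneg fun k _ => hterm i k)).mp htot i (Finset.mem_univ i)
    have h2 := (Finset.sum_eq_zero_iff_of_nonneg (fun k _ => hterm i k)).mp h1 k
      (Finset.mem_univ k)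
    have hk : μ k ≠ 0 := fun hk => hzk (hz0 k hk i)
    have hkp : 0 < μ k := lt_of_le_of_ne (hmu0 k) (Ne.symm hk)
    rcases mul_eq_zero.mp h2 with h3 | h3
    · have h4 : (z k i * z k i) * (D i / μ k - 1) = 0 := by linarith
      rcases mul_eq_zero.mp h4 with h5 | h5
      · exact absurd (mul_self_eq_zero.mp h5) hzk
      · have : D i / μ k = 1 := by linarith
        exact (div_eq_one_iff_eq hk).mp this
    · exact Real.log_injOn_pos (hD i) hkp (by linarith)
  intro i j hK
  rw [← hzz i j] at hK
  obtain ⟨k, -, hk⟩ := Finset.exists_ne_zero_of_sum_ne_zero hK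
  have h1 : z k i ≠ 0 := left_ne_zero_of_mul hk
  have h2 : z k j ≠ 0 := right_ne_zero_of_mul hk
  rw [hzero i k h1, hzero j k h2]

end Spectral

section Main

variable {ι : Type*} [Fintype ι] {V : Type*} [AddCommGroup V] [Module ℝ V]
  [FiniteDimensional ℝ V]

lemma linearIndepOn_scaled {α β : ι → Dual ℝ V} (g : Dual ℝ V ≃ₗ[ℝ] Dual ℝ V) (t : ι → ℝ)
    (ht : ∀ i, t i ≠ 0) (h : ∀ i, β i = t i • g (α i)) : SameMatroid α β := by
  intro s
  have h1 : (fun i : s => β i)
      = (fun i : s => Units.mk0 (t i) (ht i)) • (fun i : s => g (α i)) := by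
    funext i
    rw [Pi.smul_apply', h i, Units.smul_def, Units.val_mk0]
  have h2 : LinearIndependent ℝ (fun i : s => g (α i)) ↔
      LinearIndependent ℝ (fun i : s => α i) := by
    exact LinearMap.linearIndependent_iff (g : Dual ℝ V →ₗ[ℝ] Dual ℝ V) (LinearEquiv.ker g)
  rw [LinearIndepOn, LinearIndepOn, h1, LinearIndependent.units_smul_iff, h2]

/-- Main theorem: the scaling factors have the same absolute value. -/
theorem scaling_eq (hn : 3 ≤ finrank ℝ V) {α β : ι → Dual ℝ V} (hα : IsVeeSystem α)
    (hβ : IsVeeSystem β) (hirr : IsIrreducible α) (g : Dual ℝ V ≃ₗ[ℝ] Dual ℝ V) (t : ι → ℝ)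
    (ht : ∀ i, β i = t i • g (α i)) (hnu : SameNu α β) : ∀ i j, t i ^ 2 = t j ^ 2 := by
  classical
  have ht0 : ∀ i, t i ≠ 0 := by
    intro i h0
    apply hβ.ne_zero i
    rw [ht i, h0, zero_smul]
  have hm := linearIndepOn_scaled g t ht0 ht
  have hs := hα.spans
  have hs' := hβ.spans
  have hmany := many_of_irr hα hirr hn
  have hfl : ∀ i j, i ≠ j → fl β i j = fl α i j := fun i j hij =>
    fl_eq_of_sameMatroid hα hβ hm hij
  have sα : Sys α (gram α) (nuFun α) := sys_of hα _ (fun i j hij h3 => nuFun_spec hα hij h3) hmany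
  have sβ : Sys β (gram β) (nuFun α) := by
    apply sys_of hβ _ (fun i j hij h3 => nuFun_spec' hα hβ hm hnu hij h3)
    intro i
    obtain ⟨j, k, h1, h2, h3, h4, h5⟩ := hmany i
    refine ⟨j, k, h1, h2, ?_, ?_, ?_⟩
    · rw [hfl i j h1]; exact h3
    · rw [hfl i k h2]; exact h4
    · rw [hfl i j h1]; exact h5
  have hdiag : ∀ i, gram α i i = gram β i i := fun i => sα.diag_unique sβ hfl i
  -- the transposed inverse of `g` on `V`
  -- `w i ∈ V` with `γ (w i) = (g γ) (vee β (β i))`
  have hw : ∀ i, ∃ w : V, ∀ γ : Dual ℝ V, γ w = (g γ) (vee β (β i)) := by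
    intro i
    obtain ⟨w, hw⟩ := (Module.evalEquiv ℝ V).surjective
      ((Dual.eval ℝ V (vee β (β i))) ∘ₗ (g : Dual ℝ V →ₗ[ℝ] Dual ℝ V))
    refine ⟨w, fun γ => ?_⟩
    have := LinearMap.congr_fun hw γ
    simpa using this
  choose w hw using hw
  have hkey := scaling_core (gram α) (gram_sym hs) (gram_idem hs) (fun i => t i ^ 2)
    (fun i => by have := ht0 i; positivity) (fun i j => (t i)⁻¹ * α j (w i)) ?_ ?_ ?_
  · -- all scaling factors agree
    by_contra hcon
    push Not at hcon
    obtain ⟨i, j, hij⟩ := hcon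
    obtain ⟨a, ha, b, hb, hab⟩ := irr_gram hs hirr {k | t k ^ 2 = t i ^ 2} ⟨i, rfl⟩
      ⟨j, fun h => hij (Eq.symm h)⟩
    have h1 : t a ^ 2 = t b ^ 2 := hkey a b hab
    apply hb
    change t b ^ 2 = t i ^ 2
    rw [← h1]; exact ha
  · -- `K (y i) = y i`
    intro i j
    have h1 : ∑ l, gram α j l * α l (w i) = form α (vee α (α j)) (w i) := by
      unfold form
      exact Finset.sum_congr rfl fun l _ => by rw [gram_sym hs j l]; rfl
    have h2 : ∑ l, gram α j l * ((t i)⁻¹ * α l (w i))
        = (t i)⁻¹ * ∑ l, gram α j l * α l (w i) := by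
      rw [Finset.mul_sum]
      exact Finset.sum_congr rfl fun l _ => by ring
    rw [h2, h1, vee_spec hs]
  · -- `K D (y i) = K e_i`
    intro i m
    -- choose `u` with `γ u = (g^{-1} γ) (vee α (α m))`
    obtain ⟨u, hu⟩ : ∃ u : V, ∀ γ : Dual ℝ V, γ u = (g.symm γ) (vee α (α m)) := by
      obtain ⟨u, hu⟩ := (Module.evalEquiv ℝ V).surjective
        ((Dual.eval ℝ V (vee α (α m))) ∘ₗ (g.symm : Dual ℝ V →ₗ[ℝ] Dual ℝ V))
      refine ⟨u, fun γ => ?_⟩
      have := LinearMap.congr_fun hu γ
      simpa using this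
    have hβu : ∀ j, β j u = t j * α j (vee α (α m)) := by
      intro j
      rw [hu, ht j, map_smul, LinearEquiv.symm_apply_apply]
      rfl
    have hβw : ∀ j, β j (vee β (β i)) = t j * α j (w i) := by
      intro j
      rw [hw, ht j]
      rfl
    have h1 := vee_spec hs' (β i) u
    rw [hβu i] at h1
    unfold form at h1
    have h2 : ∑ j, gram α m j * (t j ^ 2 * ((t i)⁻¹ * α j (w i)))
        = (t i)⁻¹ * ∑ j, β j (vee β (β i)) * β j u := by
      rw [Finset.mul_sum]
      apply Finset.sum_congr rfl
      intro j _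
      rw [hβu, hβw, gram_sym hs m j]
      change (α j (vee α (α m))) * _ = _
      ring
    rw [h2, h1, gram_sym hs m i]
    change (t i)⁻¹ * (t i * gram α i m) = gram α i m
    have := ht0 i
    field_simp
  · intro i
    rw [hdiag i]
    change t i ^ 2 * ((t i)⁻¹ * α i (w i)) = β i (vee β (β i))
    have h1 : β i (vee β (β i)) = t i * α i (w i) := by
      rw [hw]
      conv_lhs => rw [ht i]
      rw [ht i]
      rfl
    rw [h1]
    have := ht0 i
    field_simp

/-- Uniqueness up to signs for projectively equivalent arrangements. -/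
theorem unique_of_projective (hn : 3 ≤ finrank ℝ V) {α β : ι → Dual ℝ V} (hα : IsVeeSystem α)
    (hβ : IsVeeSystem β) (hirr : IsIrreducible α) (g : Dual ℝ V ≃ₗ[ℝ] Dual ℝ V) (t : ι → ℝ)
    (ht : ∀ i, β i = t i • g (α i)) (hnu : SameNu α β) :
    ∃ g' : Dual ℝ V ≃ₗ[ℝ] Dual ℝ V, ∀ i, β i = g' (α i) ∨ β i = - g' (α i) := by
  classical
  have hsc := scaling_eq hn hα hβ hirr g t ht hnu
  by_cases hne : Nonempty ι
  · obtain ⟨i0⟩ := hne
    have ht0 : t i0 ≠ 0 := by
      intro h0
      apply hβ.ne_zero i0
      rw [ht i0, h0, zero_smul]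
    refine ⟨(LinearEquiv.smulOfNeZero ℝ (Dual ℝ V) (t i0) ht0).trans g, fun i => ?_⟩
    have h1 : t i = t i0 ∨ t i = - t i0 := sq_eq_sq_iff_eq_or_eq_neg.mp (hsc i i0)
    have h2 : ((LinearEquiv.smulOfNeZero ℝ (Dual ℝ V) (t i0) ht0).trans g) (α i)
        = t i0 • g (α i) := by
      rw [LinearEquiv.trans_apply, ← map_smul]
      rfl
    rw [h2, ht i]
    rcases h1 with h | h
    · left; rw [h]
    · right; rw [h]; module
  · rw [not_nonempty_iff] at hne
    exact ⟨g, fun i => hne.elim i⟩

end Main

end Pool.Agent.MP_de770b_mp
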