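import Mathlib
import Pool.Agent.MP_de770b_mp.ScaleExist
import Pool.Agent.MP_de770b_mp.Scaling

/-! Vee-systems and the real realisations of their matroids. -/

set_option linter.unusedSectionVars false

namespace Pool.Agent.MP_de770b_mp

open Module Submodule

variable {ι : Type*} [Fintype ι] {V : Type*} [AddCommGroup V] [Module ℝ V]
  [FiniteDimensional ℝ V] {α β γ : ι → Dual ℝ V}

lemma SameMatroid.symm (h : SameMatroid α β) : SameMatroid β α := fun s => (h s).symm

lemma SameMatroid.trans (h : SameMatroid α β) (h' : SameMatroid β γ) : SameMatroid α γ :=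
  fun s => (h s).trans (h' s)

lemma rank_le_of_sameMatroid (h : SameMatroid α β) (s : Set ι) :
    finrank ℝ (span ℝ (α '' s)) ≤ finrank ℝ (span ℝ (β '' s)) := by
  classical
  obtain ⟨t, hti, -, htm⟩ := exists_linearIndepOn_extension (K := ℝ) (v := α)
    (linearIndepOn_empty ℝ α) (Set.empty_subset s)
  have h1 : span ℝ (α '' s) = span ℝ (α '' t) := by
    apply le_antisymm
    · exact span_le.mpr htm.1
    · exact span_mono (Set.image_mono hti)
  have hβ : LinearIndepOn ℝ β t := (h t).mp htm.2
  have hfin : t.Finite := Set.toFinite t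
  have := hfin.fintype
  rw [h1]
  have h2 : finrank ℝ (span ℝ (α '' t)) ≤ Fintype.card t := by
    rw [Set.image_eq_range]
    exact finrank_range_le_card _
  have h3 : Fintype.card t = finrank ℝ (span ℝ (β '' t)) := by
    rw [Set.image_eq_range]
    exact (finrank_span_eq_card hβ).symm
  rw [h3] at h2
  exact h2.trans (Submodule.finrank_mono (span_mono (Set.image_mono hti)))

lemma rank_eq_of_sameMatroid (h : SameMatroid α β) (s : Set ι) :
    finrank ℝ (span ℝ (α '' s)) = finrank ℝ (span ℝ (β '' s)) :=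
  le_antisymm (rank_le_of_sameMatroid h s) (rank_le_of_sameMatroid h.symm s)

lemma spans_of_sameMatroid (h : SameMatroid α β) (hs : span ℝ (Set.range α) = ⊤) :
    span ℝ (Set.range β) = ⊤ := by
  have h1 := rank_eq_of_sameMatroid h Set.univ
  rw [Set.image_univ, Set.image_univ, hs, finrank_top] at h1
  exact Submodule.eq_top_of_finrank_eq h1.symm

lemma pair_of_sameMatroid (h : SameMatroid α β)
    (hli : ∀ i j, i ≠ j → LinearIndependent ℝ ![α i, α j]) :
    ∀ i j, i ≠ j → LinearIndependent ℝ ![β i, β j] := by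
  intro i j hij
  have h1 : LinearIndepOn ℝ α {i, j} := (LinearIndepOn.pair_iff α hij).mpr (by
    have := hli i j hij
    rw [LinearIndependent.pair_iff] at this
    intro c d hcd
    exact this c d hcd)
  have h2 := (h _).mp h1
  rw [LinearIndependent.pair_iff]
  intro c d hcd
  exact (LinearIndepOn.pair_iff β hij).mp h2 c d hcd

lemma fl_eq_of_sameMatroid' (hli : ∀ i j, i ≠ j → LinearIndependent ℝ ![α i, α j])
    (h : SameMatroid α β) {i j : ι} (hij : i ≠ j) : fl β i j = fl α i j := by
  have hli' := pair_of_sameMatroid h hli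
  have key : ∀ {δ : ι → Dual ℝ V}, (∀ i j, i ≠ j → LinearIndependent ℝ ![δ i, δ j]) →
      ∀ k, k ∈ fl δ i j ↔ (k = i ∨ k = j ∨ ¬ LinearIndepOn ℝ δ {k, i, j}) := by
    intro δ hδ k
    by_cases hki : k = i
    · subst hki
      simp [left_mem_fl]
    by_cases hkj : k = j
    · subst hkj
      simp [right_mem_fl]
    have hnot : k ∉ ({i, j} : Set ι) := by simp [hki, hkj]
    have hpair : LinearIndepOn ℝ δ {i, j} := (LinearIndepOn.pair_iff δ hij).mpr (by
      have := hδ i j hij
      rw [LinearIndependent.pair_iff] at this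
      intro c d hcd
      exact this c d hcd)
    rw [mem_fl, linearIndepOn_insert hnot, Set.image_pair]
    simp [hki, hkj, hpair]
  ext k
  rw [key hli', key hli, h]

lemma flatsAt_eq_of_sameMatroid [DecidableEq ι]
    (hli : ∀ i j, i ≠ j → LinearIndependent ℝ ![α i, α j])
    (h : SameMatroid α β) (i : ι) : Sys.flatsAt β i = Sys.flatsAt α i := by
  ext v
  rw [mem_flatsAt, mem_flatsAt]
  constructor
  · rintro ⟨j, hij, h3, rfl⟩
    have := fl_eq_of_sameMatroid' hli h hij
    exact ⟨j, hij, by rw [← this]; exact h3, this⟩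
  · rintro ⟨j, hij, h3, rfl⟩
    have := fl_eq_of_sameMatroid' hli h hij
    exact ⟨j, hij, by rw [this]; exact h3, this.symm⟩

lemma linSys_of_sameMatroid [DecidableEq ι]
    (hli : ∀ i j, i ≠ j → LinearIndependent ℝ ![α i, α j])
    (h : SameMatroid α β) {r : ι → ℝ} (hL : LinSys α r) : LinSys β r := by
  intro i
  rw [flatsAt_eq_of_sameMatroid hli h i]
  exact hL i

lemma sameMatroid_smul (x : ι → Dual ℝ V) {t : ι → ℝ} (ht : ∀ i, t i ≠ 0) :
    SameMatroid x (fun i => t i • x i) :=
  linearIndepOn_scaled (LinearEquiv.refl ℝ (Dual ℝ V)) t ht (fun _ => rfl)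

/-- the condition on the norms that characterises irreducible vee-systems: they add up to the
dimension, the norms of a proper nonempty part add up to less than its rank, and the linear system
of the flats of rank two holds -/
structure NormData [DecidableEq ι] (x : ι → Dual ℝ V) (r : ι → ℝ) : Prop where
  sum_eq : ∑ i, r i = finrank ℝ V
  lt_rank : ∀ I : Finset ι, I.Nonempty → I ≠ Finset.univ →
    ∑ i ∈ I, r i < finrank ℝ (span ℝ (x '' (I : Set ι)))
  linSys : LinSys x r

lemma normData_of_sameMatroid [DecidableEq ι]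
    (hli : ∀ i j, i ≠ j → LinearIndependent ℝ ![α i, α j])
    (h : SameMatroid α β) {r : ι → ℝ} (hr : NormData α r) : NormData β r where
  sum_eq := hr.sum_eq
  lt_rank := fun I h1 h2 => by
    rw [← rank_eq_of_sameMatroid h]
    exact hr.lt_rank I h1 h2
  linSys := linSys_of_sameMatroid hli h hr.linSys

/-- an irreducible vee-system satisfies the conditions -/
theorem normData_of_isVeeSystem [DecidableEq ι] (hn : 3 ≤ finrank ℝ V) (hα : IsVeeSystem α)
    (hirr : IsIrreducible α) : NormData α (fun i => gram α i i) where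
  sum_eq := sum_gram_self hα.spans
  lt_rank := fun I h1 h2 => sum_lt_rank hα.spans hirr I h1 h2
  linSys := linSys_of_isVeeSystem hα (many_of_irr hα hirr hn)

/-- the conditions imply irreducibility -/
theorem irreducible_of_normData [DecidableEq ι] {r : ι → ℝ}
    (hr : NormData α r) : IsIrreducible α := by
  classical
  intro s hs1 hs2 hcompl
  have h1 := Submodule.finrank_add_eq_of_isCompl hcompl
  have hS : (s.toFinset : Set ι) = s := Set.coe_toFinset s
  have hS' : (sᶜ.toFinset : Set ι) = sᶜ := Set.coe_toFinset sᶜ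
  have e1 := hr.lt_rank s.toFinset (by simpa using hs1) (by
    intro h
    obtain ⟨i, hi⟩ := hs2
    have : i ∈ s.toFinset := by rw [h]; exact Finset.mem_univ i
    exact hi (by simpa using this))
  have e2 := hr.lt_rank sᶜ.toFinset (Set.toFinset_nonempty.mpr hs2) (by
    intro h
    obtain ⟨i, hi⟩ := hs1
    have h1 : i ∈ sᶜ.toFinset := by rw [h]; exact Finset.mem_univ i
    exact (Set.mem_toFinset.mp h1) hi)
  rw [hS] at e1
  rw [hS'] at e2
  have e3 : ∑ i ∈ s.toFinset, r i + ∑ i ∈ sᶜ.toFinset, r i = ∑ i, r i := by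
    rw [Set.toFinset_compl]
    exact Finset.sum_add_sum_compl _ _
  have e4 : ((finrank ℝ (span ℝ (α '' s)) : ℝ)) + finrank ℝ (span ℝ (α '' sᶜ)) = finrank ℝ V := by
    rw [← Nat.cast_add, h1, Subspace.dual_finrank_eq]
  have e5 := hr.sum_eq
  linarith

/-- **Every family satisfying the conditions can be rescaled to a vee-system.** -/
theorem exists_vee_rescaling [DecidableEq ι] (x : ι → Dual ℝ V) (hs : span ℝ (Set.range x) = ⊤)
    (hli : ∀ i j, i ≠ j → LinearIndependent ℝ ![x i, x j]) (h0 : ∀ i, x i ≠ 0) {r : ι → ℝ}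
    (hr : NormData x r) :
    ∃ t : ι → ℝ, (∀ i, 0 < t i) ∧ IsVeeSystem (fun i => t i • x i) ∧
      ∀ i, gram (fun i => t i • x i) i i = r i := by
  obtain ⟨t, ht, htr⟩ := exists_rescaling x hs r hr.sum_eq hr.lt_rank
  have hm : SameMatroid x (fun i => t i • x i) := sameMatroid_smul x (fun i => (ht i).ne')
  have hL := linSys_of_sameMatroid hli hm hr.linSys
  refine ⟨t, ht, ?_, htr⟩
  apply isVeeSystem_of_linSys (spans_of_sameMatroid hm hs)
  · intro i h
    rcases smul_eq_zero.mp h with h1 | h1
    · exact (ht i).ne' h1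
    · exact h0 i h1
  · exact pair_of_sameMatroid hm hli
  · have : (fun i => gram (fun i => t i • x i) i i) = r := funext htr
    rw [this]
    exact hL

lemma isNu_half (hα : IsVeeSystem α) {i j : ι} (hij : i ≠ j) (h3 : 3 ≤ (fl α i j).card) :
    IsNu α (span ℝ {α i, α j}) ((∑ l ∈ fl α i j, gram α l l) / 2) := by
  classical
  obtain ⟨c, hc⟩ := exists_nu hα hij h3
  have h1 := nu_eq_half hα.spans (hα.noncollinear i j hij) (ν := c)
    (fun k hk m _ => gram_nu hα hc hk m)
  rw [← h1.1]
  exact hc

/-- vee-systems with the same matroid and the same norms have the same nu-function -/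
theorem sameNu_of_norms (hα : IsVeeSystem α) (hβ : IsVeeSystem β) (hm : SameMatroid α β)
    (hr : ∀ i, gram α i i = gram β i i) : SameNu α β := by
  classical
  intro P hP hcard
  obtain ⟨i, hi, j, hj, hij⟩ : ∃ i ∈ {i | α i ∈ P}, ∃ j ∈ {i | α i ∈ P}, i ≠ j := by
    have := (Set.one_lt_ncard_iff (Set.toFinite _)).mp (lt_trans (by norm_num) hcard)
    obtain ⟨a, b, ha, hb, hab⟩ := this
    exact ⟨a, ha, b, hb, hab⟩
  have hPs : P = span ℝ {α i, α j} := by
    symm
    apply Submodule.eq_of_le_of_finrank_le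
    · rw [span_le]
      rintro y (rfl | rfl)
      · exact hi
      · exact hj
    · rw [hP, finrank_pair (hα.noncollinear i j hij)]
  have hset : {k | α k ∈ P} = (fl α i j : Set ι) := by
    ext k
    simp [mem_fl, hPs]
  have h3 : 3 ≤ (fl α i j).card := by
    rw [hset, Set.ncard_coe_finset] at hcard
    omega
  have hfl := fl_eq_of_sameMatroid hα hβ hm hij
  refine ⟨(∑ l ∈ fl α i j, gram α l l) / 2, ?_, ?_⟩
  · rw [hPs]; exact isNu_half hα hij h3
  · rw [hset, ← hfl, span_image_fl]
    have := isNu_half hβ hij (by rw [hfl]; exact h3)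
    rw [Finset.sum_congr rfl fun l _ => hr l]
    exact this

/-- vee-systems with the same matroid and the same nu-function have the same norms -/
theorem norms_of_sameNu (hn : 3 ≤ finrank ℝ V) (hα : IsVeeSystem α) (hirr : IsIrreducible α)
    (hβ : IsVeeSystem β) (hm : SameMatroid α β) (hnu : SameNu α β) (i : ι) :
    gram α i i = gram β i i := by
  classical
  have hmany := many_of_irr hα hirr hn
  have hfl : ∀ i j, i ≠ j → fl β i j = fl α i j := fun i j hij =>
    fl_eq_of_sameMatroid hα hβ hm hij
  have sα : Sys α (gram α) (nuFun α) := sys_of hα _ (fun i j hij h3 => nuFun_spec hα hij h3) hmany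
  have sβ : Sys β (gram β) (nuFun α) := by
    apply sys_of hβ _ (fun i j hij h3 => nuFun_spec' hα hβ hm hnu hij h3)
    intro i
    obtain ⟨j, k, h1, h2, h3, h4, h5⟩ := hmany i
    refine ⟨j, k, h1, h2, ?_, ?_, ?_⟩
    · rw [hfl i j h1]; exact h3
    · rw [hfl i k h2]; exact h4
    · rw [hfl i j h1]; exact h5
  exact sα.diag_unique sβ hfl i

/-- **Every real realisation of the matroid of an irreducible vee-system can be rescaled to a
vee-system with the same nu-function.** -/
theorem realisation_rescales (hn : 3 ≤ finrank ℝ V) (hα : IsVeeSystem α)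
    (hirr : IsIrreducible α) (hm : SameMatroid α β) :
    ∃ t : ι → ℝ, (∀ i, 0 < t i) ∧ IsVeeSystem (fun i => t i • β i) ∧
      SameNu α (fun i => t i • β i) ∧ ∀ i, gram (fun i => t i • β i) i i = gram α i i := by
  classical
  have hr := normData_of_sameMatroid hα.noncollinear hm (normData_of_isVeeSystem hn hα hirr)
  have hli := pair_of_sameMatroid hm hα.noncollinear
  have h0 : ∀ i, β i ≠ 0 := by
    intro i h
    have h1 : LinearIndepOn ℝ α {i} := LinearIndepOn.singleton (hα.ne_zero i)
    have h2 := (hm _).mp h1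
    have := h2.ne_zero (Set.mem_singleton i)
    exact this h
  obtain ⟨t, ht, hv, hg⟩ := exists_vee_rescaling β (spans_of_sameMatroid hm hα.spans) hli h0 hr
  have hm' : SameMatroid α (fun i => t i • β i) :=
    hm.trans (sameMatroid_smul β (fun i => (ht i).ne'))
  exact ⟨t, ht, hv, sameNu_of_norms hα hv hm' (fun i => (hg i).symm), hg⟩

/-- realisations are projectively equivalent, label by label -/
def ProjEquiv (α β : ι → Dual ℝ V) : Prop :=
  ∃ (g : Dual ℝ V ≃ₗ[ℝ] Dual ℝ V) (c : ι → ℝ), (∀ i, c i ≠ 0) ∧ ∀ i, β i = c i • g (α i)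

/-- `B = g(A)` up to signs of the covectors, label by label -/
def SignEquiv (α β : ι → Dual ℝ V) : Prop :=
  ∃ g : Dual ℝ V ≃ₗ[ℝ] Dual ℝ V, ∀ i, β i = g (α i) ∨ β i = - g (α i)

/-- the square of the norm `|α i|` -/
noncomputable def normSq (α : ι → Dual ℝ V) (i : ι) : ℝ := α i (vee α (α i))

lemma SignEquiv.projEquiv (h : SignEquiv α β) : ProjEquiv α β := by
  classical
  obtain ⟨g, hg⟩ := h
  refine ⟨g, fun i => if β i = g (α i) then 1 else -1, fun i => ?_, fun i => ?_⟩
  · by_cases h : β i = g (α i) <;> simp [h]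
  · by_cases h : β i = g (α i)
    · simp [h]
    · rcases hg i with h1 | h1
      · exact absurd h1 h
      · simp only [if_neg h]
        rw [h1]; module

lemma ProjEquiv.sameMatroid (h : ProjEquiv α β) : SameMatroid α β := by
  obtain ⟨g, c, hc, h⟩ := h
  exact linearIndepOn_scaled g c hc h

lemma ProjEquiv.smul (h : ProjEquiv α β) {t : ι → ℝ} (ht : ∀ i, t i ≠ 0) :
    ProjEquiv α (fun i => t i • β i) := by
  obtain ⟨g, c, hc, h⟩ := h
  refine ⟨g, fun i => t i * c i, fun i => mul_ne_zero (ht i) (hc i), fun i => ?_⟩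
  simp only
  rw [h i, smul_smul]

end Pool.Agent.MP_de770b_mp
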