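import Mathlib
import Pool.Agent.MP_de770b_mp.MatroidMain

/-! Relabelling, and the equivalence of the question with uniqueness of realisations. -/

set_option linter.unusedSectionVars false

namespace Pool.Agent.MP_de770b_mp

open Module Submodule

variable {ι : Type*} [Fintype ι] {V : Type*} [AddCommGroup V] [Module ℝ V]
  [FiniteDimensional ℝ V] {α β γ : ι → Dual ℝ V}

lemma form_comp (β : ι → Dual ℝ V) (τ : Equiv.Perm ι) (u v : V) :
    form (fun i => β (τ i)) u v = form β u v := by
  unfold form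
  exact Equiv.sum_comp τ (fun i => β i u * β i v)

lemma vee_comp (β : ι → Dual ℝ V) (τ : Equiv.Perm ι) (δ : Dual ℝ V) :
    vee (fun i => β (τ i)) δ = vee β δ := by
  unfold vee
  simp only [form_comp]

lemma gram_comp (β : ι → Dual ℝ V) (τ : Equiv.Perm ι) (i j : ι) :
    gram (fun i => β (τ i)) i j = gram β (τ i) (τ j) := by
  unfold gram
  rw [vee_comp]

lemma planeOp_comp (β : ι → Dual ℝ V) (τ : Equiv.Perm ι) (P : Submodule ℝ (Dual ℝ V)) (u : V) :
    planeOp (fun i => β (τ i)) P u = planeOp β P u := by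
  classical
  unfold planeOp
  simp only [vee_comp]
  rw [Finset.sum_filter, Finset.sum_filter]
  exact Equiv.sum_comp τ (fun i => if β i ∈ P then β i u • vee β (β i) else 0)

lemma isVeeSystem_comp (hβ : IsVeeSystem β) (τ : Equiv.Perm ι) :
    IsVeeSystem (fun i => β (τ i)) where
  ne_zero := fun i => hβ.ne_zero (τ i)
  noncollinear := fun i j hij => hβ.noncollinear _ _ (fun h => hij (τ.injective h))
  spans := by
    have : Set.range (fun i => β (τ i)) = Set.range β := τ.surjective.range_comp β
    rw [this]; exact hβ.spans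
  vee_cond := by
    intro P hP i hi
    obtain ⟨c, hc⟩ := hβ.vee_cond P hP (τ i) hi
    refine ⟨c, ?_⟩
    rw [planeOp_comp, vee_comp]
    exact hc

lemma sameMatroid_comp (h : SameMatroid α β) (τ : Equiv.Perm ι) :
    SameMatroid (fun i => α (τ i)) (fun i => β (τ i)) := by
  intro s
  have h1 : ∀ δ : ι → Dual ℝ V, LinearIndepOn ℝ (fun i => δ (τ i)) s ↔
      LinearIndepOn ℝ δ (τ '' s) := fun δ => linearIndepOn_equiv τ
  rw [h1 α, h1 β]
  exact h _

/-- the Gram matrix is invariant under `GL(V^*)` up to signs -/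
lemma gram_signEquiv (hα : span ℝ (Set.range α) = ⊤) (hβ : span ℝ (Set.range β) = ⊤)
    (h : SignEquiv α β) (i : ι) : gram β i i = gram α i i := by
  classical
  obtain ⟨g, hg⟩ := h
  -- the transposed map
  obtain ⟨w, hw⟩ : ∃ w : V, ∀ δ : Dual ℝ V, δ w = (g δ) (vee β (β i)) := by
    obtain ⟨w, hw⟩ := (Module.evalEquiv ℝ V).surjective
      ((Dual.eval ℝ V (vee β (β i))) ∘ₗ (g : Dual ℝ V →ₗ[ℝ] Dual ℝ V))
    refine ⟨w, fun δ => ?_⟩
    have := LinearMap.congr_fun hw δ
    simpa using this
  have hsq : ∀ (j : ι) (u v : V), β j u * β j v = g (α j) u * g (α j) v := by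
    intro j u v
    rcases hg j with h | h <;> rw [h] <;> simp
  have key : ∀ δ : Dual ℝ V, ∀ u : V, (∀ ε : Dual ℝ V, ε u = (g.symm ε) (vee α δ)) →
      form β (vee β (β i)) u = form α w (vee α δ) := by
    intro δ u hu
    unfold form
    apply Finset.sum_congr rfl
    intro j _
    rw [hsq j, ← hw, hu (g (α j)), LinearEquiv.symm_apply_apply]
  obtain ⟨u, hu⟩ : ∃ u : V, ∀ ε : Dual ℝ V, ε u = (g.symm ε) (vee α (α i)) := by
    obtain ⟨u, hu⟩ := (Module.evalEquiv ℝ V).surjective
      ((Dual.eval ℝ V (vee α (α i))) ∘ₗ (g.symm : Dual ℝ V →ₗ[ℝ] Dual ℝ V))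
    refine ⟨u, fun ε => ?_⟩
    have := LinearMap.congr_fun hu ε
    simpa using this
  have h1 := key (α i) u hu
  rw [vee_spec hβ, form_comm, vee_spec hα, hw] at h1
  have h2 : β i u * β i (vee β (β i)) = g (α i) u * g (α i) (vee β (β i)) := hsq i _ _
  have h3 : g (α i) u = gram α i i := by
    rw [hu (g (α i)), LinearEquiv.symm_apply_apply]; rfl
  unfold gram
  rcases hg i with h | h
  · rw [h] at h1 ⊢
    rw [← h1, h3]
    rfl
  · have h4 : β i u = - gram α i i := by rw [h]; simp [h3]
    have h5 : g (α i) (vee β (β i)) = - (β i (vee β (β i))) := by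
      nth_rewrite 2 [h]; simp
    rw [h4, h5] at h1
    change β i (vee β (β i)) = gram α i i
    linarith

/-- The question for the vee-system `A`, up to signs of covectors: every vee-system `B` with a
matroid isomorphism `α i ↦ β i` matching the nu-functions is `g(A)` up to signs, as a set. -/
def DeterminedByNu (α : ι → Dual ℝ V) : Prop :=
  ∀ β : ι → Dual ℝ V, IsVeeSystem β → SameMatroid α β → SameNu α β →
    ∃ τ : Equiv.Perm ι, SignEquiv α (fun i => β (τ i))

/-- The matroid of `A` has only one real realisation up to projective equivalence and up to the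
automorphisms of the matroid that preserve the norms. -/
def UniqueRealisation (α : ι → Dual ℝ V) : Prop :=
  ∀ β : ι → Dual ℝ V, SameMatroid α β →
    ∃ τ : Equiv.Perm ι, SameMatroid α (fun i => α (τ i)) ∧ (∀ i, normSq α (τ i) = normSq α i) ∧
      ProjEquiv α (fun i => β (τ i))

theorem determined_iff (hn : 3 ≤ finrank ℝ V) (hα : IsVeeSystem α) (hirr : IsIrreducible α) :
    DeterminedByNu α ↔ UniqueRealisation α := by
  classical
  constructor
  · intro h β hm
    obtain ⟨t, ht, hv, hnu, hg⟩ := realisation_rescales hn hα hirr hm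
    have hm' : SameMatroid α (fun i => t i • β i) :=
      hm.trans (sameMatroid_smul β (fun i => (ht i).ne'))
    obtain ⟨τ, hτ⟩ := h _ hv hm' hnu
    have hvτ := isVeeSystem_comp hv τ
    refine ⟨τ, ?_, ?_, ?_⟩
    · have h1 : SameMatroid α (fun i => t (τ i) • β (τ i)) := hτ.projEquiv.sameMatroid
      exact h1.trans (sameMatroid_comp hm' τ).symm
    · intro i
      have h1 := gram_signEquiv hα.spans hvτ.spans hτ i
      have h2 := gram_comp (fun i => t i • β i) τ i i
      change gram α (τ i) (τ i) = gram α i i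
      rw [← hg (τ i), ← h1]
      exact h2.symm
    · have h1 := hτ.projEquiv.smul (t := fun i => (t (τ i))⁻¹)
        (fun i => inv_ne_zero (ht (τ i)).ne')
      have h2 : (fun i => (t (τ i))⁻¹ • t (τ i) • β (τ i)) = fun i => β (τ i) := by
        funext i
        rw [smul_smul, inv_mul_cancel₀ (ht (τ i)).ne', one_smul]
      rw [← h2]
      exact h1
  · intro h β hβ hm hnu
    obtain ⟨τ, hm1, hno, hp⟩ := h β hm
    have hβτ := isVeeSystem_comp hβ τ
    have hmτ := hp.sameMatroid
    have hnuτ : SameNu α (fun i => β (τ i)) := by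
      apply sameNu_of_norms hα hβτ hmτ
      intro i
      rw [gram_comp, ← norms_of_sameNu hn hα hirr hβ hm hnu (τ i)]
      exact (hno i).symm
    obtain ⟨g, c, hc, hgc⟩ := hp
    exact ⟨τ, unique_of_projective hn hα hβτ hirr g c hgc hnuτ⟩

/-- finitely many realisations -/
theorem finite_realisations (hn : 3 ≤ finrank ℝ V) (hα : IsVeeSystem α)
    (hirr : IsIrreducible α) :
    ∃ S : Set (ι → Dual ℝ V), S.Finite ∧ ∀ β, SameMatroid α β → ∃ δ ∈ S, ProjEquiv δ β := by
  obtain ⟨S, hS, hfin, hcov⟩ := finite_classes α hα hirr hn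
  refine ⟨S, hfin, fun β hm => ?_⟩
  obtain ⟨t, ht, hv, hnu, -⟩ := realisation_rescales hn hα hirr hm
  have hm' : SameMatroid α (fun i => t i • β i) :=
    hm.trans (sameMatroid_smul β (fun i => (ht i).ne'))
  obtain ⟨δ, hδ, g, hg⟩ := hcov _ ⟨hv, hm', hnu⟩
  refine ⟨δ, hδ, g, fun i => (t i)⁻¹, fun i => inv_ne_zero (ht i).ne', fun i => ?_⟩
  rw [← hg i, smul_smul, inv_mul_cancel₀ (ht i).ne', one_smul]

/-- the criterion -/
theorem criterion [DecidableEq ι] (hn : 3 ≤ finrank ℝ V) (x : ι → Dual ℝ V)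
    (hs : span ℝ (Set.range x) = ⊤) (hli : ∀ i j, i ≠ j → LinearIndependent ℝ ![x i, x j])
    (h0 : ∀ i, x i ≠ 0) (r : ι → ℝ) :
    (IsIrreducible x ∧ ∃ t : ι → ℝ, (∀ i, 0 < t i) ∧ IsVeeSystem (fun i => t i • x i) ∧
      ∀ i, normSq (fun i => t i • x i) i = r i) ↔ NormData x r := by
  constructor
  · rintro ⟨hirr, t, ht, hv, hg⟩
    have hm := sameMatroid_smul x (fun i => (ht i).ne')
    have hirr' : IsIrreducible (fun i => t i • x i) := by
      intro s h1 h2 hc
      apply hirr s h1 h2
      have hsp : ∀ s : Set ι, span ℝ ((fun i => t i • x i) '' s) = span ℝ (x '' s) := by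
        intro s
        apply le_antisymm
        · rw [span_le]
          rintro _ ⟨i, hi, rfl⟩
          exact Submodule.smul_mem _ _ (subset_span ⟨i, hi, rfl⟩)
        · rw [span_le]
          rintro _ ⟨i, hi, rfl⟩
          have : x i = (t i)⁻¹ • (t i • x i) := by
            rw [smul_smul, inv_mul_cancel₀ (ht i).ne', one_smul]
          rw [this]
          exact Submodule.smul_mem _ _ (subset_span ⟨i, hi, rfl⟩)
      rw [hsp, hsp] at hc
      exact hc
    have h1 := normData_of_isVeeSystem hn hv hirr'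
    have h2 : (fun i => gram (fun i => t i • x i) i i) = r := funext hg
    rw [h2] at h1
    exact normData_of_sameMatroid hv.noncollinear hm.symm h1
  · intro hr
    obtain ⟨t, ht, hv, hg⟩ := exists_vee_rescaling x hs hli h0 hr
    exact ⟨irreducible_of_normData hr, t, ht, hv, hg⟩

end Pool.Agent.MP_de770b_mp
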