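import Mathlib

/-!
Switching equivalence of two symmetric matrices with the same absolute values of the entries, when
any two non-orthogonal indices have a third index in their plane.
-/

namespace Pool.Agent.MP_de770b_mp

variable {ι : Type*}

/-- two symmetric matrices with the same absolute values, and for any two non-orthogonal indices a
third one in their plane -/
structure SwData (K K' : ι → ι → ℝ) : Prop where
  sym : ∀ i j, K i j = K j i
  sym' : ∀ i j, K' i j = K' j i
  sq : ∀ i j, K' i j ^ 2 = K i j ^ 2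
  diag : ∀ i, K' i i = K i i
  pos : ∀ i, K i i ≠ 0
  third : ∀ i j, i ≠ j → K i j ≠ 0 → ∃ k, ∃ x y x' y' : ℝ, x ≠ 0 ∧ y ≠ 0 ∧
    (∀ l, K k l = x * K i l + y * K j l) ∧ (∀ l, K' k l = x' * K' i l + y' * K' j l) ∧
    x' ^ 2 = x ^ 2 ∧ y' ^ 2 = y ^ 2 ∧ x' * y' * K' i j = x * y * K i j

/-- the sign of a pair -/
noncomputable def sg (K K' : ι → ι → ℝ) (i j : ι) : ℝ := K' i j / K i j

/-- there is a walk from `i` to `j` of length `n` along non-orthogonal pairs, with product of signs
`s` -/
inductive Wk (K K' : ι → ι → ℝ) : ι → ι → ℕ → ℝ → Prop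
  | nil (i : ι) : Wk K K' i i 0 1
  | cons {i j k : ι} {n : ℕ} {s : ℝ} : K i j ≠ 0 → Wk K K' j k n s →
      Wk K K' i k (n + 1) (sg K K' i j * s)

namespace SwData

variable {K K' : ι → ι → ℝ}

lemma sg_comm (h : SwData K K') (i j : ι) : sg K K' i j = sg K K' j i := by
  unfold sg
  rw [h.sym i j, h.sym' i j]

lemma sg_sq (h : SwData K K') {i j : ι} (hij : K i j ≠ 0) : sg K K' i j * sg K K' i j = 1 := by
  unfold sg
  rw [div_mul_div_comm, ← pow_two, ← pow_two, h.sq i j]
  exact div_self (pow_ne_zero 2 hij)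

lemma sg_self (h : SwData K K') (i : ι) : sg K K' i i = 1 := by
  unfold sg
  rw [h.diag i]
  exact div_self (h.pos i)

lemma sg_mul (K' : ι → ι → ℝ) {i j : ι} (hij : K i j ≠ 0) : sg K K' i j * K i j = K' i j := by
  unfold sg
  field_simp

lemma third_sg (h : SwData K K') {i j : ι} {x y x' y' : ℝ} (hij : K i j ≠ 0)
    (he : x' * y' * K' i j = x * y * K i j) : x' * y' = sg K K' i j * (x * y) := by
  have h1 : x' * y' * (sg K K' i j * K i j) = x * y * K i j := by rw [sg_mul K' hij]; exact he
  have h2 : x' * y' * sg K K' i j = x * y := mul_right_cancel₀ hij (by rw [← h1]; ring)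
  have h3 := h.sg_sq hij
  calc x' * y' = x' * y' * (sg K K' i j * sg K K' i j) := by rw [h3, mul_one]
    _ = sg K K' i j * (x' * y' * sg K K' i j) := by ring
    _ = sg K K' i j * (x * y) := by rw [h2]

/-- triangles are balanced -/
lemma tri (h : SwData K K') {i j k : ι} (hij : K i j ≠ 0) (hjk : K j k ≠ 0) (hik : K i k ≠ 0) :
    sg K K' i j * sg K K' j k = sg K K' i k := by
  by_cases he : i = j
  · subst he
    rw [h.sg_self, one_mul]
  obtain ⟨l, x, y, x', y', hx, hy, hK, hK', hxx, hyy, hxy⟩ := h.third i j he hij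
  have h1 := h.third_sg hij hxy
  have h2 : (x' * K' i k + y' * K' j k) ^ 2 = (x * K i k + y * K j k) ^ 2 := by
    rw [← hK' k, ← hK k]; exact h.sq l k
  have e1 := h.sq i k
  have e2 := h.sq j k
  have h3 : x' * y' * (K' i k * K' j k) = x * y * (K i k * K j k) := by
    have : 2 * (x' * y' * (K' i k * K' j k)) = 2 * (x * y * (K i k * K j k)) := by
      calc 2 * (x' * y' * (K' i k * K' j k))
          = (x' * K' i k + y' * K' j k) ^ 2 - x' ^ 2 * K' i k ^ 2 - y' ^ 2 * K' j k ^ 2 := by ring
        _ = (x * K i k + y * K j k) ^ 2 - x ^ 2 * K i k ^ 2 - y ^ 2 * K j k ^ 2 := by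
            rw [h2, hxx, hyy, e1, e2]
        _ = 2 * (x * y * (K i k * K j k)) := by ring
    linarith
  rw [h1, ← sg_mul K' hik, ← sg_mul K' hjk] at h3
  have h4 : x * y * (K i k * K j k) * (sg K K' i j * sg K K' i k * sg K K' j k)
      = x * y * (K i k * K j k) * 1 := by
    rw [mul_one]
    refine Eq.trans ?_ h3
    ring
  have h5 := mul_left_cancel₀ (mul_ne_zero (mul_ne_zero hx hy) (mul_ne_zero hik hjk)) h4
  calc sg K K' i j * sg K K' j k
      = sg K K' i j * sg K K' j k * (sg K K' i k * sg K K' i k) := by rw [h.sg_sq hik, mul_one]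
    _ = (sg K K' i j * sg K K' i k * sg K K' j k) * sg K K' i k := by ring
    _ = sg K K' i k := by rw [h5, one_mul]

lemma snoc {i j k : ι} {n : ℕ} {s : ℝ} (hw : Wk K K' i j n s) (hjk : K j k ≠ 0) :
    Wk K K' i k (n + 1) (s * sg K K' j k) := by
  induction hw with
  | nil i => rw [one_mul, ← mul_one (sg K K' i k)]; exact Wk.cons hjk (Wk.nil k)
  | cons h _ ih => rw [mul_assoc]; exact Wk.cons h (ih hjk)

lemma unsnoc {i k : ι} {n : ℕ} {s : ℝ} (hw : Wk K K' i k (n + 1) s) :
    ∃ j t, Wk K K' i j n t ∧ K j k ≠ 0 ∧ s = t * sg K K' j k := by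
  induction n generalizing i s with
  | zero =>
    cases hw with
    | cons h hw' =>
      cases hw' with
      | nil => exact ⟨i, 1, Wk.nil i, h, by ring⟩
  | succ n ih =>
    cases hw with
    | cons h hw' =>
      obtain ⟨j, t, h1, h2, h3⟩ := ih hw'
      exact ⟨j, _, Wk.cons h h1, h2, by rw [h3, mul_assoc]⟩

lemma append {i j k : ι} {n m : ℕ} {s t : ℝ} (hw : Wk K K' i j n s) (hw' : Wk K K' j k m t) :
    Wk K K' i k (n + m) (s * t) := by
  induction hw with
  | nil i => rw [one_mul, zero_add]; exact hw'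
  | cons h _ ih =>
    rw [mul_assoc, Nat.add_right_comm]
    exact Wk.cons h (ih hw')

lemma reverse (h : SwData K K') {i j : ι} {n : ℕ} {s : ℝ} (hw : Wk K K' i j n s) :
    Wk K K' j i n s := by
  induction hw with
  | nil i => exact Wk.nil i
  | @cons i j k n s hij _ ih =>
    rw [mul_comm, h.sg_comm i j]
    exact snoc ih (by rw [h.sym j i]; exact hij)

lemma wk_sq (h : SwData K K') {i j : ι} {n : ℕ} {s : ℝ} (hw : Wk K K' i j n s) : s * s = 1 := by
  induction hw with
  | nil i => norm_num
  | @cons i j k n s hij _ ih =>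
    calc sg K K' i j * s * (sg K K' i j * s) = (sg K K' i j * sg K K' i j) * (s * s) := by ring
      _ = 1 := by rw [h.sg_sq hij, ih, one_mul]

/-- closed walks are balanced -/
theorem closed (h : SwData K K') : ∀ (n : ℕ) (i : ι) (s : ℝ), Wk K K' i i n s → s = 1 := by
  intro n
  induction n using Nat.strong_induction_on with
  | _ n ih =>
  intro i s hw
  match n, hw, ih with
  | 0, hw, _ =>
    cases hw with
    | nil => rfl
  | 1, hw, _ =>
    cases hw with
    | cons h1 hw' =>
      cases hw' with
      | nil => rw [h.sg_self, one_mul]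
  | 2, hw, _ =>
    cases hw with
    | @cons _ j _ _ _ h1 hw' =>
      cases hw' with
      | cons h2 hw'' =>
        cases hw'' with
        | nil => rw [mul_one, h.sg_comm j i, h.sg_sq h1]
  | n + 3, hw, ih =>
    cases hw with
    | @cons _ i1 _ _ _ h01 hw1 =>
      cases hw1 with
      | @cons _ i2 _ _ s'' h12 q =>
        obtain ⟨m, t, q', hm, hs⟩ := unsnoc q
        by_cases h02 : K i i2 ≠ 0
        · have h1 := ih (n + 2) (by omega) i _ (Wk.cons h02 q)
          rw [← mul_assoc, h.tri h01 h12 h02]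
          exact h1
        push Not at h02
        by_cases hm1 : K m i1 ≠ 0
        · have h1 := ih (n + 2) (by omega) i1 _ (Wk.cons h12 (snoc q' hm1))
          have h2 := h.tri hm h01 hm1
          rw [hs, ← h1, ← h2]
          have h3 := h.sg_sq h01
          have h4 := h.sg_sq hm
          rw [h.sg_comm m i]
          ring
        push Not at hm1
        have hne : i ≠ i1 := by
          rintro rfl
          exact h12 h02
        obtain ⟨j, x, y, x', y', hx, hy, hK, hK', hxx, hyy, hxy⟩ := h.third i i1 hne h01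
        have hxy' := h.third_sg h01 hxy
        have e1 : K j i2 = y * K i1 i2 := by rw [hK, h02]; ring
        have e2 : K j m = x * K i m := by rw [hK, h.sym i1 m, hm1]; ring
        have z1 : K' i i2 = 0 := by
          have := h.sq i i2
          rw [h02] at this
          exact pow_eq_zero_iff (two_ne_zero) |>.mp (by rw [this]; norm_num)
        have z2 : K' i1 m = 0 := by
          have := h.sq i1 m
          rw [h.sym i1 m, hm1] at this
          exact pow_eq_zero_iff (two_ne_zero) |>.mp (by rw [this]; norm_num)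
        have e3 : K' j i2 = y' * K' i1 i2 := by rw [hK', z1]; ring
        have e4 : K' j m = x' * K' i m := by rw [hK', z2]; ring
        have him : K i m ≠ 0 := by rw [h.sym]; exact hm
        have hj2 : K j i2 ≠ 0 := by rw [e1]; exact mul_ne_zero hy h12
        have hjm : K j m ≠ 0 := by rw [e2]; exact mul_ne_zero hx him
        have hmj : K m j ≠ 0 := by rw [h.sym]; exact hjm
        have h1 := ih (n + 2) (by omega) j _ (Wk.cons hj2 (snoc q' hmj))
        have f1 : sg K K' j i2 * sg K K' j m = sg K K' i i1 * (sg K K' i1 i2 * sg K K' i m) := by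
          have g1 : sg K K' j i2 = y' / y * sg K K' i1 i2 := by
            unfold sg
            rw [e1, e3]
            field_simp
          have g2 : sg K K' j m = x' / x * sg K K' i m := by
            unfold sg
            rw [e2, e4]
            field_simp
          have g3 : y' / y * (x' / x) = sg K K' i i1 := by
            rw [div_mul_div_comm, mul_comm y' x', hxy', mul_comm y x]
            field_simp
          rw [g1, g2, ← g3]
          ring
        rw [hs]
        rw [h.sg_comm m j] at h1
        rw [h.sg_comm m i, ← h1]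
        calc sg K K' i i1 * (sg K K' i1 i2 * (t * sg K K' i m))
            = (sg K K' i i1 * (sg K K' i1 i2 * sg K K' i m)) * t := by ring
          _ = sg K K' j i2 * (t * sg K K' j m) := by rw [← f1]; ring

/-- **Switching equivalence.** -/
theorem switching (h : SwData K K')
    (hconn : ∀ s : Set ι, s.Nonempty → sᶜ.Nonempty → ∃ i ∈ s, ∃ j ∈ sᶜ, K i j ≠ 0) :
    ∃ ε : ι → ℝ, (∀ i, ε i * ε i = 1) ∧ ∀ i j, K' i j = ε i * ε j * K i j := by
  rcases isEmpty_or_nonempty ι with he | ⟨⟨i0⟩⟩
  · exact ⟨fun _ => 1, fun i => he.elim i, fun i => he.elim i⟩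
  have hreach : ∀ i, ∃ n s, Wk K K' i0 i n s := by
    by_contra hcon
    push Not at hcon
    obtain ⟨i1, hi1⟩ := hcon
    obtain ⟨i, hi, j, hj, hij⟩ := hconn {i | ∃ n s, Wk K K' i0 i n s} ⟨i0, 0, 1, Wk.nil i0⟩
      ⟨i1, fun ⟨n, s, hw⟩ => hi1 n s hw⟩
    obtain ⟨n, s, hw⟩ := hi
    exact hj ⟨n + 1, _, snoc hw hij⟩
  choose n ε hε using hreach
  refine ⟨ε, fun i => h.wk_sq (hε i), fun i j => ?_⟩
  by_cases hij : K i j = 0
  · rw [hij, mul_zero]
    have := h.sq i j
    rw [hij] at this
    exact pow_eq_zero_iff (two_ne_zero) |>.mp (by rw [this]; norm_num)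
  · have hw := append (snoc (hε i) hij) (h.reverse (hε j))
    have h1 := h.closed _ _ _ hw
    have h2 := h.wk_sq (hε i)
    have h3 := h.wk_sq (hε j)
    have h4 : sg K K' i j = ε i * ε j := by
      calc sg K K' i j = (ε i * ε i) * sg K K' i j * (ε j * ε j) := by rw [h2, h3]; ring
        _ = ε i * ε j * (ε i * sg K K' i j * ε j) := by ring
        _ = ε i * ε j := by rw [h1, mul_one]
    rw [← h4, sg_mul K' hij]

end SwData

end Pool.Agent.MP_de770b_mp
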