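import Mathlib
import Pool.Agent.MP_de770b_mp.Reindex
import Pool.Agent.MP_de770b_mp.Switch

/-! Uniqueness of vee-systems from uniqueness on subsystems. -/

set_option linter.unusedSectionVars false

namespace Pool.Agent.MP_de770b_mp

open Module Submodule

variable {ι : Type*} [Fintype ι] {V : Type*} [AddCommGroup V] [Module ℝ V]
  [FiniteDimensional ℝ V] {α β γ : ι → Dual ℝ V}

/-- coefficients in a plane in terms of the Gram matrix -/
lemma coeff_of_comb (hs : span ℝ (Set.range γ) = ⊤) {i j k : ι} {x y : ℝ}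
    (h : γ k = x • γ i + y • γ j) :
    (∀ l, gram γ k l = x * gram γ i l + y * gram γ j l) ∧
    gram γ k k = x ^ 2 * gram γ i i + 2 * (x * y * gram γ i j) + y ^ 2 * gram γ j j ∧
    gram γ j j * gram γ k k - gram γ j k ^ 2
      = x ^ 2 * (gram γ i i * gram γ j j - gram γ i j ^ 2) ∧
    gram γ i i * gram γ k k - gram γ i k ^ 2
      = y ^ 2 * (gram γ i i * gram γ j j - gram γ i j ^ 2) := by
  have h1 : ∀ l, gram γ k l = x * gram γ i l + y * gram γ j l := by
    intro l
    unfold gram
    rw [h]; simp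
  have h2 : gram γ i k = x * gram γ i i + y * gram γ i j := by
    rw [gram_sym hs i k, h1 i, gram_sym hs j i]
  have h3 : gram γ j k = x * gram γ i j + y * gram γ j j := by
    rw [gram_sym hs j k, h1 j]
  have h4 : gram γ k k = x ^ 2 * gram γ i i + 2 * (x * y * gram γ i j) + y ^ 2 * gram γ j j := by
    rw [h1 k, h2, h3]; ring
  refine ⟨h1, h4, ?_, ?_⟩
  · rw [h4, h3]; ring
  · rw [h4, h2]; ring

/-- vee-systems with the same matroid, norms and absolute values of scalar products -/
theorem signEquiv_of_abs (hα : IsVeeSystem α) (hirr : IsIrreducible α)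
    (hβ : IsVeeSystem β) (hm : SameMatroid α β) (hd : ∀ i, gram β i i = gram α i i)
    (habs : ∀ i j, gram β i j ^ 2 = gram α i j ^ 2) : SignEquiv α β := by
  classical
  have hs := hα.spans
  have hs' := hβ.spans
  have hdata : SwData (gram α) (gram β) := by
    refine ⟨gram_sym hs, gram_sym hs', habs, hd, fun i => (gram_pos hα i).ne', ?_⟩
    intro i j hij hK
    have h3 : 3 ≤ (fl α i j).card := by
      by_contra hcon
      push Not at hcon
      exact hK (gram_two hα hij hcon)
    obtain ⟨k, hk, hki, hkj⟩ := Sys.exists_third h3 i j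
    have hfl := fl_eq_of_sameMatroid hα hβ hm hij
    have hk' : k ∈ fl β i j := by rw [hfl]; exact hk
    obtain ⟨x, y, hxy⟩ := mem_span_pair.mp (mem_fl.mp hk)
    obtain ⟨x', y', hxy'⟩ := mem_span_pair.mp (mem_fl.mp hk')
    have hx : x ≠ 0 := by
      rintro rfl
      have := hα.noncollinear k j hkj
      rw [LinearIndependent.pair_iff] at this
      have h1 := this 1 (-y) (by rw [← hxy]; module)
      exact one_ne_zero h1.1
    have hy : y ≠ 0 := by
      rintro rfl
      have := hα.noncollinear k i hki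
      rw [LinearIndependent.pair_iff] at this
      have h1 := this 1 (-x) (by rw [← hxy]; module)
      exact one_ne_zero h1.1
    obtain ⟨a1, a2, a3, a4⟩ := coeff_of_comb hs hxy.symm
    obtain ⟨b1, b2, b3, b4⟩ := coeff_of_comb hs' hxy'.symm
    have hD : gram β i i * gram β j j - gram β i j ^ 2
        = gram α i i * gram α j j - gram α i j ^ 2 := by rw [hd, hd, habs]
    have hDpos : gram α i i * gram α j j - gram α i j ^ 2 ≠ 0 := by
      have := gram_det hα hij
      intro h0
      linarith
    have hxx : x' ^ 2 = x ^ 2 := by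
      rw [hD, hd, hd, habs, a3] at b3
      exact (mul_right_cancel₀ hDpos b3).symm
    have hyy : y' ^ 2 = y ^ 2 := by
      rw [hD, hd, hd, habs, a4] at b4
      exact (mul_right_cancel₀ hDpos b4).symm
    refine ⟨k, x, y, x', y', hx, hy, a1, b1, hxx, hyy, ?_⟩
    rw [hd, hd, hd, hxx, hyy, a2] at b2
    linarith
  obtain ⟨ε, hε, hK⟩ := hdata.switching (irr_gram hs hirr)
  -- the family with changed signs
  set δ : ι → Dual ℝ V := fun i => ε i • β i with hδ
  have hε0 : ∀ i, ε i ≠ 0 := by
    intro i h0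
    have := hε i
    rw [h0] at this
    norm_num at this
  have hsδ : span ℝ (Set.range δ) = ⊤ := spans_of_sameMatroid (sameMatroid_smul β hε0) hs'
  have hform : ∀ u v, form δ u v = form β u v := by
    intro u v
    unfold form
    apply Finset.sum_congr rfl
    intro i _
    simp only [hδ, LinearMap.smul_apply, smul_eq_mul]
    calc ε i * β i u * (ε i * β i v) = (ε i * ε i) * (β i u * β i v) := by ring
      _ = β i u * β i v := by rw [hε i, one_mul]
  have hvee : ∀ c, vee δ c = vee β c := by
    intro c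
    unfold vee
    simp only [hform]
  have hgram : gram α = gram δ := by
    funext i j
    have h1 : gram δ i j = ε i * ε j * gram β i j := by
      unfold gram
      rw [hvee]
      simp only [hδ]
      rw [vee_smul hs', map_smul, LinearMap.smul_apply, smul_eq_mul, smul_eq_mul]
      ring
    rw [h1, hK]
    calc gram α i j = (ε i * ε i) * (ε j * ε j) * gram α i j := by rw [hε, hε]; ring
      _ = ε i * ε j * (ε i * ε j * gram α i j) := by ring
  obtain ⟨g, hg⟩ := glEquiv_of_gram_eq hs hsδ hgram
  refine ⟨g, fun i => ?_⟩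
  have h1 := hg i
  have h2 : ε i = 1 ∨ ε i = -1 := mul_self_eq_one_iff.mp (hε i)
  simp only [hδ] at h1
  rcases h2 with h2 | h2
  · left; rw [← h1, h2, one_smul]
  · right; rw [← h1, h2]; module

/-! ### planes with three covectors -/

lemma sum_sq_plane (hα : IsVeeSystem α) {i j : ι} (hij : i ≠ j) (h3 : 3 ≤ (fl α i j).card)
    {k : ι} (hk : k ∈ fl α i j) :
    ∑ l ∈ fl α i j, gram α k l ^ 2 = (∑ l ∈ fl α i j, gram α l l) / 2 * gram α k k := by
  classical
  have h1 := isNu_half hα hij h3
  have h2 := gram_nu hα h1 hk k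
  rw [← h2]
  exact Finset.sum_congr rfl fun l _ => by rw [gram_sym hα.spans l k]; ring

lemma sq_eq_of_card_three (hα : IsVeeSystem α) (hβ : IsVeeSystem β) (hm : SameMatroid α β)
    (hd : ∀ i, gram β i i = gram α i i) {i j : ι} (hij : i ≠ j) (h3 : (fl α i j).card = 3) :
    gram β i j ^ 2 = gram α i j ^ 2 := by
  classical
  have hfl := fl_eq_of_sameMatroid hα hβ hm hij
  obtain ⟨k, hk, hki, hkj⟩ := Sys.exists_third (v := fl α i j) (by omega) i j
  have hset : fl α i j = {i, j, k} := by
    symm
    apply Finset.eq_of_subset_of_card_le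
    · intro l hl
      simp only [Finset.mem_insert, Finset.mem_singleton] at hl
      rcases hl with rfl | rfl | rfl
      · exact left_mem_fl α l j
      · exact right_mem_fl α i l
      · exact hk
    · rw [h3, Finset.card_insert_of_notMem (by simp [hij, Ne.symm hki]),
        Finset.card_pair (Ne.symm hkj)]
  have hsum : ∀ f : ι → ℝ, ∑ l ∈ fl α i j, f l = f i + (f j + f k) := by
    intro f
    rw [hset, Finset.sum_insert (by simp [hij, Ne.symm hki]), Finset.sum_pair (Ne.symm hkj)]
  have ai := sum_sq_plane hα hij h3.ge (left_mem_fl α i j)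
  have aj := sum_sq_plane hα hij h3.ge (right_mem_fl α i j)
  have ak := sum_sq_plane hα hij h3.ge hk
  have h3' : 3 ≤ (fl β i j).card := by rw [hfl, h3]
  have bi := sum_sq_plane hβ hij h3' (left_mem_fl β i j)
  have bj := sum_sq_plane hβ hij h3' (right_mem_fl β i j)
  have bk := sum_sq_plane hβ hij h3' (k := k) (by rw [hfl]; exact hk)
  rw [hfl] at bi bj bk
  simp only [hsum] at ai aj ak bi bj bk
  rw [hd i, hd j, hd k] at bi bj bk
  rw [gram_sym hα.spans j i] at aj
  rw [gram_sym hα.spans k i, gram_sym hα.spans k j] at ak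
  rw [gram_sym hβ.spans j i] at bj
  rw [gram_sym hβ.spans k i, gram_sym hβ.spans k j] at bk
  linarith

/-! ### subsystems -/

/-- `X` contains with any two members all members of their plane -/
def LineClosed (α : ι → Dual ℝ V) (X : Finset ι) : Prop :=
  ∀ i ∈ X, ∀ j ∈ X, i ≠ j → fl α i j ⊆ X

/-- the subfamily over `X` is irreducible: `X` is not the union of two nonempty parts with
independent spans -/
def IrredOn (α : ι → Dual ℝ V) (X : Finset ι) : Prop :=
  ∀ s t : Set ι, s.Nonempty → t.Nonempty → s ∪ t = (X : Set ι) →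
    ¬ Disjoint (span ℝ (α '' s)) (span ℝ (α '' t))

/-- the subfamilies over `X` are projectively equivalent, label by label -/
def ProjEquivOn (α β : ι → Dual ℝ V) (X : Finset ι) : Prop :=
  ∃ (g : Dual ℝ V ≃ₗ[ℝ] Dual ℝ V) (c : ι → ℝ), ∀ i ∈ X, c i ≠ 0 ∧ β i = c i • g (α i)

lemma disjoint_of_orth (hs : span ℝ (Set.range α) = ⊤) {s t : Set ι}
    (h : ∀ i ∈ s, ∀ j ∈ t, gram α i j = 0) :
    Disjoint (span ℝ (α '' s)) (span ℝ (α '' t)) := by
  classical
  have horth : ∀ γ ∈ span ℝ (α '' s), ∀ δ ∈ span ℝ (α '' t), γ (vee α δ) = 0 := by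
    intro γ hγ δ hδ
    have hle : span ℝ (α '' t) ≤ LinearMap.ker (γ ∘ₗ (formE hs).symm.toLinearMap) := by
      rw [span_le]
      rintro _ ⟨j, hj, rfl⟩
      have hle2 : span ℝ (α '' s) ≤ LinearMap.ker (Dual.eval ℝ V (vee α (α j))) := by
        rw [span_le]
        rintro _ ⟨i, hi, rfl⟩
        exact h i hi j hj
      have := hle2 hγ
      rw [LinearMap.mem_ker, Dual.eval_apply] at this
      change γ ((formE hs).symm (α j)) = 0
      rw [← vee_eq hs]; exact this
    have := hle hδ
    rw [LinearMap.mem_ker] at this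
    rw [vee_eq hs]; exact this
  rw [disjoint_def]
  intro γ hγ hγ'
  have h3 := horth γ hγ γ hγ'
  rw [← vee_spec hs γ] at h3
  by_contra hne
  exact vee_ne_zero hs hne (form_self_eq_zero hs h3)

/-- a function on `X` that is constant along nonorthogonal pairs is constant -/
lemma const_of_irredOn (hs : span ℝ (Set.range α) = ⊤) {X : Finset ι} (hX : IrredOn α X)
    (f : ι → ℝ) (hf : ∀ i ∈ X, ∀ j ∈ X, gram α i j ≠ 0 → f i = f j) :
    ∀ i ∈ X, ∀ j ∈ X, f i = f j := by
  intro i hi j hj
  by_contra hne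
  apply hX {k | k ∈ X ∧ f k = f i} {k | k ∈ X ∧ f k ≠ f i} ⟨i, hi, rfl⟩
    ⟨j, hj, fun h => hne h.symm⟩
  · ext k
    simp only [Set.mem_union, Set.mem_ofPred_eq, Finset.mem_coe]
    constructor
    · rintro (h | h)
      · exact h.1
      · exact h.1
    · intro hk
      by_cases h : f k = f i
      · exact Or.inl ⟨hk, h⟩
      · exact Or.inr ⟨hk, h⟩
  · apply disjoint_of_orth hs
    rintro k ⟨hk, hk2⟩ l ⟨hl, hl2⟩
    by_contra hkl
    exact hl2 (by rw [← hf k hk l hl hkl, hk2])

open Classical in
/-- the eigenvalue of the operator of a line-closed subfamily -/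
noncomputable def lam (α : ι → Dual ℝ V) (r : ι → ℝ) (X : Finset ι) (i : ι) : ℝ :=
  r i + ∑ v ∈ (Sys.flatsAt α i).filter (fun v => v ⊆ X), ((∑ l ∈ v, r l) / 2 - r i)

open Classical in
lemma lam_spec (hα : IsVeeSystem α) {X : Finset ι} (hX : LineClosed α X) {i : ι} (hi : i ∈ X)
    (m : ι) : ∑ j ∈ X, gram α i j * gram α j m = lam α (fun l => gram α l l) X i * gram α i m := by
  have hli := hα.noncollinear
  have h1 : ∑ j ∈ X, gram α i j * gram α j m
      = ∑ j, if j ∈ X then gram α i j * gram α j m else 0 := by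
    rw [← Finset.sum_filter]
    apply Finset.sum_congr _ (fun _ _ => rfl)
    ext; simp
  rw [h1, ← Finset.add_sum_erase Finset.univ _ (Finset.mem_univ i), if_pos hi,
    sum_split hli i]
  have h2 : ∑ j ∈ ((Finset.univ : Finset ι).erase i).filter (fun j => ¬ 3 ≤ (fl α i j).card),
      (if j ∈ X then gram α i j * gram α j m else 0) = 0 := by
    apply Finset.sum_eq_zero
    intro j hj
    rw [Finset.mem_filter, Finset.mem_erase] at hj
    rw [gram_two hα (Ne.symm hj.1.1) (by omega), zero_mul, ite_self]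
  rw [h2, add_zero]
  unfold lam
  rw [Finset.sum_filter, add_mul, Finset.sum_mul]
  congr 1
  apply Finset.sum_congr rfl
  intro v hv
  obtain ⟨j, hij, h3, rfl⟩ := mem_flatsAt.mp hv
  by_cases hvX : fl α i j ⊆ X
  · rw [if_pos hvX]
    have h4 := gram_nu hα (isNu_half hα hij h3) (left_mem_fl α i j) m
    have h5 : ∑ k ∈ (fl α i j).erase i, (if k ∈ X then gram α i k * gram α k m else 0)
        = ∑ k ∈ (fl α i j).erase i, gram α i k * gram α k m :=
      Finset.sum_congr rfl fun k hk => if_pos (hvX (Finset.mem_of_mem_erase hk))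
    have h6 := Finset.add_sum_erase (fl α i j) (fun k => gram α i k * gram α k m)
      (left_mem_fl α i j)
    rw [h4] at h6
    rw [h5]
    linarith
  · rw [if_neg hvX, zero_mul]
    apply Finset.sum_eq_zero
    intro k hk
    rw [if_neg]
    intro hkX
    apply hvX
    have hk' := Finset.mem_erase.mp hk
    have := hX i hi k hkX (Ne.symm hk'.1)
    rw [fl_eq hli (left_mem_fl α i j) hk'.2 (Ne.symm hk'.1)] at this
    exact this

open Classical in
lemma lam_congr (hli : ∀ i j, i ≠ j → LinearIndependent ℝ ![α i, α j]) (hm : SameMatroid α β)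
    (r : ι → ℝ) (X : Finset ι) (i : ι) : lam β r X i = lam α r X i := by
  unfold lam
  rw [flatsAt_eq_of_sameMatroid hli hm i]

/-- tightness of a subfamily, for covectors -/
lemma tight_cov (hs : span ℝ (Set.range α) = ⊤) {X : Finset ι} {c : ℝ} {i : ι}
    (h : ∀ m, ∑ j ∈ X, gram α i j * gram α j m = c * gram α i m) (w : V) :
    ∑ j ∈ X, gram α i j * α j w = c * α i w := by
  have h1 : ∑ j ∈ X, gram α i j • α j = c • α i := by
    apply evalMap_injective hs
    funext m
    rw [map_sum, map_smul, Finset.sum_apply]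
    simp only [map_smul, Pi.smul_apply, smul_eq_mul, evalMap_apply]
    exact h m
  have h2 := congrArg (fun f : Dual ℝ V => f w) h1
  simpa [LinearMap.sum_apply] using h2

/-- On an irreducible line-closed subfamily, projective equivalence implies equality of the
absolute values of the scalar products. -/
theorem sq_eq_on (hα : IsVeeSystem α) (hβ : IsVeeSystem β) (hm : SameMatroid α β)
    (hd : ∀ i, gram β i i = gram α i i) {X : Finset ι} (hX : LineClosed α X)
    (hXi : IrredOn α X) (hp : ProjEquivOn α β X) :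
    ∀ i ∈ X, ∀ j ∈ X, gram β i j ^ 2 = gram α i j ^ 2 := by
  classical
  intro i0 hi0
  have hs := hα.spans
  have hs' := hβ.spans
  have hXβ : LineClosed β X := by
    intro i hi j hj hij
    rw [fl_eq_of_sameMatroid hα hβ hm hij]
    exact hX i hi j hj hij
  set r : ι → ℝ := fun l => gram α l l with hr
  have hr' : (fun l => gram β l l) = r := funext hd
  -- the eigenvalue is constant
  have hlamα : ∀ i ∈ X, ∀ m, ∑ j ∈ X, gram α i j * gram α j m = lam α r X i * gram α i m :=
    fun i hi m => lam_spec hα hX hi m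
  have hconst := const_of_irredOn hs hXi (fun i => lam α r X i) (by
    intro i hi j hj hij
    have h1 := hlamα i hi j
    have h2 := hlamα j hj i
    have h3 : ∑ l ∈ X, gram α i l * gram α l j = ∑ l ∈ X, gram α j l * gram α l i :=
      Finset.sum_congr rfl fun l _ => by rw [gram_sym hs i l, gram_sym hs l j]; ring
    rw [h1, h2, gram_sym hs j i] at h3
    exact mul_right_cancel₀ hij h3)
  set L := lam α r X i0 with hL
  have hα1 : ∀ i ∈ X, ∀ m, ∑ j ∈ X, gram α i j * gram α j m = L * gram α i m := by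
    intro i hi m
    rw [hlamα i hi m]
    have := hconst i hi i0 hi0
    rw [this]
  have hβ1 : ∀ i ∈ X, ∀ m, ∑ j ∈ X, gram β i j * gram β j m = L * gram β i m := by
    intro i hi m
    rw [lam_spec hβ hXβ hi m, hr', lam_congr hα.noncollinear hm]
    have := hconst i hi i0 hi0
    rw [this]
  have hLpos : 0 < L := by
    have h1 := hα1 i0 hi0 i0
    have h2 : 0 < ∑ j ∈ X, gram α i0 j * gram α j i0 := by
      apply Finset.sum_pos'
      · intro j _
        rw [gram_sym hs j i0]
        exact mul_self_nonneg _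
      · exact ⟨i0, hi0, mul_pos (gram_pos hα i0) (gram_pos hα i0)⟩
    rw [h1] at h2
    exact (pos_iff_pos_of_mul_pos h2).mpr (gram_pos hα i0)
  obtain ⟨g, c, hgc⟩ := hp
  -- transposed maps
  have hw : ∀ i, ∃ w : V, ∀ γ : Dual ℝ V, γ w = (g γ) (vee β (β i)) := by
    intro i
    obtain ⟨w, hw⟩ := (Module.evalEquiv ℝ V).surjective
      ((Dual.eval ℝ V (vee β (β i))) ∘ₗ (g : Dual ℝ V →ₗ[ℝ] Dual ℝ V))
    refine ⟨w, fun γ => ?_⟩
    have := LinearMap.congr_fun hw γ
    simpa using this
  choose w hw using hw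
  have hz : ∀ m, ∃ z : V, ∀ γ : Dual ℝ V, γ z = (g.symm γ) (vee α (α m)) := by
    intro m
    obtain ⟨u, hu⟩ := (Module.evalEquiv ℝ V).surjective
      ((Dual.eval ℝ V (vee α (α m))) ∘ₗ (g.symm : Dual ℝ V →ₗ[ℝ] Dual ℝ V))
    refine ⟨u, fun γ => ?_⟩
    have := LinearMap.congr_fun hu γ
    simpa using this
  choose z hz using hz
  have hc0 : ∀ i ∈ X, c i ≠ 0 := fun i hi => (hgc i hi).1
  have hβc : ∀ i ∈ X, β i = c i • g (α i) := fun i hi => (hgc i hi).2
  have hβw : ∀ i, ∀ l ∈ X, gram β i l = c l * α l (w i) := by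
    intro i l hl
    rw [gram_sym hs' i l, hw]
    unfold gram
    nth_rewrite 1 [hβc l hl]
    rfl
  have hβz : ∀ m, ∀ j ∈ X, β j (z m) = c j * gram α m j := by
    intro m j hj
    rw [hz, hβc j hj, map_smul, LinearEquiv.symm_apply_apply, gram_sym hs m j]
    rfl
  set y : ι → ι → ℝ := fun i j => gram β i j / (L * c i * c j) with hy
  have hsumX : ∀ f : ι → ℝ, ∑ l : X, f l = ∑ l ∈ X, f l := fun f => Finset.sum_coe_sort X f
  have hy1 : ∀ i ∈ X, ∀ j ∈ X, ∑ l ∈ X, gram α j l / L * y i l = y i j := by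
    intro i hi j hj
    have h1 := tight_cov hs (hα1 j hj) (w i)
    have h2 : ∀ l ∈ X, gram α j l / L * y i l = (gram α j l * α l (w i)) / (L * L * c i) := by
      intro l hl
      simp only [hy]
      rw [hβw i l hl]
      have := hc0 l hl
      have := hc0 i hi
      field_simp
    rw [Finset.sum_congr rfl h2, ← Finset.sum_div, h1]
    simp only [hy]
    rw [hβw i j hj]
    have := hc0 j hj
    have := hc0 i hi
    field_simp
  have hy2 : ∀ i ∈ X, ∀ m ∈ X, ∑ j ∈ X, gram α m j / L * (c j ^ 2 * y i j) = gram α m i / L := by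
    intro i hi m hm'
    have h1 := tight_cov hs' (hβ1 i hi) (z m)
    rw [hβz m i hi] at h1
    have h2 : ∀ j ∈ X, gram α m j / L * (c j ^ 2 * y i j)
        = (gram β i j * β j (z m)) / (L * L * c i) := by
      intro j hj
      simp only [hy]
      rw [hβz m j hj]
      have := hc0 j hj
      have := hc0 i hi
      field_simp
    rw [Finset.sum_congr rfl h2, ← Finset.sum_div, h1]
    have := hc0 i hi
    field_simp
  have hkey := scaling_core (ι := X) (fun i j => gram α i j / L)
    (fun i j => by simp only [gram_sym hs i j])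
    (fun i j => by
      rw [hsumX (fun l => gram α i l / L * (gram α l j / L))]
      have h1 : ∀ l ∈ X, gram α i l / L * (gram α l j / L)
          = (gram α i l * gram α l j) / (L * L) := fun l _ => by field_simp
      rw [Finset.sum_congr rfl h1, ← Finset.sum_div, hα1 i i.2 j]
      field_simp)
    (fun i => c i ^ 2) (fun i => by have := hc0 i i.2; positivity)
    (fun i j => y i j)
    (fun i j => by
      rw [hsumX (fun l => gram α j l / L * y i l)]
      exact hy1 i i.2 j j.2)
    (fun i m => by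
      rw [hsumX (fun j => gram α m j / L * (c j ^ 2 * y i j))]
      exact hy2 i i.2 m m.2)
    (fun i => by
      simp only [hy]
      rw [hd]
      have := hc0 i i.2
      field_simp)
  have hcc := const_of_irredOn hs hXi (fun i => c i ^ 2) (by
    intro i hi j hj hij
    exact hkey ⟨i, hi⟩ ⟨j, hj⟩ (div_ne_zero hij hLpos.ne'))
  intro j hj
  -- compare
  have h1 := hy1 i0 hi0 j hj
  have h2 := hy2 i0 hi0 j hj
  have h3 : ∑ l ∈ X, gram α j l / L * (c l ^ 2 * y i0 l)
      = c i0 ^ 2 * ∑ l ∈ X, gram α j l / L * y i0 l := by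
    rw [Finset.mul_sum]
    apply Finset.sum_congr rfl
    intro l hl
    have := hcc l hl i0 hi0
    rw [this]
    ring
  rw [h2, h1] at h3
  simp only [hy] at h3
  have hci := hc0 i0 hi0
  have hcj := hc0 j hj
  have h4 := hcc j hj i0 hi0
  have h5 : gram α j i0 * c j = c i0 * gram β i0 j := by
    field_simp at h3
    linarith
  have h6 : (gram α i0 j * c j) ^ 2 = (c i0 * gram β i0 j) ^ 2 := by
    rw [← h5, gram_sym hs i0 j]
  have h7 : c i0 ^ 2 * gram β i0 j ^ 2 = c i0 ^ 2 * gram α i0 j ^ 2 := by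
    calc c i0 ^ 2 * gram β i0 j ^ 2 = (c i0 * gram β i0 j) ^ 2 := by ring
      _ = (gram α i0 j * c j) ^ 2 := h6.symm
      _ = gram α i0 j ^ 2 * c j ^ 2 := by ring
      _ = c i0 ^ 2 * gram α i0 j ^ 2 := by rw [h4]; ring
  exact mul_left_cancel₀ (pow_ne_zero 2 hci) h7

/-- **Local to global.** -/
theorem local_to_global (hn : 3 ≤ finrank ℝ V) (hα : IsVeeSystem α) (hirr : IsIrreducible α)
    (hβ : IsVeeSystem β) (hm : SameMatroid α β) (hnu : SameNu α β)
    (hloc : ∀ i j, i ≠ j → 4 ≤ (fl α i j).card → ∃ X : Finset ι, i ∈ X ∧ j ∈ X ∧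
      LineClosed α X ∧ IrredOn α X ∧ ProjEquivOn α β X) : SignEquiv α β := by
  classical
  have hd : ∀ i, gram β i i = gram α i i := fun i =>
    (norms_of_sameNu hn hα hirr hβ hm hnu i).symm
  apply signEquiv_of_abs hα hirr hβ hm hd
  intro i j
  by_cases hij : i = j
  · subst hij; rw [hd]
  have hfl := fl_eq_of_sameMatroid hα hβ hm hij
  rcases lt_trichotomy (fl α i j).card 3 with h | h | h
  · rw [gram_two hα hij h, gram_two hβ hij (by rw [hfl]; exact h)]
  · exact sq_eq_of_card_three hα hβ hm hd hij h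
  · obtain ⟨X, hi, hj, h1, h2, h3⟩ := hloc i j hij h
    exact sq_eq_on hα hβ hm hd h1 h2 h3 i hi j hj

end Pool.Agent.MP_de770b_mp
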