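import Mathlib
import Pool.Agent.MP_de770b_mp.LocalGlobal

/-! Subsystems that can be constructed from a frame by intersecting planes. -/

set_option linter.unusedSectionVars false

namespace Pool.Agent.MP_de770b_mp

open Module Submodule

variable {ι : Type*} [Fintype ι] {V : Type*} [AddCommGroup V] [Module ℝ V]
  [FiniteDimensional ℝ V] {α β γ : ι → Dual ℝ V}

/-- four covectors in a three-dimensional space, any three of them independent -/
structure IsFrame (α : ι → Dual ℝ V) (F : Fin 4 → ι) : Prop where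
  indep : ∀ a : Fin 4, LinearIndependent ℝ (fun b : Fin 3 => α (F (a.succAbove b)))
  dep : ¬ LinearIndependent ℝ (fun b : Fin 4 => α (F b))

/-- the members that are obtained from the frame `F` by repeatedly intersecting two different
planes, each spanned by two members already obtained -/
inductive Built (α : ι → Dual ℝ V) (F : Fin 4 → ι) : ι → Prop
  | base (a : Fin 4) : Built α F (F a)
  | meet {i j l p k : ι} : Built α F i → Built α F j → Built α F l → Built α F p → i ≠ j →
      l ≠ p → fl α i j ≠ fl α l p → k ∈ fl α i j → k ∈ fl α l p → Built α F k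

lemma IsFrame.injective {F : Fin 4 → ι} (hF : IsFrame α F) : Function.Injective F := by
  intro a b hab
  by_contra hne
  have hex : ∀ a b : Fin 4, ∃ c : Fin 4, c ≠ a ∧ c ≠ b := by decide
  obtain ⟨c, hca, hcb⟩ := hex a b
  obtain ⟨a', rfl⟩ := Fin.exists_succAbove_eq (Ne.symm hca)
  obtain ⟨b', rfl⟩ := Fin.exists_succAbove_eq (Ne.symm hcb)
  have h1 := (hF.indep c).injective
  have h2 : a' = b' := h1 (by simp only [hab])
  exact hne (by rw [h2])

lemma linearIndependent_iff_of_sameMatroid (hm : SameMatroid α β) {n : ℕ} {f : Fin n → ι}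
    (hf : Function.Injective f) :
    LinearIndependent ℝ (fun b => α (f b)) ↔ LinearIndependent ℝ (fun b => β (f b)) := by
  have h1 : ∀ δ : ι → Dual ℝ V, LinearIndepOn ℝ δ (Set.range f) ↔
      LinearIndependent ℝ (fun b => δ (f b)) := fun δ => linearIndepOn_range_iff hf δ
  rw [← h1 α, ← h1 β]
  exact hm _

lemma IsFrame.transfer {F : Fin 4 → ι} (hF : IsFrame α F) (hm : SameMatroid α β) : IsFrame β F where
  indep := fun a => (linearIndependent_iff_of_sameMatroid hm
    (hF.injective.comp Fin.succAbove_right_injective)).mp (hF.indep a)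
  dep := fun h => hF.dep ((linearIndependent_iff_of_sameMatroid hm hF.injective).mpr h)

/-- the linear relation of a frame has nonzero coefficients -/
lemma IsFrame.relation {F : Fin 4 → ι} (hF : IsFrame α F) :
    ∃ c : Fin 4 → ℝ, (∀ a, c a ≠ 0) ∧ ∑ a, c a • α (F a) = 0 := by
  have h1 := hF.dep
  rw [Fintype.linearIndependent_iff] at h1
  push Not at h1
  obtain ⟨c, hc, a0, ha0⟩ := h1
  refine ⟨c, fun a ha => ?_, hc⟩
  rw [Fin.sum_univ_succAbove _ a, ha, zero_smul, zero_add] at hc
  have h2 := Fintype.linearIndependent_iff.mp (hF.indep a) (fun b => c (a.succAbove b)) hc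
  by_cases h : a0 = a
  · rw [h] at ha0; exact ha0 ha
  · obtain ⟨b, rfl⟩ := Fin.exists_succAbove_eq h
    exact ha0 (h2 b)

lemma exists_equiv_of_li {W : Type*} [AddCommGroup W] [Module ℝ W] [FiniteDimensional ℝ W]
    {n : ℕ} {v w : Fin n → W} (hv : LinearIndependent ℝ v) (hw : LinearIndependent ℝ w) :
    ∃ g : W ≃ₗ[ℝ] W, ∀ i, g (v i) = w i := by
  obtain ⟨g, hg⟩ := Submodule.exists_linearEquiv_restrict_eq
    ((Basis.span hv).equiv (Basis.span hw) (Equiv.refl _))
  refine ⟨g, fun i => ?_⟩
  have h1 := hg ((Basis.span hv) i)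
  rw [Basis.equiv_apply, Basis.span_apply, Basis.span_apply] at h1
  exact h1.symm

/-- the members constructed from a frame are projectively unique -/
theorem built_unique (hα : ∀ i j, i ≠ j → LinearIndependent ℝ ![α i, α j])
    (h0 : ∀ i, α i ≠ 0) (hm : SameMatroid α β) {F : Fin 4 → ι} (hF : IsFrame α F) :
    ∃ g : Dual ℝ V ≃ₗ[ℝ] Dual ℝ V, ∀ k, Built α F k → ∃ c : ℝ, c ≠ 0 ∧ β k = c • g (α k) := by
  have hFβ := hF.transfer hm
  have h0β : ∀ i, β i ≠ 0 := by
    intro i h
    have h1 : LinearIndepOn ℝ α {i} := LinearIndepOn.singleton (h0 i)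
    have h2 := (hm _).mp h1
    have := h2.ne_zero (Set.mem_singleton i)
    exact this h
  obtain ⟨c, hc, hcr⟩ := hF.relation
  obtain ⟨d, hd, hdr⟩ := hFβ.relation
  have hli : LinearIndependent ℝ (fun b : Fin 3 => (d ((3 : Fin 4).succAbove b)
      / c ((3 : Fin 4).succAbove b)) • β (F ((3 : Fin 4).succAbove b))) := by
    have h1 := (hFβ.indep 3).units_smul (fun b : Fin 3 => Units.mk0
      (d ((3 : Fin 4).succAbove b) / c ((3 : Fin 4).succAbove b)) (div_ne_zero (hd _) (hc _)))
    exact h1
  obtain ⟨g, hg⟩ := exists_equiv_of_li (hF.indep 3) hli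
  have hbase : ∀ a, β (F a) = (c a / d a) • g (α (F a)) := by
    have h1 : ∀ b : Fin 3, β (F ((3 : Fin 4).succAbove b))
        = (c ((3 : Fin 4).succAbove b) / d ((3 : Fin 4).succAbove b))
          • g (α (F ((3 : Fin 4).succAbove b))) := by
      intro b
      rw [hg b, smul_smul]
      have := hc ((3 : Fin 4).succAbove b)
      have := hd ((3 : Fin 4).succAbove b)
      have e : c ((3 : Fin 4).succAbove b) / d ((3 : Fin 4).succAbove b)
          * (d ((3 : Fin 4).succAbove b) / c ((3 : Fin 4).succAbove b)) = 1 := by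
        field_simp
      rw [e, one_smul]
    intro a
    by_cases ha : a = 3
    · subst ha
      rw [Fin.sum_univ_succAbove _ 3] at hcr hdr
      have h2 : ∑ b : Fin 3, d ((3 : Fin 4).succAbove b) • β (F ((3 : Fin 4).succAbove b))
          = g (∑ b : Fin 3, c ((3 : Fin 4).succAbove b) • α (F ((3 : Fin 4).succAbove b))) := by
        rw [map_sum]
        apply Finset.sum_congr rfl
        intro b _
        rw [map_smul, hg b, smul_smul]
        have := hc ((3 : Fin 4).succAbove b)
        congr 1
        field_simp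
      have h3 : d 3 • β (F 3) = g (c 3 • α (F 3)) := by
        have e1 : d 3 • β (F 3)
            = - ∑ b : Fin 3, d ((3 : Fin 4).succAbove b) • β (F ((3 : Fin 4).succAbove b)) :=
          eq_neg_of_add_eq_zero_left hdr
        have e2 : c 3 • α (F 3)
            = - ∑ b : Fin 3, c ((3 : Fin 4).succAbove b) • α (F ((3 : Fin 4).succAbove b)) :=
          eq_neg_of_add_eq_zero_left hcr
        rw [e1, e2, map_neg, h2]
      have h4 : β (F 3) = (d 3)⁻¹ • (d 3 • β (F 3)) := by
        rw [smul_smul, inv_mul_cancel₀ (hd 3), one_smul]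
      rw [h4, h3, map_smul, smul_smul]
      congr 1
      rw [div_eq_mul_inv, mul_comm]
    · obtain ⟨b, rfl⟩ := Fin.exists_succAbove_eq ha
      exact h1 b
  refine ⟨g, fun k hk => ?_⟩
  induction hk with
  | base a => exact ⟨c a / d a, div_ne_zero (hc a) (hd a), hbase a⟩
  | @meet i j l p k _ _ _ _ hij hlp hne hk1 hk2 ihi ihj ihl ihp =>
    obtain ⟨ci, hci, hi⟩ := ihi
    obtain ⟨cj, hcj, hj⟩ := ihj
    obtain ⟨cl, hcl, hl⟩ := ihl
    obtain ⟨cp, hcp, hp⟩ := ihp
    have key : ∀ {i j : ι} {ci cj : ℝ}, i ≠ j → β i = ci • g (α i) → β j = cj • g (α j) →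
        k ∈ fl α i j → g.symm (β k) ∈ span ℝ {α i, α j} := by
      intro i j ci cj hij hi hj hk
      have hkβ : k ∈ fl β i j := by
        rw [fl_eq_of_sameMatroid' hα hm hij]; exact hk
      obtain ⟨x, y, hxy⟩ := mem_span_pair.mp (mem_fl.mp hkβ)
      rw [← hxy, hi, hj, map_add, map_smul, map_smul, map_smul, map_smul,
        LinearEquiv.symm_apply_apply, LinearEquiv.symm_apply_apply]
      exact Submodule.add_mem _
        (Submodule.smul_mem _ _ (Submodule.smul_mem _ _ (subset_span (by simp))))
        (Submodule.smul_mem _ _ (Submodule.smul_mem _ _ (subset_span (by simp))))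
    have m1 := key hij hi hj hk1
    have m2 := key hlp hl hp hk2
    have hdep : ¬ LinearIndependent ℝ ![α k, g.symm (β k)] := by
      intro hli
      have e1 := span_pair_eq hli (mem_fl.mp hk1) m1
      have e2 := span_pair_eq hli (mem_fl.mp hk2) m2
      apply hne
      ext q
      rw [mem_fl, mem_fl, ← e1, e2]
    rw [LinearIndependent.pair_iff' (h0 k)] at hdep
    push Not at hdep
    obtain ⟨c', hc'⟩ := hdep
    have h5 : β k = c' • g (α k) := by
      rw [← map_smul, hc', LinearEquiv.apply_symm_apply]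
    refine ⟨c', ?_, h5⟩
    rintro rfl
    rw [zero_smul] at h5
    exact h0β k h5

/-- the hypothesis: every plane with at least four members lies in an irreducible line-closed
subsystem that can be constructed from a frame -/
def LocallyConstructible (α : ι → Dual ℝ V) : Prop :=
  ∀ i j, i ≠ j → 4 ≤ (fl α i j).card → ∃ (X : Finset ι) (F : Fin 4 → ι), i ∈ X ∧ j ∈ X ∧
    LineClosed α X ∧ IrredOn α X ∧ IsFrame α F ∧ ∀ k ∈ X, Built α F k

theorem signEquiv_of_constructible (hn : 3 ≤ finrank ℝ V) (hα : IsVeeSystem α)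
    (hirr : IsIrreducible α) (hcon : LocallyConstructible α) (hβ : IsVeeSystem β)
    (hm : SameMatroid α β) (hnu : SameNu α β) : SignEquiv α β := by
  classical
  apply local_to_global hn hα hirr hβ hm hnu
  intro i j hij h4
  obtain ⟨X, F, hi, hj, h1, h2, hF, hX⟩ := hcon i j hij h4
  obtain ⟨g, hg⟩ := built_unique hα.noncollinear hα.ne_zero hm hF
  have hg' : ∀ k ∈ X, ∃ c : ℝ, c ≠ 0 ∧ β k = c • g (α k) := fun k hk => hg k (hX k hk)
  choose! c hc using hg'
  exact ⟨X, hi, hj, h1, h2, g, c, hc⟩

theorem projEquiv_of_constructible (hn : 3 ≤ finrank ℝ V) (hα : IsVeeSystem α)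
    (hirr : IsIrreducible α) (hcon : LocallyConstructible α) (hm : SameMatroid α β) :
    ProjEquiv α β := by
  obtain ⟨t, ht, hv, hnu, -⟩ := realisation_rescales hn hα hirr hm
  have hm' : SameMatroid α (fun i => t i • β i) :=
    hm.trans (sameMatroid_smul β (fun i => (ht i).ne'))
  have h1 := (signEquiv_of_constructible hn hα hirr hcon hv hm' hnu).projEquiv.smul
    (t := fun i => (t i)⁻¹) (fun i => inv_ne_zero (ht i).ne')
  have h2 : (fun i => (t i)⁻¹ • t i • β i) = β := by
    funext i
    rw [smul_smul, inv_mul_cancel₀ (ht i).ne', one_smul]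
  rw [h2] at h1
  exact h1

end Pool.Agent.MP_de770b_mp
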